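import Pool.Agent.Work.MP_80ee1d_an.V.Chain

/-!
Moving the first coefficient to the exact ratio `κ`.

PLAN. `L = Λ + l2 > 0`, `δ = l2 - l1`, `l1' = -Λ + κ L = l2 - (1 - κ) L`, `q l2 u - q l1 u = δ M u u`
(`q_sub_q`), `L M u u ≤ q l2 u` (`poin'`), `η ≤ κ / 6 < 1`.
Upper bound: by the fourth and second inequalities of `mass`, `∑ (b - a) m ≤ (1 - κ) ∑ b m` and
`q l1 ≤ q l2`, `δ M u u ≤ D q l2 u` with `D = (1 - κ)(1 + η) + η`; with `u` from `poin_opt ζ`,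
`q l2 u ≤ (L + ζ) M u u`, so `δ ≤ D (L + ζ)` for all `ζ > 0` (`M_pos`).
Lower bound: for the test function `w` of the well `c`,
`q l1 w ≤ (1 + η) κ s b c ≤ (1 + η)² κ q l2 w`, so `δ M w w ≥ (1 - (1 + η)² κ) q l2 w`; if this factor is
non-negative use `L M ≤ q l2`, otherwise `δ > 0`; hence `δ ≥ (1 - (1 + η)² κ) L`.
So `|δ - (1 - κ) L| ≤ 3 η L`, `|q l1' u - q l1 u| ≤ 3 η q l2 u`, and `κ q l2 u ≤ q l1' u` (`q_ratio`).  With
`ζ = 3 η / κ ≤ 1 / 2`: `q l1 ≤ (1 + ζ) q l1'`, `q l1' ≤ (1 + 2 ζ) q l1`, `q l1' ≤ q l1 + 3 η q l2`,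
`(1 + η)(1 + 2 ζ) ≤ 1 + η'`, `η (1 + ζ) ≤ η'`, `4 η ≤ η'`.
-/

open MeasureTheory Filter Topology
open scoped RealInnerProductSpace

noncomputable section
namespace CritSys
namespace Ctx

variable {X : Type} [MeasurableSpace X] {H : Type} [NormedAddCommGroup H] [InnerProductSpace ℝ H]
  {μ : Measure X} [IsFiniteMeasure μ] {C : Ctx H μ} {ι : Type} [Fintype ι]

theorem WG.adjust {l1 l2 s η η' κ : ℝ} {a b : ι → ℝ} (h : C.WG l1 l2 s η a b) (hl : l1 < l2)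
    (k0 : 0 < κ) (k1 : κ < 1) (h0 : 0 < η) (h1 : 13 * η ≤ κ * η') (h2 : 6 * η ≤ κ)
    (b0 : ∀ i, 0 ≤ b i) (hab : ∀ i, κ * b i ≤ a i) {c : ι} (hc : a c = κ * b c) :
    C.WG (-C.Λ + κ * (C.Λ + l2)) l2 s η' a b := by
  obtain ⟨m, ν, m0, m1, m2, m3, m4, m5, m6, m7, m8⟩ := h.mass
  have s0 := h.s0
  obtain ⟨L, hL⟩ : ∃ L, L = C.Λ + l2 := ⟨_, rfl⟩
  have L0 : 0 < L := by linarith [h.a2.1]
  have η1 : η ≤ 1 := by linarith
  have hM : ∀ u, L * C.M u u ≤ C.q l2 u := fun u => by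
    have := C.poin' u
    rw [hL, q]
    linarith
  have q1 := fun u => C.q_nonneg h.a1.1.le u
  have q2 := fun u => C.q_nonneg h.a2.1.le u
  have hd := fun u => C.q_sub_q l1 l2 u
  have up : l2 - l1 ≤ ((1 - κ) * (1 + η) + η) * L := by
    have D0 : 0 < (1 - κ) * (1 + η) + η := by
      have := mul_pos (sub_pos.2 k1) (show 0 < 1 + η by linarith)
      linarith
    have key : ∀ u, (l2 - l1) * C.M u u ≤ ((1 - κ) * (1 + η) + η) * C.q l2 u := fun u => by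
      have e1 : -((1 - κ) * ∑ i, b i * m u i) ≤ ∑ i, (a i - b i) * m u i := by
        rw [Finset.mul_sum, ← Finset.sum_neg_distrib]
        exact Finset.sum_le_sum fun i _ => by
          linarith only [hab, m0, mul_le_mul_of_nonneg_right (hab i) (m0 u i)]
      have e2 := mul_le_mul_of_nonneg_left e1 s0.le
      have e3 := mul_le_mul_of_nonneg_left (m3 u) (sub_pos.2 k1).le
      have e4 := mul_le_mul_of_nonneg_left (C.q_mono hl.le u) h0.le
      linarith [m5 u, hd u]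
    refine le_of_forall_pos_le_add fun ζ hζ => ?_
    obtain ⟨u, u0, hu⟩ := C.poin_opt (ζ / ((1 - κ) * (1 + η) + η)) (div_pos hζ D0)
    have e1 : C.q l2 u ≤ (L + ζ / ((1 - κ) * (1 + η) + η)) * C.M u u := by
      have : ‖u‖ ^ 2 ≤ (C.Λ + ζ / ((1 - κ) * (1 + η) + η)) * C.M u u := hu
      rw [hL, q]
      linarith
    have e2 := (key u).trans (mul_le_mul_of_nonneg_left e1 D0.le)
    rw [← mul_assoc, mul_add, mul_div_cancel₀ _ D0.ne'] at e2
    exact le_of_mul_le_mul_right e2 (C.M_pos u0)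
  have lo : (1 - (1 + η) ^ 2 * κ) * L ≤ l2 - l1 := by
    rcases le_or_gt (1 - (1 + η) ^ 2 * κ) 0 with e | e
    · linarith only [hl, e, L0, mul_nonpos_of_nonpos_of_nonneg e L0.le]
    obtain ⟨w, w1, w2, -, -, w5⟩ := h.test c
    have w0 : w ≠ 0 := fun e => by simp [e, C.P_zero] at w1
    rw [hc] at w2
    have e1 := mul_le_mul_of_nonneg_left w5 (show 0 ≤ (1 + η) * κ by positivity)
    have e2 := mul_le_mul_of_nonneg_left (hM w) e.le
    exact le_of_mul_le_mul_right (by linarith [hd w]) (C.M_pos w0)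
  obtain ⟨l, hl'⟩ : ∃ l, l = -C.Λ + κ * (C.Λ + l2) := ⟨_, rfl⟩
  rw [← hl']
  have l0 : l = l2 - (1 - κ) * L := by rw [hl', hL]; ring
  have κL : 0 < κ * L := mul_pos k0 L0
  have κL' : 0 < (1 - κ) * L := mul_pos (sub_pos.2 k1) L0
  have ηL : 0 < η * L := mul_pos h0 L0
  have d1 : l - l1 ≤ 3 * η * L := by
    have := mul_pos k0 ηL
    rw [l0]
    linarith only [up, ηL, this]
  have d2 : l1 - l ≤ 3 * η * L := by
    have e1 : κ * (2 + η) ≤ 3 := by linarith only [k1, h0, h2, k0, mul_pos_of_neg_of_neg (Mathlib.Tactic.Linarith.sub_neg_of_lt k0) (Mathlib.Tactic.Linarith.sub_neg_of_lt k1), mul_nonneg_of_nonpos_of_nonpos (le_of_lt (Mathlib.Tactic.Linarith.sub_neg_of_lt k0)) (Mathlib.Tactic.Linarith.sub_nonpos_of_le h2)]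
    have e2 := mul_le_mul_of_nonneg_right e1 ηL.le
    rw [l0]
    linarith
  have a' : C.Adm l := ⟨by rw [hl', ← hL]; linarith, by linarith [h.a2.2]⟩
  have q0 := fun u => C.q_nonneg a'.1.le u
  have r1 : ∀ u, κ * C.q l2 u ≤ C.q l u := fun u => by
    have := C.q_ratio (show l ≤ l2 by linarith) u
    rw [← hL, show C.Λ + l = κ * L by rw [hl', hL]; ring] at this
    exact le_of_mul_le_mul_left (by linarith) L0
  have r2 : ∀ u, C.q l u ≤ C.q l1 u + 3 * η * C.q l2 u := fun u => by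
    have e1 := mul_le_mul_of_nonneg_right d1 (C.M_nonneg u)
    have e2 := mul_le_mul_of_nonneg_left (hM u) (show 0 ≤ 3 * η by positivity)
    linarith [C.q_sub_q l1 l u]
  have r3 : ∀ u, C.q l1 u ≤ C.q l u + 3 * η * C.q l2 u := fun u => by
    have e1 := mul_le_mul_of_nonneg_right d2 (C.M_nonneg u)
    have e2 := mul_le_mul_of_nonneg_left (hM u) (show 0 ≤ 3 * η by positivity)
    linarith [C.q_sub_q l l1 u]
  obtain ⟨ζ, hζ⟩ : ∃ ζ, ζ * κ = 3 * η := ⟨3 * η / κ, div_mul_cancel₀ _ k0.ne'⟩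
  have ζ0 : 0 < ζ := (mul_pos_iff_of_pos_right k0).1 (by linarith only [h0, hζ])
  have ζ1 : ζ ≤ 1 / 2 := le_of_mul_le_mul_right (by linarith only [h2, hζ]) k0
  have η2 : η + 4 * ζ ≤ η' := le_of_mul_le_mul_right (by linarith only [h1, hζ, k1, h0, mul_pos_of_neg_of_neg (Mathlib.Tactic.Linarith.sub_neg_of_lt k1) (Mathlib.Tactic.Linarith.sub_neg_of_lt h0)]) k0
  have η3 : 3 * η ≤ ζ := by (refine le_of_not_gt fun h_nl => ?_; linarith only [h_nl, hζ, k0, k1, h0, mul_pos_of_neg_of_neg (Mathlib.Tactic.Linarith.sub_neg_of_lt k0) (Mathlib.Tactic.Linarith.sub_neg_of_lt h_nl), mul_pos_of_neg_of_neg (Mathlib.Tactic.Linarith.sub_neg_of_lt k1) (Mathlib.Tactic.Linarith.sub_neg_of_lt h0)])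
  have r4 : ∀ u, 3 * η * C.q l2 u ≤ ζ * C.q l u := fun u => by
    rw [← hζ]
    linarith [mul_le_mul_of_nonneg_left (r1 u) ζ0.le]
  have r5 : ∀ u, (1 + η) * C.q l1 u ≤ (1 + η') * C.q l u := fun u => by
    have e1 := mul_le_mul_of_nonneg_left (show C.q l1 u ≤ (1 + ζ) * C.q l u by
      linarith [r3 u, r4 u]) (show 0 ≤ 1 + η by linarith only [k1, h0, h2])
    have e2 := mul_le_mul_of_nonneg_right (show (1 + η) * (1 + ζ) ≤ 1 + η' by (refine le_of_not_gt fun h_nl => ?_; linarith only [h_nl, h1, hζ, k0, k1, h0, h2, mul_pos_of_neg_of_neg (Mathlib.Tactic.Linarith.sub_neg_of_lt k0) (Mathlib.Tactic.Linarith.sub_neg_of_lt h_nl), mul_pos_of_neg_of_neg (Mathlib.Tactic.Linarith.sub_neg_of_lt k1) (Mathlib.Tactic.Linarith.sub_neg_of_lt h0), mul_pos_of_neg_of_neg (Mathlib.Tactic.Linarith.sub_neg_of_lt h0) (Mathlib.Tactic.Linarith.sub_neg_of_lt h0), mul_nonneg_of_nonpos_of_nonpos (le_of_lt (Mathlib.Tactic.Linarith.sub_neg_of_lt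 h0)) (Mathlib.Tactic.Linarith.sub_nonpos_of_le h2), Mathlib.Tactic.Linarith.mul_zero_eq (Mathlib.Tactic.Linarith.sub_neg_of_lt h0) (sub_eq_zero_of_eq hζ)])) (q0 u)
    linarith
  have r6 : ∀ u, η * C.q l1 u ≤ η' * C.q l u := fun u => by
    have e1 := mul_le_mul_of_nonneg_left (show C.q l1 u ≤ (1 + ζ) * C.q l u by
      linarith [r3 u, r4 u]) h0.le
    have e2 := mul_le_mul_of_nonneg_right (show η * (1 + ζ) ≤ η' by (refine le_of_not_gt fun h_nl => ?_; linarith only [h_nl, h1, k0, k1, h0, h2, hζ, mul_pos_of_neg_of_neg (Mathlib.Tactic.Linarith.sub_neg_of_lt k0) (Mathlib.Tactic.Linarith.sub_neg_of_lt h_nl), mul_pos_of_neg_of_neg (Mathlib.Tactic.Linarith.sub_neg_of_lt k1) (Mathlib.Tactic.Linarith.sub_neg_of_lt h0), mul_pos_of_neg_of_neg (Mathlib.Tactic.Linarith.sub_neg_of_lt h0) (Mathlib.Tactic.Linarith.sub_neg_of_lt h0), mul_nonneg_of_nonpos_of_nonpos (le_of_lt (Mathlib.Tactic.Linarith.sub_neg_of_lt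 h0)) (Mathlib.Tactic.Linarith.sub_nonpos_of_le h2), Mathlib.Tactic.Linarith.mul_zero_eq (Mathlib.Tactic.Linarith.sub_neg_of_lt h0) (sub_eq_zero_of_eq hζ)])) (q0 u)
    linarith
  have r7 : ∀ u, C.q l u ≤ (1 + 2 * ζ) * C.q l1 u := fun u => by
    have e1 := mul_le_mul_of_nonneg_left (show (1 - ζ) * C.q l u ≤ C.q l1 u by
      linarith [r2 u, r4 u]) (show 0 ≤ 1 + 2 * ζ by linarith only [k1, h0, h2, η3])
    have e2 := mul_le_mul_of_nonneg_right (show 1 ≤ (1 + 2 * ζ) * (1 - ζ) by (refine le_of_not_gt fun h_nl => ?_; linarith only [h_nl, hζ, h0, ζ1, h2, ζ0, mul_nonneg_of_nonpos_of_nonpos (le_of_lt (Mathlib.Tactic.Linarith.sub_neg_of_lt h0)) (Mathlib.Tactic.Linarith.sub_nonpos_of_le ζ1), mul_pos_of_neg_of_neg (Mathlib.Tactic.Linarith.sub_neg_of_lt h0) (Mathlib.Tactic.Linarith.sub_neg_of_lt h_nl), mul_nonneg_of_nonpos_of_nonpos (Mathlib.Tactic.Linarith.sub_nonpos_of_le h2) (le_of_lt (Mathlib.Tactic.Linarith.sub_neg_of_lt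 h_nl)), Mathlib.Tactic.Linarith.zero_mul_eq (sub_eq_zero_of_eq hζ) (Mathlib.Tactic.Linarith.sub_neg_of_lt ζ0)])) (q0 u)
    linarith
  have r8 : ∀ u, η * C.q l2 u ≤ η' * C.q l2 u := fun u =>
    mul_le_mul_of_nonneg_right (by linarith only [h0, η2, η3]) (q2 u)
  refine ⟨a', h.a2, s0, ⟨m, ν, m0, m1, fun u => (m2 u).trans (r5 u), fun u => ?_, fun u => ?_,
    fun u => (m5 u).trans (r5 u), fun u => (m6 u).trans (r6 u), fun u => (m7 u).trans (r8 u), m8⟩,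
    fun i => ?_⟩
  · linarith [m3 u, r8 u]
  · linarith [m4 u, r2 u, mul_le_mul_of_nonneg_right (show 4 * η ≤ η' by linarith) (q2 u)]
  · obtain ⟨w, w1, w2, w3, w4, w5⟩ := h.test i
    have a0 : 0 ≤ s * a i := mul_nonneg s0.le ((mul_nonneg k0.le (b0 i)).trans (hab i))
    have b1 : 0 ≤ s * b i := mul_nonneg s0.le (b0 i)
    refine ⟨w, w1, ?_, ?_, w4.trans (r5 w), by linarith [r8 w]⟩
    · have e1 := mul_le_mul_of_nonneg_left w2 (show 0 ≤ 1 + 2 * ζ by linarith only [k1, h0, h2, η3])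
      have e2 := mul_le_mul_of_nonneg_right (show (1 + 2 * ζ) * (1 + η) ≤ 1 + η' by (refine le_of_not_gt fun h_nl => ?_; linarith only [h_nl, h1, hζ, k0, k1, h0, h2, mul_pos_of_neg_of_neg (Mathlib.Tactic.Linarith.sub_neg_of_lt k0) (Mathlib.Tactic.Linarith.sub_neg_of_lt h_nl), mul_pos_of_neg_of_neg (Mathlib.Tactic.Linarith.sub_neg_of_lt k1) (Mathlib.Tactic.Linarith.sub_neg_of_lt h0), mul_pos_of_neg_of_neg (Mathlib.Tactic.Linarith.sub_neg_of_lt h0) (Mathlib.Tactic.Linarith.sub_neg_of_lt h0), mul_nonneg_of_nonpos_of_nonpos (le_of_lt (Mathlib.Tactic.Linarith.sub_neg_of_lt h0)) (Mathlib.Tactic.Linarith.sub_nonpos_of_le h2), Mathlib.Tactic.Linarith.mul_zero_eq (Mathlib.Tactic.Linarith.sub_neg_of_lt h0) (sub_eq_zero_of_eq hζ)])) a0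
      linarith [r7 w]
    · linarith [mul_le_mul_of_nonneg_right (show η ≤ η' by linarith) b1]

end Ctx
end CritSys
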