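import Mathlib

-- merged part: Pool.Agent.Work.MP_80ee1d_an.U.Toy
section
/-!
The finite-dimensional model of a domain with several wells.  `r i` is the level of the well `i`
for the second quadratic form, `r i - k i` the level for the first one; `m`, `n` are the masses of two
normalised functions in the wells, `η` is a tolerance.

PLAN. `pair_small`: otherwise there are (`Filter.not_eventually`, `Frequently`) `η j → 0` and data
`(m j, n j, X j, Y j, τ j, Z j)` in the compact set `[0,1]^ι × [0,1]^ι × [0,B]² × [0,1] × [0,B]`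
(`m i ≤ 1` since `m i ^ 2 ≤ ∑ ≤ 1`); a limit point satisfies `Pair r k 0` (all conditions are closed,
`le_of_tendsto_of_tendsto'`, `tendsto_finset_sum`) and `G`.  Alternatively
`IsCompact.eventually_forall_of_forall_eventually` with the open set where `Pair ∧ G` fails.
`Pair.low`: if `Y ≤ 1` then `1 - 2 η ≤ ∑ n² ≤ ∑ n ≤ ∑ r n ≤ (1 + η) Y`.
`factC`: let `j` maximise `n` (`Finite.exists_max`; `ι` is non-empty as the sum is one).
`1 = ∑ n² ≤ n j ∑ n ≤ n j y`, so `n j ≥ 8 / 9`.  With `o = ∑_{i ≠ j} n i`: `r j n j + o ≤ y`, so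
`o ≤ 1 / 4`, `r j ≤ 81 / 64`, and `1 - n j ≤ 1 - n j ² = ∑_{i ≠ j} n i ² ≤ o²`
(`Finset.sum_sq_le_sq_sum_of_nonneg`); `y - r j ≥ o - r j o² ≥ o / 2`.
`factD`: for `i ≠ j`, `w i ≥ √θ w j`; `o = ∑_{i ≠ j} m i` has `o² ≥ 1 - m j ² ≥ 1 - m j`, so
`θ o² ≥ (1 - m j)²` and `∑ w m ≥ w j (m j + √θ o) ≥ w j`.
-/

open Filter Topology Finset

namespace CritSys

variable {ι : Type} [Fintype ι] [DecidableEq ι] {r k m n : ι → ℝ} {η X Y τ Z : ℝ}

/-- Admissible levels. -/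
def Std (r k : ι → ℝ) : Prop := ∀ i, 1 ≤ r i ∧ 0 < k i ∧ k i < r i

/-- The numbers attached to a pair of normalised functions. -/
structure Pair (r k : ι → ℝ) (η : ℝ) (m n : ι → ℝ) (X Y τ Z : ℝ) : Prop where
  m0 : ∀ i, 0 ≤ m i
  n0 : ∀ i, 0 ≤ n i
  m1 : ∑ i, m i ^ 2 ≤ 1
  n1 : ∑ i, n i ^ 2 ≤ 1
  m2 : 1 ≤ ∑ i, m i ^ 2 + 2 * η * X
  n2 : 1 ≤ ∑ i, n i ^ 2 + 2 * η * Y
  hX : ∑ i, (r i - k i) * m i ≤ (1 + η) * X
  hY : ∑ i, r i * n i ≤ (1 + η) * Y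
  hZ : ∀ i, Z + k i * n i ≤ (1 + η) * Y
  hτ : τ ≤ ∑ i, m i * n i + η * (X + Y)
  τ0 : 0 ≤ τ
  τ1 : τ ≤ 1
  X0 : 0 ≤ X
  Z0 : 0 ≤ Z
  ZY : Z ≤ Y

omit [DecidableEq ι] in
theorem Toy_le (h1 : ∑ i, m i ^ 2 ≤ 1) (i : ι) : m i ≤ 1 := by
  have := Finset.single_le_sum (f := fun i => m i ^ 2) (fun i _ => sq_nonneg _) (mem_univ i)
  (refine le_of_not_gt fun h_nl => ?_; linarith only [h_nl, h1, this, mul_pos_of_neg_of_neg (Mathlib.Tactic.Linarith.sub_neg_of_lt h_nl) (Mathlib.Tactic.Linarith.sub_neg_of_lt h_nl)])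

theorem Toy_rest (h0 : ∀ i, 0 ≤ m i) (h1 : ∑ i, m i ^ 2 = 1) (j : ι) :
    1 - m j ≤ (∑ i ∈ univ.erase j, m i) ^ 2 := by
  have h2 := Finset.sum_sq_le_sq_sum_of_nonneg (s := univ.erase j) (f := m) fun i _ => h0 i
  have h3 := Toy_le h1.le j
  rw [← Finset.add_sum_erase _ _ (mem_univ j)] at h1
  linarith only [h1, h2, h3, h0, h0 j, mul_nonneg_of_nonpos_of_nonpos (Mathlib.Tactic.Linarith.sub_nonpos_of_le h3) (Mathlib.Tactic.Linarith.sub_nonpos_of_le (h0 j))]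

omit [DecidableEq ι] in
theorem Toy_closed (r k : ι → ℝ) : IsClosed {z : ℝ × (ι → ℝ) × (ι → ℝ) × ℝ × ℝ × ℝ × ℝ |
    Pair r k z.1 z.2.1 z.2.2.1 z.2.2.2.1 z.2.2.2.2.1 z.2.2.2.2.2.1 z.2.2.2.2.2.2} := by
  refine isClosed_of_closure_subset fun z hz => ?_
  have key : ∀ f g : ℝ × (ι → ℝ) × (ι → ℝ) × ℝ × ℝ × ℝ × ℝ → ℝ, (∀ w,
      Pair r k w.1 w.2.1 w.2.2.1 w.2.2.2.1 w.2.2.2.2.1 w.2.2.2.2.2.1 w.2.2.2.2.2.2 → f w ≤ g w) →
      Continuous f → Continuous g → f z ≤ g z := fun f g h hf hg =>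
    closure_minimal h (isClosed_le hf hg) hz
  refine ⟨fun i => key _ _ (fun w h => h.m0 i) ?_ ?_, fun i => key _ _ (fun w h => h.n0 i) ?_ ?_,
    key _ _ (fun w h => h.m1) ?_ ?_, key _ _ (fun w h => h.n1) ?_ ?_,
    key _ _ (fun w h => h.m2) ?_ ?_, key _ _ (fun w h => h.n2) ?_ ?_,
    key _ _ (fun w h => h.hX) ?_ ?_, key _ _ (fun w h => h.hY) ?_ ?_,
    fun i => key _ _ (fun w h => h.hZ i) ?_ ?_, key _ _ (fun w h => h.hτ) ?_ ?_,
    key _ _ (fun w h => h.τ0) ?_ ?_, key _ _ (fun w h => h.τ1) ?_ ?_,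
    key _ _ (fun w h => h.X0) ?_ ?_, key _ _ (fun w h => h.Z0) ?_ ?_,
    key _ _ (fun w h => h.ZY) ?_ ?_⟩ <;> fun_prop

theorem pair_small (r k : ι → ℝ) (B : ℝ) {G : Set (ℝ × ℝ × ℝ × ℝ × ℝ)} (hG : IsClosed G)
    (h0 : ∀ m n X Y τ Z, Pair r k 0 m n X Y τ Z → (0, X, Y, τ, Z) ∉ G) :
    ∀ᶠ η in 𝓝[>] (0 : ℝ), ∀ m n X Y τ Z, Pair r k η m n X Y τ Z → X ≤ B → Y ≤ B →
      (η, X, Y, τ, Z) ∉ G := by
  have hK : IsCompact (Set.Icc (0 : ι → ℝ) 1 ×ˢ Set.Icc (0 : ι → ℝ) 1 ×ˢ Set.Icc (0 : ℝ) B ×ˢ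
      Set.Icc (0 : ℝ) B ×ˢ Set.Icc (0 : ℝ) 1 ×ˢ Set.Icc (0 : ℝ) B) :=
    isCompact_Icc.prod (isCompact_Icc.prod (isCompact_Icc.prod (isCompact_Icc.prod
      (isCompact_Icc.prod isCompact_Icc))))
  have hC := (Toy_closed r k).inter (hG.preimage (f := fun z : ℝ × (ι → ℝ) × (ι → ℝ) × ℝ × ℝ × ℝ × ℝ =>
    (z.1, z.2.2.2.1, z.2.2.2.2.1, z.2.2.2.2.2.1, z.2.2.2.2.2.2)) (by fun_prop))
  have h1 := hK.eventually_forall_of_forall_eventually (x₀ := (0 : ℝ))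
    (P := fun η y => ¬ (Pair r k η y.1 y.2.1 y.2.2.1 y.2.2.2.1 y.2.2.2.2.1 y.2.2.2.2.2 ∧
      (η, y.2.2.1, y.2.2.2.1, y.2.2.2.2.1, y.2.2.2.2.2) ∈ G))
    fun y _ => hC.isOpen_compl.mem_nhds fun h => h0 _ _ _ _ _ _ h.1 h.2
  filter_upwards [h1.filter_mono nhdsWithin_le_nhds] with η hη m n X Y τ Z hp hX hY hg
  exact hη (m, n, X, Y, τ, Z) ⟨⟨hp.m0, Toy_le hp.m1⟩, ⟨hp.n0, Toy_le hp.n1⟩,
    ⟨hp.X0, hX⟩, ⟨hp.Z0.trans hp.ZY, hY⟩, ⟨hp.τ0, hp.τ1⟩, hp.Z0, hp.ZY.trans hY⟩ ⟨hp, hg⟩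

theorem Pair.low (hs : Std r k) (hη : 0 ≤ η) (h : Pair r k η m n X Y τ Z) : 1 - 3 * η ≤ Y := by
  rcases le_or_gt Y 1 with h1 | h1
  · have h2 : ∑ i, n i ^ 2 ≤ ∑ i, r i * n i := Finset.sum_le_sum fun i _ => by
      linarith only [h, hs, h.n0 i, Toy_le h.n1 i, (hs i).1, mul_nonneg_of_nonpos_of_nonpos (Mathlib.Tactic.Linarith.sub_nonpos_of_le (h.n0 i)) (Mathlib.Tactic.Linarith.sub_nonpos_of_le (Toy_le h.n1 i)), mul_nonneg_of_nonpos_of_nonpos (Mathlib.Tactic.Linarith.sub_nonpos_of_le (h.n0 i)) (Mathlib.Tactic.Linarith.sub_nonpos_of_le (hs i).left)]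
    linarith only [h2, h, hη, h1, h.n2, h.hY, mul_nonneg_of_nonpos_of_nonpos (Mathlib.Tactic.Linarith.sub_nonpos_of_le hη) (Mathlib.Tactic.Linarith.sub_nonpos_of_le h1)]
  · linarith

theorem factC (hr : ∀ i, 1 ≤ r i) (h0 : ∀ i, 0 ≤ n i) (h1 : ∑ i, n i ^ 2 = 1) {y : ℝ}
    (hy : ∑ i, r i * n i ≤ y) (hy' : y ≤ 9 / 8) :
    ∃ j, r j ≤ y ∧ ∑ i ∈ univ.erase j, n i ≤ 2 * (y - r j) ∧ 1 - n j ≤ (2 * (y - r j)) ^ 2 := by
  have hne : Nonempty ι := by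
    by_contra h
    rw [not_nonempty_iff] at h
    simp at h1
  obtain ⟨j, hj⟩ := Finite.exists_max n
  have a1 : ∑ i, n i ≤ ∑ i, r i * n i := Finset.sum_le_sum fun i _ => by linarith only [h0, hr, h0 i, hr i, mul_nonneg_of_nonpos_of_nonpos (Mathlib.Tactic.Linarith.sub_nonpos_of_le (h0 i)) (Mathlib.Tactic.Linarith.sub_nonpos_of_le (hr i))]
  have a2 : ∑ i, n i ^ 2 ≤ n j * ∑ i, n i := by
    rw [Finset.mul_sum]
    exact Finset.sum_le_sum fun i _ => by linarith only [h0, hj, h0 i, hj i, mul_nonneg_of_nonpos_of_nonpos (Mathlib.Tactic.Linarith.sub_nonpos_of_le (h0 i)) (Mathlib.Tactic.Linarith.sub_nonpos_of_le (hj i))]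
  have a3 : 8 / 9 ≤ n j := by linarith only [h1, a2, hy, h0, hy', a1, h0 j, mul_nonneg_of_nonpos_of_nonpos (Mathlib.Tactic.Linarith.sub_nonpos_of_le hy) (Mathlib.Tactic.Linarith.sub_nonpos_of_le (h0 j)), mul_nonneg_of_nonpos_of_nonpos (Mathlib.Tactic.Linarith.sub_nonpos_of_le hy') (Mathlib.Tactic.Linarith.sub_nonpos_of_le (h0 j)), mul_nonneg_of_nonpos_of_nonpos (Mathlib.Tactic.Linarith.sub_nonpos_of_le a1) (Mathlib.Tactic.Linarith.sub_nonpos_of_le (h0 j))]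
  have a4 : ∑ i ∈ univ.erase j, n i ≤ ∑ i ∈ univ.erase j, r i * n i :=
    Finset.sum_le_sum fun i _ => by linarith only [h0, hr, h0 i, hr i, mul_nonneg_of_nonpos_of_nonpos (Mathlib.Tactic.Linarith.sub_nonpos_of_le (h0 i)) (Mathlib.Tactic.Linarith.sub_nonpos_of_le (hr i))]
  rw [← Finset.add_sum_erase _ _ (mem_univ j)] at hy
  have a5 := Toy_rest h0 h1 j
  have a6 : 0 ≤ ∑ i ∈ univ.erase j, n i := Finset.sum_nonneg fun i _ => h0 i
  generalize ho : ∑ i ∈ univ.erase j, n i = o at a4 a5 a6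
  have a7 : r j ≤ 81 / 64 := by (refine le_of_not_gt fun h_nl => ?_; linarith only [h_nl, hy', hy, a3, a4, a6, hr j, mul_nonneg_of_nonpos_of_nonpos (Mathlib.Tactic.Linarith.sub_nonpos_of_le a3) (le_of_lt (Mathlib.Tactic.Linarith.sub_neg_of_lt h_nl))])
  have a8 : o ≤ 1 / 4 := by linarith only [hy', hy, a3, a4, hr, hr j, mul_nonneg_of_nonpos_of_nonpos (Mathlib.Tactic.Linarith.sub_nonpos_of_le a3) (Mathlib.Tactic.Linarith.sub_nonpos_of_le (hr j))]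
  have a9 : r j * (1 - n j) ≤ 81 / 64 * o ^ 2 :=
    mul_le_mul a7 a5 (sub_nonneg.2 (Toy_le h1.le j)) (by norm_num)
  have b1 : o ≤ 2 * (y - r j) := by linarith only [hy, a4, a6, a9, a8, mul_nonneg_of_nonpos_of_nonpos (Mathlib.Tactic.Linarith.sub_nonpos_of_le a6) (Mathlib.Tactic.Linarith.sub_nonpos_of_le a8)]
  exact ⟨j, by linarith only [a6, b1], ho ▸ b1, a5.trans (pow_le_pow_left₀ a6 b1 2)⟩

theorem factD {w : ι → ℝ} (hw : ∀ i, 0 ≤ w i) (h0 : ∀ i, 0 ≤ m i) (h1 : ∑ i, m i ^ 2 = 1) {j : ι}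
    {θ : ℝ} (hθ : 1 - m j ≤ θ) (h : ∀ i, θ * w j ^ 2 ≤ w i ^ 2) : w j ≤ ∑ i, w i * m i := by
  have a1 := sub_nonneg.2 (Toy_le h1.le j)
  have a2 : 0 ≤ θ := a1.trans hθ
  have a3 : ∀ i, √θ * w j ≤ w i := fun i =>
    le_of_pow_le_pow_left₀ two_ne_zero (hw i) (by rw [mul_pow, Real.sq_sqrt a2]; exact h i)
  have a4 : √θ * w j * ∑ i ∈ univ.erase j, m i ≤ ∑ i ∈ univ.erase j, w i * m i := by
    rw [Finset.mul_sum]
    exact Finset.sum_le_sum fun i _ => mul_le_mul_of_nonneg_right (a3 i) (h0 i)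
  have a5 := Toy_rest h0 h1 j
  have a6 : 0 ≤ ∑ i ∈ univ.erase j, m i := Finset.sum_nonneg fun i _ => h0 i
  rw [← Finset.add_sum_erase _ _ (mem_univ j)]
  generalize ∑ i ∈ univ.erase j, m i = o at a4 a5 a6
  have a7 : 1 - m j ≤ √θ * o := le_of_pow_le_pow_left₀ two_ne_zero (by positivity) (by
    rw [mul_pow, Real.sq_sqrt a2, sq]
    exact mul_le_mul hθ a5 a1 a2)
  linarith only [a4, a7, hw, mul_le_mul_of_nonneg_left a7 (hw j)]

end CritSys
end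

-- merged part: Pool.Agent.Work.MP_80ee1d_an.U.ToyB
section
/-!
The four exact lemmas of the finite-dimensional model (`η = 0`).  Write `w i = r i - k i > 0`.

PLAN. For `η = 0`: `∑ m² = ∑ n² = 1`, `0 ≤ m i ≤ 1`, `∑ m ≥ 1`, `Y ≥ 1` (`Pair.low`), `X ≥ ∑ w m > 0`,
`τ ≤ ∑ m n`.  `factC` gives a well `j` with `r j ≤ Y`, `n i ≤ 2 (Y - r j) ≤ 2 (Y - 1)` for `i ≠ j`
(`Finset.single_le_sum`), `n j ≤ 1`.
`toy_nonLow`: if `j = i` then `Y = r i`, `n i = 1`, `Z ≤ r i - k i`, against `β Y ≤ m2 Z`.  Otherwise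
`m2 X - β τ Y ≥ ∑ m l (m2 w l - β Y n l) ≥ g ∑ m ≥ g > 0`.
`toy_nonUp`: `j = i` as before.  Otherwise `w l ≥ w j n l` for all `l`, so `X ≥ w j τ`, and
`β X ≤ β X Y ≤ τ m1 r i²`; if `τ > 0` this contradicts `m1 r i² < β w j`, if `τ = 0` it contradicts `X > 0`.
`toy_exLow`: every `m2 w l - β Y n l` is positive, so `m2 X - β τ Y ≥ ∑ m l (...) > 0`.
`toy_exUp`: put `y = β w i / m1`.  `Y ≤ τ y ≤ y ≤ 9 / 8`; `factC` with this `y`; `τ ≥ 1 / y ≥ 2 - y`,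
`τ ≤ m j + ∑_{l ≠ j} n l ≤ m j + 2 (y - 1)`, so `1 - m j ≤ 3 (y - 1)`; `factD` gives `X ≥ w j ≥ w i`.
-/

open Filter Topology Finset

namespace CritSys

variable {ι : Type} [Fintype ι] [DecidableEq ι] {r k m n : ι → ℝ} {m1 m2 β X Y τ Z : ℝ}

/-- No ground state, `β² ≤ m1 m2`. -/
structure NonLow (m1 m2 β : ℝ) (r k : ι → ℝ) (i : ι) (g : ℝ) : Prop where
  hd : β ^ 2 ≤ m1 * m2
  hr : r i ≤ 9 / 8
  hi : m2 * (r i - k i) < β * r i
  g0 : 0 < g
  hj : ∀ j, j ≠ i → r j ≤ r i → g ≤ m2 * (r j - k j) - β * r i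
  hl : ∀ l, g ≤ m2 * (r l - k l) - β * r i * (2 * (r i - 1))
  hg : m1 * m2 * (r i ^ 2 - 1) < g ^ 2

/-- No ground state, `β² > m1 m2`. -/
structure NonUp (m1 m2 β : ℝ) (r k : ι → ℝ) (i : ι) : Prop where
  hd : m1 * m2 * r i ^ 2 < β ^ 2
  hr : r i ≤ 9 / 8
  hi : β * (r i - k i) < m1 * r i
  hj : ∀ j, j ≠ i → r j ≤ r i → m1 * r i ^ 2 < β * (r j - k j)
  hl : ∀ j l, 2 * (r i - 1) * (r j - k j) ≤ r l - k l

/-- A ground state, `β² < m1 m2`. -/
structure ExLow (m1 m2 β : ℝ) (r k : ι → ℝ) (i : ι) (y : ℝ) : Prop where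
  hd : β ^ 2 * y ^ 2 < m1 * m2
  y1 : 1 ≤ y
  hy : y ≤ 9 / 8
  hi : β * r i < m2 * (r i - k i)
  hi' : β * (r i - k i) < m1 * r i
  he : (m2 * (r i - k i) - β * r i) ^ 2 < (m1 * m2 - β ^ 2) * (y ^ 2 - r i ^ 2)
  hj : ∀ j, r j ≤ y → β * y < m2 * (r j - k j)
  hl : ∀ l, β * y * (2 * (y - 1)) < m2 * (r l - k l)

/-- A ground state, `β² > m1 m2`. -/
structure ExUp (m1 m2 β : ℝ) (r k : ι → ℝ) (i : ι) : Prop where
  hi : m1 * r i < β * (r i - k i)
  hi' : m2 * (r i - k i) < β * r i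
  hw : m2 * (r i - k i) ^ 2 < m1
  hy : β * (r i - k i) ≤ 9 / 8 * m1
  hj : ∀ j, m1 * r j ≤ β * (r i - k i) → r i - k i ≤ r j - k j
  hl : ∀ j l, 3 * (β * (r i - k i) / m1 - 1) * (r j - k j) ^ 2 ≤ (r l - k l) ^ 2

omit [DecidableEq ι] in
theorem ToyB_one (hp : Pair r k 0 m n X Y τ Z) : ∑ i, m i ^ 2 = 1 ∧ ∑ i, n i ^ 2 = 1 :=
  ⟨hp.m1.antisymm (by linarith [hp.m2]), hp.n1.antisymm (by linarith [hp.n2])⟩

omit [DecidableEq ι] in
theorem ToyB_le (h : ∑ i, m i ^ 2 ≤ 1) (i : ι) : m i ≤ 1 :=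
  le_trans (le_abs_self _) ((sq_le_one_iff_abs_le_one _).1
    ((single_le_sum (fun l _ => sq_nonneg (m l)) (mem_univ i)).trans h))

theorem ToyB_well (hs : Std r k) (hp : Pair r k 0 m n X Y τ Z) (hY : Y ≤ 9 / 8) :
    ∃ j, r j ≤ Y ∧ 1 ≤ Y ∧ (∀ l, n l ≤ 1) ∧ (∀ l, l ≠ j → n l ≤ 2 * (Y - 1)) ∧
      τ ≤ m j + 2 * (Y - 1) ∧ (Y ≤ r j → Y = r j ∧ Z ≤ r j - k j) := by
  obtain ⟨j, j1, j2, j3⟩ := factC (fun i => (hs i).1) hp.n0 (ToyB_one hp).2
    (by linarith only [hp, hp.hY] : _ ≤ Y) hY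
  have h1 := (hs j).1
  refine ⟨j, j1, h1.trans j1, ToyB_le hp.n1, fun l hl => ?_, ?_, fun e => ⟨e.antisymm j1, ?_⟩⟩
  · linarith only [j2, h1, hp, hl, single_le_sum (fun l _ => hp.n0 l) (mem_erase.2 ⟨hl, mem_univ l⟩)]
  · have h2 := hp.hτ
    have h3 := sum_le_sum (s := univ.erase j) fun l _ =>
      mul_le_of_le_one_left (hp.n0 l) (ToyB_le hp.m1 l)
    rw [← add_sum_erase _ _ (mem_univ j)] at h2
    linarith only [j2, h1, h2, h3, hp, mul_le_of_le_one_right (hp.m0 j) (ToyB_le hp.n1 j)]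
  · rw [e.antisymm j1, sub_self] at j3
    linarith only [e, hp, j3, hs, hp.hZ j, mul_le_mul_of_nonneg_left (by linarith : 1 ≤ n j) (hs j).2.1.le]

omit [DecidableEq ι] in
theorem ToyB_key (hp : Pair r k 0 m n X Y τ Z) {a b g : ℝ} (ha : 0 ≤ a) (hb : 0 ≤ b) (hg : 0 ≤ g)
    (h : ∀ l, g ≤ a * (r l - k l) - b * n l) : g ≤ a * X - b * τ := by
  have h1 : ∑ l, g * m l ^ 2 ≤ ∑ l, (a * ((r l - k l) * m l) - b * (m l * n l)) :=
    sum_le_sum fun l _ => by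
      linarith only [h, hp, hg, mul_le_mul_of_nonneg_right (h l) (hp.m0 l), mul_le_mul_of_nonneg_left
        (pow_le_of_le_one (hp.m0 l) (ToyB_le hp.m1 l) two_ne_zero) hg]
  rw [sum_sub_distrib, ← mul_sum, ← mul_sum, ← mul_sum, (ToyB_one hp).1] at h1
  linarith [mul_le_mul_of_nonneg_left hp.hX ha, mul_le_mul_of_nonneg_left hp.hτ hb]

omit [DecidableEq ι] in
theorem ToyB_pos (hp : Pair r k 0 m n X Y τ Z) (i : ι) {a b : ℝ} (ha : 0 ≤ a) (hb : 0 ≤ b)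
    (h : ∀ l, 0 < a * (r l - k l) - b * n l) : 0 < a * X - b * τ := by
  have : Nonempty ι := ⟨i⟩
  obtain ⟨j, hj⟩ := Finite.exists_min fun l => a * (r l - k l) - b * n l
  exact (h j).trans_le (ToyB_key hp ha hb (h j).le hj)

theorem toy_nonLow (h1 : 0 < m1) (h2 : 0 < m2) (hβ : 0 < β) (hs : Std r k) {i : ι} {g : ℝ}
    (h : NonLow m1 m2 β r k i g) (hp : Pair r k 0 m n X Y τ Z) (e1 : Y ≤ r i)
    (e2 : β * Y ≤ m2 * Z) (e3 : (m2 * X - β * τ * Y) ^ 2 ≤ m1 * m2 * (r i ^ 2 - Y ^ 2)) : False := by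
  obtain ⟨j, j1, j2, j3, j4, -, j5⟩ := ToyB_well hs hp (e1.trans h.hr)
  by_cases hj : j = i
  · subst hj
    obtain ⟨rfl, k1⟩ := j5 e1
    exact absurd (e2.trans (mul_le_mul_of_nonneg_left k1 h2.le)) (not_le.2 h.hi)
  have k1 := ToyB_key hp h2.le (mul_nonneg hβ.le (zero_le_one.trans j2)) h.g0.le fun l => by
    by_cases hl : l = j
    · have := mul_le_mul_of_nonneg_left (mul_le_mul e1 (j3 l) (hp.n0 l) (by linarith)) hβ.le
      have := h.hj j hj (j1.trans e1)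
      subst hl
      linarith
    · have := mul_le_mul_of_nonneg_left (mul_le_mul e1 ((j4 l hl).trans
        (by linarith : _ ≤ 2 * (r i - 1))) (hp.n0 l) (by linarith)) hβ.le
      linarith only [this, h, h.hl l]
  have k2 := pow_le_pow_left₀ h.g0.le k1 2
  have k3 := mul_le_mul_of_nonneg_left (one_le_pow₀ (n := 2) j2) (mul_pos h1 h2).le
  rw [mul_right_comm] at k2
  linarith [h.hg]

theorem toy_nonUp (h1 : 0 < m1) (hβ : 0 < β) (hs : Std r k) {i : ι}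
    (h : NonUp m1 m2 β r k i) (hp : Pair r k 0 m n X Y τ Z) (e1 : Y ≤ r i)
    (e2 : m1 * Y ≤ β * Z) (e3 : β * X * Y ≤ τ * m1 * r i ^ 2) : False := by
  obtain ⟨j, j1, j2, j3, j4, -, j5⟩ := ToyB_well hs hp (e1.trans h.hr)
  by_cases hj : j = i
  · subst hj
    obtain ⟨rfl, k1⟩ := j5 e1
    exact absurd (e2.trans (mul_le_mul_of_nonneg_left k1 hβ.le)) (not_le.2 h.hi)
  have hw := sub_pos.2 (hs j).2.2
  have k1 := ToyB_key hp zero_le_one hw.le le_rfl fun l => by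
    by_cases hl : l = j
    · subst hl
      linarith only [j3, hw, mul_le_mul_of_nonneg_left (j3 l) hw.le]
    · linarith only [h, j4, hl, e1, hw, h.hl j l, mul_le_mul_of_nonneg_left ((j4 l hl).trans
        (by linarith : _ ≤ 2 * (r i - 1))) hw.le]
  have k2 := ToyB_pos hp i zero_le_one le_rfl fun l => by linarith [(hs l).2.2]
  have k3 := mul_le_mul_of_nonneg_left j2 (mul_nonneg hβ.le hp.X0)
  rcases hp.τ0.eq_or_lt with e | e
  · rw [← e, zero_mul, zero_mul] at e3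
    linarith only [e3, k3, hβ, k2, mul_pos hβ (by linarith : 0 < X)]
  · linarith only [e3, k3, h, hj, j1, e1, e, hβ, k1, mul_lt_mul_of_pos_left (h.hj j hj (j1.trans e1)) e, mul_nonneg hβ.le k1]

theorem toy_exLow (h2 : 0 < m2) (hβ : 0 < β) (hs : Std r k) {i : ι} {y : ℝ}
    (h : ExLow m1 m2 β r k i y) (hp : Pair r k 0 m n X Y τ Z) (e1 : Y ≤ y)
    (e2 : m2 * X ≤ β * τ * Y) : False := by
  obtain ⟨j, j1, j2, j3, j4, -⟩ := ToyB_well hs hp (e1.trans h.hy)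
  have k1 := ToyB_pos hp i h2.le (mul_nonneg hβ.le (zero_le_one.trans j2)) fun l => by
    by_cases hl : l = j
    · have := mul_le_mul_of_nonneg_left (mul_le_mul e1 (j3 l) (hp.n0 l) (by linarith)) hβ.le
      have := h.hj j (j1.trans e1)
      subst hl
      linarith
    · have := mul_le_mul_of_nonneg_left (mul_le_mul e1 ((j4 l hl).trans
        (by linarith : _ ≤ 2 * (y - 1))) (hp.n0 l) (by linarith)) hβ.le
      linarith [h.hl l]
  linarith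

theorem toy_exUp (h1 : 0 < m1) (hβ : 0 < β) (hs : Std r k) {i : ι}
    (h : ExUp m1 m2 β r k i) (hp : Pair r k 0 m n X Y τ Z) (e1 : X < r i - k i)
    (e2 : m1 * Y ≤ β * τ * X) : False := by
  obtain ⟨y, hy, hy'⟩ : ∃ y, β * (r i - k i) / m1 = y ∧ β * (r i - k i) = m1 * y :=
    ⟨_, rfl, (mul_div_cancel₀ _ h1.ne').symm⟩
  have y0 : 0 < y := hy ▸ div_pos (mul_pos hβ (sub_pos.2 (hs i).2.2)) h1
  have k1 : Y ≤ τ * y := le_of_mul_le_mul_left (by
    have := mul_le_mul_of_nonneg_left e1.le (mul_nonneg hβ.le hp.τ0)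
    rw [mul_right_comm β τ (r i - k i), hy'] at this
    linarith only [e2, this]) h1
  have k2 : τ * y ≤ y := mul_le_of_le_one_left y0.le hp.τ1
  have k3 : y ≤ 9 / 8 := le_of_mul_le_mul_left (by linarith only [hy', h, h.hy]) h1
  obtain ⟨j, j1, j2, -, -, j3, -⟩ := ToyB_well hs hp (by linarith only [k1, k2, k3])
  have k4 : 2 - y ≤ τ := le_of_mul_le_mul_right (by linarith only [k1, j2, sq_nonneg (y - 1), sq_nonneg (y - (1 : ℝ))]) y0
  have k5 := factD (w := fun l => r l - k l) (fun l => (sub_pos.2 (hs l).2.2).le) hp.m0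
    (ToyB_one hp).1 (j := j) (θ := 3 * (y - 1)) (by linarith only [k1, k2, j3, k4]) fun l => hy ▸ h.hl j l
  have k6 := h.hj j (hy' ▸ mul_le_mul_of_nonneg_left (by linarith only [k1, k2, j1]) h1.le)
  linarith only [e1, k5, k6, hp, hp.hX]

end CritSys
end

-- merged part: Pool.Agent.Work.MP_80ee1d_an.V.Toy
section
/-!
The finite-dimensional model with differences `k i` of either sign.

PLAN. Adapt `U/Toy.lean` and `U/ToyB.lean` (copy the proofs of `Toy_closed`, `pair_small`, `Pair.low`,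
`ToyB_one`, `ToyB_well`, `ToyB_key`, `ToyB_pos`, `toy_nonLow`, `toy_nonUp`, `toy_exLow`, `toy_exUp` under
new names; `factC`, `factD`, `Toy_le`, `Toy_rest`, `ToyB_le` are reused as they are).  Two changes:
`hZ` is now a sum over all wells and `ZY` is replaced by `Y0`.
`pair_smallG`: take `Z` in `[0, 2 B + ∑ |k i|]` (for `η ≤ 1`, `Z ≤ 2 Y + ∑ |k i|` because `0 ≤ n i ≤ 1`).
The analogue of `ToyB_well`: if `Y ≤ r j` then `factC` gives `∑ i ∈ univ.erase j, n i ≤ 0` and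
`1 - n j ≤ 0`, so `n j = 1`, the other `n i` vanish and `∑ k i * n i = k j`.
-/

open Filter Topology Finset

namespace CritSys

variable {ι : Type} [Fintype ι] [DecidableEq ι] {r k m n : ι → ℝ} {m1 m2 β η X Y τ Z : ℝ}

/-- Admissible levels; `k i` may have either sign. -/
def StdG (r k : ι → ℝ) : Prop := ∀ i, 1 ≤ r i ∧ k i < r i

/-- The numbers attached to a pair of normalised functions. -/
structure PairG (r k : ι → ℝ) (η : ℝ) (m n : ι → ℝ) (X Y τ Z : ℝ) : Prop where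
  m0 : ∀ i, 0 ≤ m i
  n0 : ∀ i, 0 ≤ n i
  m1 : ∑ i, m i ^ 2 ≤ 1
  n1 : ∑ i, n i ^ 2 ≤ 1
  m2 : 1 ≤ ∑ i, m i ^ 2 + 2 * η * X
  n2 : 1 ≤ ∑ i, n i ^ 2 + 2 * η * Y
  hX : ∑ i, (r i - k i) * m i ≤ (1 + η) * X
  hY : ∑ i, r i * n i ≤ (1 + η) * Y
  hZ : Z + ∑ i, k i * n i ≤ (1 + η) * Y
  hτ : τ ≤ ∑ i, m i * n i + η * (X + Y)
  τ0 : 0 ≤ τ
  τ1 : τ ≤ 1
  X0 : 0 ≤ X
  Y0 : 0 ≤ Y
  Z0 : 0 ≤ Z

omit [DecidableEq ι] in
theorem ToyG_closed (r k : ι → ℝ) : IsClosed {z : ℝ × (ι → ℝ) × (ι → ℝ) × ℝ × ℝ × ℝ × ℝ |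
    PairG r k z.1 z.2.1 z.2.2.1 z.2.2.2.1 z.2.2.2.2.1 z.2.2.2.2.2.1 z.2.2.2.2.2.2} := by
  refine isClosed_of_closure_subset fun z hz => ?_
  have key : ∀ f g : ℝ × (ι → ℝ) × (ι → ℝ) × ℝ × ℝ × ℝ × ℝ → ℝ, (∀ w,
      PairG r k w.1 w.2.1 w.2.2.1 w.2.2.2.1 w.2.2.2.2.1 w.2.2.2.2.2.1 w.2.2.2.2.2.2 → f w ≤ g w) →
      Continuous f → Continuous g → f z ≤ g z := fun f g h hf hg =>
    closure_minimal h (isClosed_le hf hg) hz
  refine ⟨fun i => key _ _ (fun w h => h.m0 i) ?_ ?_, fun i => key _ _ (fun w h => h.n0 i) ?_ ?_,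
    key _ _ (fun w h => h.m1) ?_ ?_, key _ _ (fun w h => h.n1) ?_ ?_,
    key _ _ (fun w h => h.m2) ?_ ?_, key _ _ (fun w h => h.n2) ?_ ?_,
    key _ _ (fun w h => h.hX) ?_ ?_, key _ _ (fun w h => h.hY) ?_ ?_,
    key _ _ (fun w h => h.hZ) ?_ ?_, key _ _ (fun w h => h.hτ) ?_ ?_,
    key _ _ (fun w h => h.τ0) ?_ ?_, key _ _ (fun w h => h.τ1) ?_ ?_,
    key _ _ (fun w h => h.X0) ?_ ?_, key _ _ (fun w h => h.Y0) ?_ ?_,
    key _ _ (fun w h => h.Z0) ?_ ?_⟩ <;> fun_prop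

theorem pair_smallG (r k : ι → ℝ) (B : ℝ) {G : Set (ℝ × ℝ × ℝ × ℝ × ℝ)} (hG : IsClosed G)
    (h0 : ∀ m n X Y τ Z, PairG r k 0 m n X Y τ Z → (0, X, Y, τ, Z) ∉ G) :
    ∀ᶠ η in 𝓝[>] (0 : ℝ), ∀ m n X Y τ Z, PairG r k η m n X Y τ Z → X ≤ B → Y ≤ B →
      (η, X, Y, τ, Z) ∉ G := by
  have hK : IsCompact (Set.Icc (0 : ι → ℝ) 1 ×ˢ Set.Icc (0 : ι → ℝ) 1 ×ˢ Set.Icc (0 : ℝ) B ×ˢ
      Set.Icc (0 : ℝ) B ×ˢ Set.Icc (0 : ℝ) 1 ×ˢ Set.Icc (0 : ℝ) (2 * B + ∑ i, |k i|)) :=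
    isCompact_Icc.prod (isCompact_Icc.prod (isCompact_Icc.prod (isCompact_Icc.prod
      (isCompact_Icc.prod isCompact_Icc))))
  have hC := (ToyG_closed r k).inter (hG.preimage (f := fun z : ℝ × (ι → ℝ) × (ι → ℝ) × ℝ × ℝ × ℝ × ℝ =>
    (z.1, z.2.2.2.1, z.2.2.2.2.1, z.2.2.2.2.2.1, z.2.2.2.2.2.2)) (by fun_prop))
  have h1 := hK.eventually_forall_of_forall_eventually (x₀ := (0 : ℝ))
    (P := fun η y => ¬ (PairG r k η y.1 y.2.1 y.2.2.1 y.2.2.2.1 y.2.2.2.2.1 y.2.2.2.2.2 ∧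
      (η, y.2.2.1, y.2.2.2.1, y.2.2.2.2.1, y.2.2.2.2.2) ∈ G))
    fun y _ => hC.isOpen_compl.mem_nhds fun h => h0 _ _ _ _ _ _ h.1 h.2
  filter_upwards [h1.filter_mono nhdsWithin_le_nhds,
    (eventually_le_nhds zero_lt_one).filter_mono nhdsWithin_le_nhds] with η hη h1 m n X Y τ Z hp hX hY hg
  have h2 : ∑ i, -(k i * n i) ≤ ∑ i, |k i| := sum_le_sum fun i _ => by
    linarith only [hp, neg_abs_le (k i), abs_nonneg (k i), hp.n0 i, Toy_le hp.n1 i, mul_nonneg_of_nonpos_of_nonpos (Mathlib.Tactic.Linarith.sub_nonpos_of_le (neg_abs_le (k i))) (Mathlib.Tactic.Linarith.sub_nonpos_of_le (hp.n0 i)), mul_nonneg_of_nonpos_of_nonpos (Mathlib.Tactic.Linarith.sub_nonpos_of_le (abs_nonneg (k i))) (Mathlib.Tactic.Linarith.sub_nonpos_of_le (Toy_le hp.n1 i))]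
  rw [sum_neg_distrib] at h2
  exact hη (m, n, X, Y, τ, Z) ⟨⟨hp.m0, Toy_le hp.m1⟩, ⟨hp.n0, Toy_le hp.n1⟩, ⟨hp.X0, hX⟩,
    ⟨hp.Y0, hY⟩, ⟨hp.τ0, hp.τ1⟩, hp.Z0, by linarith only [hY, h2, hp, h1, hp.hZ, hp.Y0, mul_nonneg_of_nonpos_of_nonpos (Mathlib.Tactic.Linarith.sub_nonpos_of_le h1) (Mathlib.Tactic.Linarith.sub_nonpos_of_le hp.Y0)]⟩ ⟨hp, hg⟩

theorem PairG.low (hs : StdG r k) (hη : 0 ≤ η) (h : PairG r k η m n X Y τ Z) : 1 - 3 * η ≤ Y := by
  rcases le_or_gt Y 1 with h1 | h1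
  · have h2 : ∑ i, n i ^ 2 ≤ ∑ i, r i * n i := Finset.sum_le_sum fun i _ => by
      linarith only [h, hs, h.n0 i, Toy_le h.n1 i, (hs i).1, mul_nonneg_of_nonpos_of_nonpos (Mathlib.Tactic.Linarith.sub_nonpos_of_le (h.n0 i)) (Mathlib.Tactic.Linarith.sub_nonpos_of_le (Toy_le h.n1 i)), mul_nonneg_of_nonpos_of_nonpos (Mathlib.Tactic.Linarith.sub_nonpos_of_le (h.n0 i)) (Mathlib.Tactic.Linarith.sub_nonpos_of_le (hs i).left)]
    linarith only [h2, h, hη, h1, h.n2, h.hY, mul_nonneg_of_nonpos_of_nonpos (Mathlib.Tactic.Linarith.sub_nonpos_of_le hη) (Mathlib.Tactic.Linarith.sub_nonpos_of_le h1)]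
  · linarith

omit [DecidableEq ι] in
theorem ToyG_one (hp : PairG r k 0 m n X Y τ Z) : ∑ i, m i ^ 2 = 1 ∧ ∑ i, n i ^ 2 = 1 :=
  ⟨hp.m1.antisymm (by linarith [hp.m2]), hp.n1.antisymm (by linarith [hp.n2])⟩

theorem ToyG_well (hs : StdG r k) (hp : PairG r k 0 m n X Y τ Z) (hY : Y ≤ 9 / 8) :
    ∃ j, r j ≤ Y ∧ 1 ≤ Y ∧ (∀ l, n l ≤ 1) ∧ (∀ l, l ≠ j → n l ≤ 2 * (Y - 1)) ∧
      τ ≤ m j + 2 * (Y - 1) ∧ (Y ≤ r j → Y = r j ∧ Z ≤ r j - k j) := by
  obtain ⟨j, j1, j2, j3⟩ := factC (fun i => (hs i).1) hp.n0 (ToyG_one hp).2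
    (by linarith only [hp, hp.hY] : _ ≤ Y) hY
  have h1 := (hs j).1
  refine ⟨j, j1, h1.trans j1, ToyB_le hp.n1, fun l hl => ?_, ?_, fun e => ⟨e.antisymm j1, ?_⟩⟩
  · linarith only [j2, h1, hp, hl, single_le_sum (fun l _ => hp.n0 l) (mem_erase.2 ⟨hl, mem_univ l⟩)]
  · have h2 := hp.hτ
    have h3 := sum_le_sum (s := univ.erase j) fun l _ =>
      mul_le_of_le_one_left (hp.n0 l) (ToyB_le hp.m1 l)
    rw [← add_sum_erase _ _ (mem_univ j)] at h2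
    linarith only [j2, h1, h2, h3, hp, mul_le_of_le_one_right (hp.m0 j) (ToyB_le hp.n1 j)]
  · rw [e.antisymm j1, sub_self] at j2 j3
    have h2 := hp.hZ
    have h3 : n j = 1 := (ToyB_le hp.n1 j).antisymm (by linarith)
    rw [← add_sum_erase _ _ (mem_univ j), sum_eq_zero fun l hl => by
      rw [le_antisymm ((single_le_sum (fun l _ => hp.n0 l) hl).trans (j2.trans_eq (mul_zero _)))
        (hp.n0 l), mul_zero], h3] at h2
    linarith

omit [DecidableEq ι] in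
theorem ToyG_key (hp : PairG r k 0 m n X Y τ Z) {a b g : ℝ} (ha : 0 ≤ a) (hb : 0 ≤ b) (hg : 0 ≤ g)
    (h : ∀ l, g ≤ a * (r l - k l) - b * n l) : g ≤ a * X - b * τ := by
  have h1 : ∑ l, g * m l ^ 2 ≤ ∑ l, (a * ((r l - k l) * m l) - b * (m l * n l)) :=
    sum_le_sum fun l _ => by
      linarith only [h, hp, hg, mul_le_mul_of_nonneg_right (h l) (hp.m0 l), mul_le_mul_of_nonneg_left
        (pow_le_of_le_one (hp.m0 l) (ToyB_le hp.m1 l) two_ne_zero) hg]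
  rw [sum_sub_distrib, ← mul_sum, ← mul_sum, ← mul_sum, (ToyG_one hp).1] at h1
  linarith only [h1, hp, ha, hb, mul_le_mul_of_nonneg_left hp.hX ha, mul_le_mul_of_nonneg_left hp.hτ hb]

omit [DecidableEq ι] in
theorem ToyG_pos (hp : PairG r k 0 m n X Y τ Z) (i : ι) {a b : ℝ} (ha : 0 ≤ a) (hb : 0 ≤ b)
    (h : ∀ l, 0 < a * (r l - k l) - b * n l) : 0 < a * X - b * τ := by
  have : Nonempty ι := ⟨i⟩
  obtain ⟨j, hj⟩ := Finite.exists_min fun l => a * (r l - k l) - b * n l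
  exact (h j).trans_le (ToyG_key hp ha hb (h j).le hj)

theorem toy_nonLowG (h1 : 0 < m1) (h2 : 0 < m2) (hβ : 0 < β) (hs : StdG r k) {i : ι} {g : ℝ}
    (h : NonLow m1 m2 β r k i g) (hp : PairG r k 0 m n X Y τ Z) (e1 : Y ≤ r i)
    (e2 : β * Y ≤ m2 * Z) (e3 : (m2 * X - β * τ * Y) ^ 2 ≤ m1 * m2 * (r i ^ 2 - Y ^ 2)) : False := by
  obtain ⟨j, j1, j2, j3, j4, -, j5⟩ := ToyG_well hs hp (e1.trans h.hr)
  by_cases hj : j = i
  · subst hj
    obtain ⟨rfl, k1⟩ := j5 e1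
    exact absurd (e2.trans (mul_le_mul_of_nonneg_left k1 h2.le)) (not_le.2 h.hi)
  have k1 := ToyG_key hp h2.le (mul_nonneg hβ.le (zero_le_one.trans j2)) h.g0.le fun l => by
    by_cases hl : l = j
    · have := mul_le_mul_of_nonneg_left (mul_le_mul e1 (j3 l) (hp.n0 l) (by linarith only [e1, j2])) hβ.le
      have := h.hj j hj (j1.trans e1)
      subst hl
      linarith
    · have := mul_le_mul_of_nonneg_left (mul_le_mul e1 ((j4 l hl).trans
        (by linarith only [e1] : _ ≤ 2 * (r i - 1))) (hp.n0 l) (by linarith)) hβ.le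
      linarith [h.hl l]
  have k2 := pow_le_pow_left₀ h.g0.le k1 2
  have k3 := mul_le_mul_of_nonneg_left (one_le_pow₀ (n := 2) j2) (mul_pos h1 h2).le
  rw [mul_right_comm] at k2
  linarith only [e3, k2, k3, h, h.hg]

theorem toy_nonUpG (h1 : 0 < m1) (hβ : 0 < β) (hs : StdG r k) {i : ι}
    (h : NonUp m1 m2 β r k i) (hp : PairG r k 0 m n X Y τ Z) (e1 : Y ≤ r i)
    (e2 : m1 * Y ≤ β * Z) (e3 : β * X * Y ≤ τ * m1 * r i ^ 2) : False := by
  obtain ⟨j, j1, j2, j3, j4, -, j5⟩ := ToyG_well hs hp (e1.trans h.hr)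
  by_cases hj : j = i
  · subst hj
    obtain ⟨rfl, k1⟩ := j5 e1
    exact absurd (e2.trans (mul_le_mul_of_nonneg_left k1 hβ.le)) (not_le.2 h.hi)
  have hw := sub_pos.2 (hs j).2
  have k1 := ToyG_key hp zero_le_one hw.le le_rfl fun l => by
    by_cases hl : l = j
    · subst hl
      linarith only [j3, hw, mul_le_mul_of_nonneg_left (j3 l) hw.le]
    · linarith only [h, j4, hl, e1, hw, h.hl j l, mul_le_mul_of_nonneg_left ((j4 l hl).trans
        (by linarith : _ ≤ 2 * (r i - 1))) hw.le]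
  have k2 := ToyG_pos hp i zero_le_one le_rfl fun l => by linarith [(hs l).2]
  have k3 := mul_le_mul_of_nonneg_left j2 (mul_nonneg hβ.le hp.X0)
  rcases hp.τ0.eq_or_lt with e | e
  · rw [← e, zero_mul, zero_mul] at e3
    linarith only [e3, k3, hβ, k2, mul_pos hβ (by linarith : 0 < X)]
  · linarith only [e3, k3, h, hj, j1, e1, e, hβ, k1, mul_lt_mul_of_pos_left (h.hj j hj (j1.trans e1)) e, mul_nonneg hβ.le k1]

theorem toy_exLowG (h2 : 0 < m2) (hβ : 0 < β) (hs : StdG r k) {i : ι} {y : ℝ}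
    (h : ExLow m1 m2 β r k i y) (hp : PairG r k 0 m n X Y τ Z) (e1 : Y ≤ y)
    (e2 : m2 * X ≤ β * τ * Y) : False := by
  obtain ⟨j, j1, j2, j3, j4, -⟩ := ToyG_well hs hp (e1.trans h.hy)
  have k1 := ToyG_pos hp i h2.le (mul_nonneg hβ.le (zero_le_one.trans j2)) fun l => by
    by_cases hl : l = j
    · have := mul_le_mul_of_nonneg_left (mul_le_mul e1 (j3 l) (hp.n0 l) (by linarith)) hβ.le
      have := h.hj j (j1.trans e1)
      subst hl
      linarith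
    · have := mul_le_mul_of_nonneg_left (mul_le_mul e1 ((j4 l hl).trans
        (by linarith : _ ≤ 2 * (y - 1))) (hp.n0 l) (by linarith)) hβ.le
      linarith [h.hl l]
  linarith

theorem toy_exUpG (h1 : 0 < m1) (hβ : 0 < β) (hs : StdG r k) {i : ι}
    (h : ExUp m1 m2 β r k i) (hp : PairG r k 0 m n X Y τ Z) (e1 : X < r i - k i)
    (e2 : m1 * Y ≤ β * τ * X) : False := by
  obtain ⟨y, hy, hy'⟩ : ∃ y, β * (r i - k i) / m1 = y ∧ β * (r i - k i) = m1 * y :=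
    ⟨_, rfl, (mul_div_cancel₀ _ h1.ne').symm⟩
  have y0 : 0 < y := hy ▸ div_pos (mul_pos hβ (sub_pos.2 (hs i).2)) h1
  have k1 : Y ≤ τ * y := le_of_mul_le_mul_left (by
    have := mul_le_mul_of_nonneg_left e1.le (mul_nonneg hβ.le hp.τ0)
    rw [mul_right_comm β τ (r i - k i), hy'] at this
    linarith only [e2, this]) h1
  have k2 : τ * y ≤ y := mul_le_of_le_one_left y0.le hp.τ1
  have k3 : y ≤ 9 / 8 := le_of_mul_le_mul_left (by linarith only [hy', h, h.hy]) h1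
  obtain ⟨j, j1, j2, -, -, j3, -⟩ := ToyG_well hs hp (by linarith only [k1, k2, k3])
  have k4 : 2 - y ≤ τ := le_of_mul_le_mul_right (by linarith only [k1, j2, sq_nonneg (y - 1), sq_nonneg (y - (1 : ℝ))]) y0
  have k5 := factD (w := fun l => r l - k l) (fun l => (sub_pos.2 (hs l).2).le) hp.m0
    (ToyG_one hp).1 (j := j) (θ := 3 * (y - 1)) (by linarith only [k1, k2, j3, k4]) fun l => hy ▸ h.hl j l
  have k6 := h.hj j (hy' ▸ mul_le_mul_of_nonneg_left (by linarith only [k1, k2, j1]) h1.le)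
  linarith only [e1, k5, k6, hp, hp.hX]

end CritSys
end

-- merged part: Pool.Agent.Work.MP_80ee1d_an.U.Param
section
/-!
The choice of the levels.

PLAN. Let `κ β = min (β / m2) (m1 / β) > 0`; `κ β = β / m2` if `β² ≤ m1 m2`, `κ β = m1 / β` if
`m1 m2 ≤ β²`; `κ a < 1` for `a ∈ A`, `κ a ≠ κ b` for `a ∈ A`, `b ∈ B`.  Pick `κ₀ ∈ (0, 1)` below all
`κ b`, `T = insert κ₀ (A.image κ) ⊆ (0, 1)`.  For `ε > 0` put `r x = 1 + ε (1 - x)`,
`k x = r x - (1 + ε²) x r x`, so `r x - k x = (1 + ε²) x r x`.  Show that each condition holds for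
`∀ᶠ ε in 𝓝[>] 0` (`eventually_all`, `Finset.eventually_all`, `Tendsto.eventually_lt` /
`ContinuousAt.eventually_lt` for strict inequalities at `ε = 0`), then take one `ε`.
It is best to prove four lemmas for an arbitrary `x : ι → ℝ`, injective with values in `(0, 1)`:
* `ExLow` when `x i = β / m2`, `β² < m1 m2`, with `y = r i (1 + ε² / 2)`: `he` follows from
  `ε² β² < m1 m2 - β²`; `hj`: if `x j < x i` then `y < r j` for small `ε` (divide by `ε`), if `j = i` direct,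
  if `x i < x j` by the limit.
* `ExUp` when `x i = m1 / β`, `m1 m2 < β²`: the same trichotomy.
* `NonLow` when `β² ≤ m1 m2`, `x i < β / m2` and `∀ j, x i < x j → β / m2 < x j`; `g` is a positive number
  below all `m2 x l` and all `m2 x j - β` with `x i < x j`; `j ≠ i`, `r j ≤ r i` force `x i < x j`.
* `NonUp` when `m1 m2 < β²`, `x i < m1 / β` and `∀ j, x i < x j → m1 / β < x j`.
For `b ∈ B`, `i` is the largest element of `T` below `κ b` (`Finset.exists_max_image`).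
-/

open Filter Topology Finset

namespace CritSys

/-- The level for the second form. -/
def Param_R (ε x : ℝ) : ℝ := 1 + ε * (1 - x)

/-- The level for the first form. -/
def Param_W (ε x : ℝ) : ℝ := (1 + ε ^ 2) * x * Param_R ε x

/-- The difference of the levels. -/
def Param_K (ε x : ℝ) : ℝ := Param_R ε x - Param_W ε x

theorem Param_sub (ε x : ℝ) : Param_R ε x - Param_K ε x = Param_W ε x := by
  simp [Param_K]

theorem Param_R0 (x : ℝ) : Param_R 0 x = 1 := by simp [Param_R]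

theorem Param_W0 (x : ℝ) : Param_W 0 x = x := by simp [Param_W, Param_R]

@[fun_prop]
theorem Param_cR (x : ℝ) : Continuous fun ε => Param_R ε x := by
  unfold Param_R
  fun_prop

@[fun_prop]
theorem Param_cW (x : ℝ) : Continuous fun ε => Param_W ε x := by
  unfold Param_W
  fun_prop

theorem Param_one_le {ε x : ℝ} (hε : 0 < ε) (hx : x < 1) : 1 ≤ Param_R ε x := by
  have := mul_pos hε (sub_pos.2 hx)
  unfold Param_R
  linarith

theorem Param_ev {f g : ℝ → ℝ} (hf : Continuous f) (hg : Continuous g) (h : f 0 < g 0) :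
    ∀ᶠ ε in 𝓝[>] (0 : ℝ), f ε < g ε :=
  (hf.continuousAt.eventually_lt hg.continuousAt h).filter_mono nhdsWithin_le_nhds

theorem Param_pos : ∀ᶠ ε in 𝓝[>] (0 : ℝ), 0 < ε := self_mem_nhdsWithin

section

variable {ι : Type} [Fintype ι] {x : ι → ℝ} {m1 m2 β : ℝ}

theorem Param_std (h0 : ∀ i, 0 < x i) (h1 : ∀ i, x i < 1) :
    ∀ᶠ ε in 𝓝[>] (0 : ℝ), Std (fun i => Param_R ε (x i)) fun i => Param_K ε (x i) := by
  refine eventually_all.2 fun i => ?_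
  have e : ∀ᶠ ε in 𝓝[>] (0 : ℝ), Param_W ε (x i) < Param_R ε (x i) :=
    Param_ev (by fun_prop) (by fun_prop) (by rw [Param_R0, Param_W0]; exact h1 i)
  have e' : ∀ᶠ ε in 𝓝[>] (0 : ℝ), 0 < Param_W ε (x i) :=
    Param_ev (by fun_prop) (by fun_prop) (by rw [Param_W0]; exact h0 i)
  filter_upwards [e, e', Param_pos] with ε he he' hε
  refine ⟨Param_one_le hε (h1 i), ?_, ?_⟩ <;> simp only [Param_K] <;> linarith only [he, he']

theorem Param_exLow (h2 : 0 < m2) (hβ : 0 < β) (h0 : ∀ i, 0 < x i) (h1 : ∀ i, x i < 1) {i : ι}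
    (hi : m2 * x i = β) (hd : β ^ 2 < m1 * m2) :
    ∀ᶠ ε in 𝓝[>] (0 : ℝ), ExLow m1 m2 β (fun i => Param_R ε (x i)) (fun i => Param_K ε (x i)) i
      (Param_R ε (x i) * (1 + ε ^ 2 / 2)) := by
  have key : ∀ ε : ℝ, m2 * Param_W ε (x i) = (1 + ε ^ 2) * β * Param_R ε (x i) := fun ε => by
    rw [Param_W, ← hi]
    ring
  have e1 : ∀ᶠ ε in 𝓝[>] (0 : ℝ), β ^ 2 * (Param_R ε (x i) * (1 + ε ^ 2 / 2)) ^ 2 < m1 * m2 :=
    Param_ev (by fun_prop) (by fun_prop) (by simpa [Param_R0] using hd)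
  have e2 : ∀ᶠ ε in 𝓝[>] (0 : ℝ), Param_R ε (x i) * (1 + ε ^ 2 / 2) < 9 / 8 :=
    Param_ev (by fun_prop) (by fun_prop) (by norm_num [Param_R0])
  have e3 : ∀ᶠ ε in 𝓝[>] (0 : ℝ), β * Param_W ε (x i) < m1 * Param_R ε (x i) := by
    refine Param_ev (by fun_prop) (by fun_prop) ?_
    rw [Param_R0, Param_W0, mul_one]
    refine lt_of_mul_lt_mul_right ?_ h2.le
    linarith only [hd, hβ, hi, Mathlib.Tactic.Linarith.mul_zero_eq (Mathlib.Tactic.Linarith.sub_neg_of_lt hβ) (sub_eq_zero_of_eq hi)]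
  have e4 : ∀ᶠ ε in 𝓝[>] (0 : ℝ), ε ^ 2 * β ^ 2 < m1 * m2 - β ^ 2 :=
    Param_ev (by fun_prop) (by fun_prop) (by simpa using hd)
  have e5 : ∀ᶠ ε in 𝓝[>] (0 : ℝ), ∀ j, Param_R ε (x j) ≤ Param_R ε (x i) * (1 + ε ^ 2 / 2) →
      β * (Param_R ε (x i) * (1 + ε ^ 2 / 2)) < m2 * Param_W ε (x j) := by
    refine eventually_all.2 fun j => ?_
    rcases lt_trichotomy (x j) (x i) with h | h | h
    · have e : ∀ᶠ ε in 𝓝[>] (0 : ℝ), Param_R ε (x i) * ε / 2 < x i - x j :=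
        Param_ev (by fun_prop) (by fun_prop) (by simpa using h)
      filter_upwards [e, Param_pos] with ε he hε hle
      exfalso
      have h3 := mul_lt_mul_of_pos_left he hε
      have h4 : Param_R ε (x j) = Param_R ε (x i) + ε * (x i - x j) := by
        unfold Param_R
        ring
      linarith only [hle, h3, h4]
    · filter_upwards [Param_pos] with ε hε _
      rw [h, key]
      have h3 := Param_one_le hε (h1 i)
      have h4 : 0 < β * Param_R ε (x i) * ε ^ 2 := by positivity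
      linarith only [h4]
    · have e : ∀ᶠ ε in 𝓝[>] (0 : ℝ),
          β * (Param_R ε (x i) * (1 + ε ^ 2 / 2)) < m2 * Param_W ε (x j) := by
        refine Param_ev (by fun_prop) (by fun_prop) ?_
        have := mul_lt_mul_of_pos_left h h2
        simp only [Param_R0, Param_W0]
        linarith only [hi, this]
      exact e.mono fun ε he _ => he
  have e6 : ∀ᶠ ε in 𝓝[>] (0 : ℝ), ∀ l, β * (Param_R ε (x i) * (1 + ε ^ 2 / 2)) *
      (2 * (Param_R ε (x i) * (1 + ε ^ 2 / 2) - 1)) < m2 * Param_W ε (x l) :=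
    eventually_all.2 fun l => Param_ev (by fun_prop) (by fun_prop)
      (by simpa [Param_R0, Param_W0] using mul_pos h2 (h0 l))
  filter_upwards [e1, e2, e3, e4, e5, e6, Param_pos] with ε f1 f2 f3 f4 f5 f6 hε
  have h3 := Param_one_le hε (h1 i)
  have h4 : 0 < ε ^ 2 := by positivity
  refine ⟨f1, by linarith only [h3, h4, mul_nonneg_of_nonpos_of_nonpos (Mathlib.Tactic.Linarith.sub_nonpos_of_le (sq_nonneg ε)) (Mathlib.Tactic.Linarith.sub_nonpos_of_le h3)], f2.le, ?_, ?_, ?_, ?_, ?_⟩ <;> simp only [Param_sub]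
  · rw [key]
    have h5 : 0 < β * Param_R ε (x i) * ε ^ 2 := by positivity
    linarith only [h5]
  · exact f3
  · rw [key]
    have h5 : 0 < ε ^ 2 * Param_R ε (x i) ^ 2 := by positivity
    have h6 := mul_lt_mul_of_pos_left f4 h5
    have h7 : 0 ≤ (m1 * m2 - β ^ 2) * (Param_R ε (x i) ^ 2 * (ε ^ 2) ^ 2 / 4) :=
      mul_nonneg (by linarith only [hd]) (by positivity)
    linarith only [h6, h7]
  · exact f5
  · exact f6

theorem Param_exUp (hm : 0 < m1) (hβ : 0 < β) (h0 : ∀ i, 0 < x i) (h1 : ∀ i, x i < 1) {i : ι}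
    (hi : β * x i = m1) (hd : m1 * m2 < β ^ 2) :
    ∀ᶠ ε in 𝓝[>] (0 : ℝ),
      ExUp m1 m2 β (fun i => Param_R ε (x i)) (fun i => Param_K ε (x i)) i := by
  have key : ∀ ε : ℝ, β * Param_W ε (x i) = (1 + ε ^ 2) * m1 * Param_R ε (x i) := fun ε => by
    rw [Param_W, ← hi]
    ring
  have hx : m2 * x i < β := by
    refine lt_of_mul_lt_mul_right ?_ hβ.le
    (refine lt_of_not_ge fun h_nl => ?_; linarith only [h_nl, hi, hm, hd, Mathlib.Tactic.Linarith.mul_zero_eq (Mathlib.Tactic.Linarith.sub_nonpos_of_le (mul_self_nonneg β)) (sub_eq_zero_of_eq hi), mul_pos_of_neg_of_neg (Mathlib.Tactic.Linarith.sub_neg_of_lt hm) (Mathlib.Tactic.Linarith.sub_neg_of_lt hd), mul_nonneg_of_nonpos_of_nonpos (le_of_lt (Mathlib.Tactic.Linarith.sub_neg_of_lt hm)) (Mathlib.Tactic.Linarith.sub_nonpos_of_le h_nl), Mathlib.Tactic.Linarith.zero_mul_eq (sub_eq_zero_of_eq hi) (Mathlib.Tactic.Linarith.sub_neg_of_lt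 hd)])
  have e1 : ∀ᶠ ε in 𝓝[>] (0 : ℝ), m2 * Param_W ε (x i) < β * Param_R ε (x i) :=
    Param_ev (by fun_prop) (by fun_prop) (by simpa [Param_R0, Param_W0] using hx)
  have e2 : ∀ᶠ ε in 𝓝[>] (0 : ℝ), m2 * Param_W ε (x i) ^ 2 < m1 := by
    refine Param_ev (by fun_prop) (by fun_prop) ?_
    have := mul_lt_mul_of_pos_right hx (h0 i)
    rw [Param_W0]
    linarith only [hi, this]
  have e3 : ∀ᶠ ε in 𝓝[>] (0 : ℝ), β * Param_W ε (x i) < 9 / 8 * m1 := by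
    refine Param_ev (by fun_prop) (by fun_prop) ?_
    rw [Param_W0]
    linarith only [hm, hi]
  have e4 : ∀ᶠ ε in 𝓝[>] (0 : ℝ), ∀ j, m1 * Param_R ε (x j) ≤ β * Param_W ε (x i) →
      Param_W ε (x i) ≤ Param_W ε (x j) := by
    refine eventually_all.2 fun j => ?_
    rcases lt_trichotomy (x j) (x i) with h | h | h
    · have e : ∀ᶠ ε in 𝓝[>] (0 : ℝ), ε * Param_R ε (x i) < x i - x j :=
        Param_ev (by fun_prop) (by fun_prop) (by simpa using h)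
      filter_upwards [e, Param_pos] with ε he hε hle
      exfalso
      have h3 := mul_lt_mul_of_pos_left (mul_lt_mul_of_pos_left he hε) hm
      have h4 : Param_R ε (x j) = Param_R ε (x i) + ε * (x i - x j) := by
        unfold Param_R
        ring
      rw [key, h4] at hle
      linarith only [hle, h3]
    · exact Eventually.of_forall fun ε _ => by rw [h]
    · have e : ∀ᶠ ε in 𝓝[>] (0 : ℝ), Param_W ε (x i) < Param_W ε (x j) :=
        Param_ev (by fun_prop) (by fun_prop) (by simpa [Param_W0] using h)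
      exact e.mono fun ε he _ => he.le
  have e5 : ∀ᶠ ε in 𝓝[>] (0 : ℝ), ∀ j l,
      3 * (β * Param_W ε (x i) / m1 - 1) * Param_W ε (x j) ^ 2 < Param_W ε (x l) ^ 2 := by
    refine eventually_all.2 fun j => eventually_all.2 fun l =>
      Param_ev (by fun_prop) (by fun_prop) ?_
    rw [Param_W0, Param_W0, Param_W0, hi, div_self hm.ne', sub_self, mul_zero, zero_mul]
    exact pow_pos (h0 l) 2
  filter_upwards [e1, e2, e3, e4, e5, Param_pos] with ε f1 f2 f3 f4 f5 hε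
  have h3 := Param_one_le hε (h1 i)
  refine ⟨?_, ?_, ?_, ?_, ?_, ?_⟩ <;> simp only [Param_sub]
  · rw [key]
    have h5 : 0 < m1 * Param_R ε (x i) * ε ^ 2 := by positivity
    linarith only [h5]
  · exact f1
  · exact f2
  · exact f3.le
  · exact f4
  · exact fun j l => (f5 j l).le

omit [Fintype ι] in
theorem Param_lt (hx : Function.Injective x) {ε : ℝ} (hε : 0 < ε) {i j : ι} (hj : j ≠ i)
    (h : Param_R ε (x j) ≤ Param_R ε (x i)) : x i < x j := by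
  refine lt_of_le_of_ne ?_ fun e => hj (hx e).symm
  unfold Param_R at h
  refine le_of_mul_le_mul_left ?_ hε
  linarith

theorem Param_nonLow (h2 : 0 < m2) (hx : Function.Injective x) (h0 : ∀ i, 0 < x i) {i : ι}
    (hd : β ^ 2 ≤ m1 * m2) (hi : m2 * x i < β) (hj : ∀ j, x i < x j → β < m2 * x j) :
    ∀ᶠ ε in 𝓝[>] (0 : ℝ), ∃ g,
      NonLow m1 m2 β (fun i => Param_R ε (x i)) (fun i => Param_K ε (x i)) i g := by
  obtain ⟨g, g1, g2, g0⟩ : ∃ g : ℝ, (∀ l, g < m2 * x l) ∧ (∀ j, x i < x j → g < m2 * x j - β) ∧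
      0 < g := by
    have a1 : ∀ᶠ g in 𝓝[>] (0 : ℝ), ∀ l, g < m2 * x l :=
      eventually_all.2 fun l => Param_ev (by fun_prop) (by fun_prop) (mul_pos h2 (h0 l))
    have a2 : ∀ᶠ g in 𝓝[>] (0 : ℝ), ∀ j, x i < x j → g < m2 * x j - β := by
      refine eventually_all.2 fun j => eventually_imp_distrib_left.2 fun h => ?_
      exact Param_ev (by fun_prop) (by fun_prop) (sub_pos.2 (hj j h))
    exact (a1.and (a2.and Param_pos)).exists
  have e1 : ∀ᶠ ε in 𝓝[>] (0 : ℝ), Param_R ε (x i) < 9 / 8 :=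
    Param_ev (by fun_prop) (by fun_prop) (by norm_num [Param_R0])
  have e2 : ∀ᶠ ε in 𝓝[>] (0 : ℝ), m2 * Param_W ε (x i) < β * Param_R ε (x i) :=
    Param_ev (by fun_prop) (by fun_prop) (by simpa [Param_R0, Param_W0] using hi)
  have e3 : ∀ᶠ ε in 𝓝[>] (0 : ℝ), ∀ j, x i < x j →
      g < m2 * Param_W ε (x j) - β * Param_R ε (x i) := by
    refine eventually_all.2 fun j => eventually_imp_distrib_left.2 fun h => ?_
    exact Param_ev (by fun_prop) (by fun_prop) (by simpa [Param_R0, Param_W0] using g2 j h)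
  have e4 : ∀ᶠ ε in 𝓝[>] (0 : ℝ), ∀ l,
      g < m2 * Param_W ε (x l) - β * Param_R ε (x i) * (2 * (Param_R ε (x i) - 1)) :=
    eventually_all.2 fun l => Param_ev (by fun_prop) (by fun_prop)
      (by simpa [Param_R0, Param_W0] using g1 l)
  have e5 : ∀ᶠ ε in 𝓝[>] (0 : ℝ), m1 * m2 * (Param_R ε (x i) ^ 2 - 1) < g ^ 2 :=
    Param_ev (by fun_prop) (by fun_prop) (by simpa [Param_R0] using pow_pos g0 2)
  filter_upwards [e1, e2, e3, e4, e5, Param_pos] with ε f1 f2 f3 f4 f5 hε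
  refine ⟨g, hd, f1.le, ?_, g0, ?_, ?_, f5⟩ <;> simp only [Param_sub]
  · exact f2
  · exact fun j hj h => (f3 j (Param_lt hx hε hj h)).le
  · exact fun l => (f4 l).le

theorem Param_nonUp (hx : Function.Injective x) (h0 : ∀ i, 0 < x i) {i : ι}
    (hd : m1 * m2 < β ^ 2) (hi : β * x i < m1) (hj : ∀ j, x i < x j → m1 < β * x j) :
    ∀ᶠ ε in 𝓝[>] (0 : ℝ),
      NonUp m1 m2 β (fun i => Param_R ε (x i)) (fun i => Param_K ε (x i)) i := by
  have e0 : ∀ᶠ ε in 𝓝[>] (0 : ℝ), m1 * m2 * Param_R ε (x i) ^ 2 < β ^ 2 :=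
    Param_ev (by fun_prop) (by fun_prop) (by simpa [Param_R0] using hd)
  have e1 : ∀ᶠ ε in 𝓝[>] (0 : ℝ), Param_R ε (x i) < 9 / 8 :=
    Param_ev (by fun_prop) (by fun_prop) (by norm_num [Param_R0])
  have e2 : ∀ᶠ ε in 𝓝[>] (0 : ℝ), β * Param_W ε (x i) < m1 * Param_R ε (x i) :=
    Param_ev (by fun_prop) (by fun_prop) (by simpa [Param_R0, Param_W0] using hi)
  have e3 : ∀ᶠ ε in 𝓝[>] (0 : ℝ), ∀ j, x i < x j →
      m1 * Param_R ε (x i) ^ 2 < β * Param_W ε (x j) := by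
    refine eventually_all.2 fun j => eventually_imp_distrib_left.2 fun h => ?_
    exact Param_ev (by fun_prop) (by fun_prop) (by simpa [Param_R0, Param_W0] using hj j h)
  have e4 : ∀ᶠ ε in 𝓝[>] (0 : ℝ), ∀ j l,
      2 * (Param_R ε (x i) - 1) * Param_W ε (x j) < Param_W ε (x l) :=
    eventually_all.2 fun j => eventually_all.2 fun l => Param_ev (by fun_prop) (by fun_prop)
      (by simpa [Param_R0, Param_W0] using h0 l)
  filter_upwards [e0, e1, e2, e3, e4, Param_pos] with ε f0 f1 f2 f3 f4 hε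
  refine ⟨f0, f1.le, ?_, ?_, ?_⟩ <;> simp only [Param_sub]
  · exact f2
  · exact fun j hj h => f3 j (Param_lt hx hε hj h)
  · exact fun j l => (f4 j l).le

end

theorem Param_ne {m1 m2 a b : ℝ} (h1 : 0 < m1) (h2 : 0 < m2) (ha : 0 < a) (hb : 0 < b)
    (hab : a ≠ b) (hp : a * b ≠ m1 * m2) : min (a / m2) (m1 / a) ≠ min (b / m2) (m1 / b) := by
  intro h
  rcases min_choice (a / m2) (m1 / a) with e | e <;> rcases min_choice (b / m2) (m1 / b) with e' | e' <;>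
    rw [e, e'] at h
  · exact hab ((div_left_inj' h2.ne').1 h)
  · exact hp ((div_eq_div_iff h2.ne' hb.ne').1 h)
  · refine hp ?_
    rw [(div_eq_div_iff ha.ne' h2.ne').1 h, mul_comm]
  · exact hab (mul_left_cancel₀ h1.ne' ((div_eq_div_iff ha.ne' hb.ne').1 h)).symm

theorem Param_low {m1 m2 b : ℝ} (h2 : 0 < m2) (hb : 0 < b) (h : b ^ 2 ≤ m1 * m2) :
    min (b / m2) (m1 / b) = b / m2 :=
  min_eq_left ((div_le_div_iff₀ h2 hb).2 (by linarith only [h]))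

theorem Param_up {m1 m2 b : ℝ} (h2 : 0 < m2) (hb : 0 < b) (h : m1 * m2 < b ^ 2) :
    min (b / m2) (m1 / b) = m1 / b :=
  min_eq_right ((div_le_div_iff₀ hb h2).2 (by linarith only [h]))

theorem param {m1 m2 : ℝ} (h1 : 0 < m1) (h2 : 0 < m2) (A B : Finset ℝ)
    (hA : ∀ a ∈ A, 0 < a ∧ (a < m2 ∨ m1 < a) ∧ a ^ 2 ≠ m1 * m2) (hB : ∀ b ∈ B, 0 < b)
    (hAB : ∀ a ∈ A, ∀ b ∈ B, a ≠ b ∧ a * b ≠ m1 * m2) :
    ∃ (T : Finset ℝ) (r k : T → ℝ), T.Nonempty ∧ Std r k ∧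
      (∀ a ∈ A, (∃ i y, ExLow m1 m2 a r k i y) ∨ ∃ i, ExUp m1 m2 a r k i) ∧
      ∀ b ∈ B, (∃ i g, NonLow m1 m2 b r k i g) ∨ ∃ i, NonUp m1 m2 b r k i := by
  classical
  set κ : ℝ → ℝ := fun β => min (β / m2) (m1 / β) with hκ
  have κ0 : ∀ β, 0 < β → 0 < κ β := fun β hβ => lt_min (div_pos hβ h2) (div_pos h1 hβ)
  obtain ⟨c, c1, c2, c0⟩ : ∃ c : ℝ, c < 1 ∧ (∀ b ∈ B, c < κ b) ∧ 0 < c := by
    have a1 : ∀ᶠ c in 𝓝[>] (0 : ℝ), c < 1 := Param_ev (by fun_prop) (by fun_prop) one_pos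
    have a2 : ∀ᶠ c in 𝓝[>] (0 : ℝ), ∀ b ∈ B, c < κ b :=
      (Finset.eventually_all B).2 fun b hb =>
        Param_ev (by fun_prop) (by fun_prop) (κ0 b (hB b hb))
    exact (a1.and (a2.and Param_pos)).exists
  set T : Finset ℝ := insert c (A.image κ) with hT
  have hmem : ∀ t ∈ T, t = c ∨ ∃ a ∈ A, κ a = t := fun t ht => by simpa [hT] using ht
  have hc : c ∈ T := Finset.mem_insert_self _ _
  have ha : ∀ a ∈ A, κ a ∈ T := fun a ha =>
    Finset.mem_insert_of_mem (Finset.mem_image_of_mem κ ha)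
  have x0 : ∀ i : T, 0 < (i : ℝ) := by
    rintro ⟨t, ht⟩
    rcases hmem t ht with rfl | ⟨a, ha, rfl⟩
    · exact c0
    · exact κ0 a (hA a ha).1
  have x1 : ∀ i : T, (i : ℝ) < 1 := by
    rintro ⟨t, ht⟩
    rcases hmem t ht with rfl | ⟨a, ha, rfl⟩
    · exact c1
    · rcases (hA a ha).2.1 with h | h
      · exact (min_le_left _ _).trans_lt ((div_lt_one h2).2 h)
      · exact (min_le_right _ _).trans_lt ((div_lt_one (hA a ha).1).2 h)
  have eA : ∀ᶠ ε in 𝓝[>] (0 : ℝ), ∀ a ∈ A,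
      (∃ i y, ExLow m1 m2 a (fun i : T => Param_R ε i) (fun i => Param_K ε i) i y) ∨
        ∃ i, ExUp m1 m2 a (fun i : T => Param_R ε i) (fun i => Param_K ε i) i := by
    refine (Finset.eventually_all A).2 fun a haA => ?_
    obtain ⟨a0, -, a2⟩ := hA a haA
    rcases lt_or_gt_of_ne a2 with h | h
    · have e : m2 * κ a = a := by
        rw [hκ]
        simp only [Param_low h2 a0 h.le]
        field_simp
      exact (Param_exLow (x := Subtype.val) h2 a0 x0 x1 (i := ⟨κ a, ha a haA⟩) e h).mono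
        fun ε hε => Or.inl ⟨_, _, hε⟩
    · have e : a * κ a = m1 := by
        rw [hκ]
        simp only [Param_up h2 a0 h]
        field_simp
      exact (Param_exUp (x := Subtype.val) h1 a0 x0 x1 (i := ⟨κ a, ha a haA⟩) e h).mono
        fun ε hε => Or.inr ⟨_, hε⟩
  have eB : ∀ᶠ ε in 𝓝[>] (0 : ℝ), ∀ b ∈ B,
      (∃ i g, NonLow m1 m2 b (fun i : T => Param_R ε i) (fun i => Param_K ε i) i g) ∨
        ∃ i, NonUp m1 m2 b (fun i : T => Param_R ε i) (fun i => Param_K ε i) i := by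
    refine (Finset.eventually_all B).2 fun b hb => ?_
    have b0 := hB b hb
    obtain ⟨t, ht, hmax⟩ := Finset.exists_max_image (T.filter fun t => t < κ b) id
      ⟨c, Finset.mem_filter.2 ⟨hc, c2 b hb⟩⟩
    obtain ⟨htT, htb⟩ := Finset.mem_filter.1 ht
    have hj : ∀ j : T, t < j → κ b < j := by
      rintro ⟨s, hs⟩ hts
      have hle : κ b ≤ s := not_lt.1 fun h =>
        absurd (hmax s (Finset.mem_filter.2 ⟨hs, h⟩)) (not_le.2 hts)
      refine lt_of_le_of_ne hle fun e => ?_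
      rcases hmem s hs with rfl | ⟨a, ha, rfl⟩
      · exact absurd (c2 b hb) (not_lt.2 hle)
      · exact Param_ne h1 h2 (hA a ha).1 b0 (hAB a ha b hb).1 (hAB a ha b hb).2 e.symm
    rcases le_or_gt (b ^ 2) (m1 * m2) with h | h
    · have e : κ b = b / m2 := Param_low h2 b0 h
      rw [e] at htb hj
      refine (Param_nonLow (x := Subtype.val) h2 Subtype.val_injective x0 (i := ⟨t, htT⟩) h
        ((lt_div_iff₀' h2).1 htb) fun j hlt => (div_lt_iff₀' h2).1 (hj j hlt)).mono ?_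
      rintro ε ⟨g, hg⟩
      exact Or.inl ⟨_, g, hg⟩
    · have e : κ b = m1 / b := Param_up h2 b0 h
      rw [e] at htb hj
      exact (Param_nonUp (x := Subtype.val) Subtype.val_injective x0 (i := ⟨t, htT⟩) h
        ((lt_div_iff₀' b0).1 htb) fun j hlt => (div_lt_iff₀' b0).1 (hj j hlt)).mono
          fun ε hε => Or.inr ⟨_, hε⟩
  obtain ⟨ε, f1, f2, f3⟩ := ((Param_std (x := Subtype.val) x0 x1).and (eA.and eB)).exists
  exact ⟨T, _, _, ⟨c, hc⟩, f1, f2, f3⟩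

end CritSys
end

-- merged part: Pool.Agent.Work.MP_80ee1d_an.V.Param
section
/-!
The choice of the levels, with a prescribed finite set `T₀` of exact ratios.

PLAN. Adapt `U/Param.lean`.  Let `κ β = min (β / m2) (m1 / β)`, `T = T₀ ∪ A.image κ`, pick `N` above all
elements of `T`, and `θ x = if x ∈ T₀ then 0 else 1`.  Put `R ε x = 1 + ε (N - x)`,
`W ε x = (1 + θ x ε²) x R ε x`, `K = R - W` (new definitions with the parameters `N` and `θ : ℝ → ℝ`).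
The four lemmas `Param_exLow`, `Param_exUp`, `Param_nonLow`, `Param_nonUp` go through with `x i < N` in
place of `x i < 1` (it is only used for `1 ≤ R`) and with the extra hypothesis `θ (x i) = 1` in the two
existence lemmas (it is only used in `key`).  For `b ∈ B` the well `i` is the largest element of `T` below
`κ b`; `κ b ∉ T` by `hB` and `Param_ne`.  `Param_ev`, `Param_pos`, `Param_ne`, `Param_low`, `Param_up`
are reused.  The two bounds for `i ∉ T₀` hold for small `ε` since `i = κ a` for some `a ∈ A`.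
-/

open Filter Topology Finset

namespace CritSys

/-- The level for the second form. -/
def ParG_R (N ε x : ℝ) : ℝ := 1 + ε * (N - x)

/-- The level for the first form. -/
def ParG_W (N : ℝ) (θ : ℝ → ℝ) (ε x : ℝ) : ℝ := (1 + θ x * ε ^ 2) * x * ParG_R N ε x

/-- The difference of the levels. -/
def ParG_K (N : ℝ) (θ : ℝ → ℝ) (ε x : ℝ) : ℝ := ParG_R N ε x - ParG_W N θ ε x

section

variable {N : ℝ} {θ : ℝ → ℝ}

theorem ParG_sub (ε x : ℝ) : ParG_R N ε x - ParG_K N θ ε x = ParG_W N θ ε x := by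
  simp [ParG_K]

theorem ParG_R0 (x : ℝ) : ParG_R N 0 x = 1 := by simp [ParG_R]

theorem ParG_W0 (x : ℝ) : ParG_W N θ 0 x = x := by simp [ParG_W, ParG_R]

@[fun_prop]
theorem ParG_cR (x : ℝ) : Continuous fun ε => ParG_R N ε x := by
  unfold ParG_R
  fun_prop

@[fun_prop]
theorem ParG_cW (x : ℝ) : Continuous fun ε => ParG_W N θ ε x := by
  unfold ParG_W
  fun_prop

theorem ParG_one_le {ε x : ℝ} (hε : 0 < ε) (hx : x < N) : 1 ≤ ParG_R N ε x := by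
  have := mul_pos hε (sub_pos.2 hx)
  unfold ParG_R
  linarith

variable {ι : Type} [Fintype ι] {x : ι → ℝ} {m1 m2 β : ℝ}

theorem ParG_std (h0 : ∀ i, 0 < x i) (h1 : ∀ i, x i < N) :
    ∀ᶠ ε in 𝓝[>] (0 : ℝ), StdG (fun i => ParG_R N ε (x i)) fun i => ParG_K N θ ε (x i) := by
  refine eventually_all.2 fun i => ?_
  have e' : ∀ᶠ ε in 𝓝[>] (0 : ℝ), 0 < ParG_W N θ ε (x i) :=
    Param_ev (by fun_prop) (by fun_prop) (by rw [ParG_W0]; exact h0 i)
  filter_upwards [e', Param_pos] with ε he' hε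
  refine ⟨ParG_one_le hε (h1 i), ?_⟩
  simp only [ParG_K]
  linarith

theorem ParG_exLow (h2 : 0 < m2) (hβ : 0 < β) (h0 : ∀ i, 0 < x i) (h1 : ∀ i, x i < N) {i : ι}
    (hθ : θ (x i) = 1)
    (hi : m2 * x i = β) (hd : β ^ 2 < m1 * m2) :
    ∀ᶠ ε in 𝓝[>] (0 : ℝ), ExLow m1 m2 β (fun i => ParG_R N ε (x i)) (fun i => ParG_K N θ ε (x i)) i
      (ParG_R N ε (x i) * (1 + ε ^ 2 / 2)) := by
  have key : ∀ ε : ℝ, m2 * ParG_W N θ ε (x i) = (1 + ε ^ 2) * β * ParG_R N ε (x i) := fun ε => by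
    rw [ParG_W, hθ, ← hi]
    ring
  have e1 : ∀ᶠ ε in 𝓝[>] (0 : ℝ), β ^ 2 * (ParG_R N ε (x i) * (1 + ε ^ 2 / 2)) ^ 2 < m1 * m2 :=
    Param_ev (by fun_prop) (by fun_prop) (by simpa [ParG_R0] using hd)
  have e2 : ∀ᶠ ε in 𝓝[>] (0 : ℝ), ParG_R N ε (x i) * (1 + ε ^ 2 / 2) < 9 / 8 :=
    Param_ev (by fun_prop) (by fun_prop) (by norm_num [ParG_R0])
  have e3 : ∀ᶠ ε in 𝓝[>] (0 : ℝ), β * ParG_W N θ ε (x i) < m1 * ParG_R N ε (x i) := by
    refine Param_ev (by fun_prop) (by fun_prop) ?_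
    rw [ParG_R0, ParG_W0, mul_one]
    refine lt_of_mul_lt_mul_right ?_ h2.le
    linarith only [hd, hβ, hi, Mathlib.Tactic.Linarith.mul_zero_eq (Mathlib.Tactic.Linarith.sub_neg_of_lt hβ) (sub_eq_zero_of_eq hi)]
  have e4 : ∀ᶠ ε in 𝓝[>] (0 : ℝ), ε ^ 2 * β ^ 2 < m1 * m2 - β ^ 2 :=
    Param_ev (by fun_prop) (by fun_prop) (by simpa using hd)
  have e5 : ∀ᶠ ε in 𝓝[>] (0 : ℝ), ∀ j, ParG_R N ε (x j) ≤ ParG_R N ε (x i) * (1 + ε ^ 2 / 2) →
      β * (ParG_R N ε (x i) * (1 + ε ^ 2 / 2)) < m2 * ParG_W N θ ε (x j) := by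
    refine eventually_all.2 fun j => ?_
    rcases lt_trichotomy (x j) (x i) with h | h | h
    · have e : ∀ᶠ ε in 𝓝[>] (0 : ℝ), ParG_R N ε (x i) * ε / 2 < x i - x j :=
        Param_ev (by fun_prop) (by fun_prop) (by simpa using h)
      filter_upwards [e, Param_pos] with ε he hε hle
      exfalso
      have h3 := mul_lt_mul_of_pos_left he hε
      have h4 : ParG_R N ε (x j) = ParG_R N ε (x i) + ε * (x i - x j) := by
        unfold ParG_R
        ring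
      linarith only [hle, h3, h4]
    · filter_upwards [Param_pos] with ε hε _
      rw [h, key]
      have h3 := ParG_one_le hε (h1 i)
      have h4 : 0 < β * ParG_R N ε (x i) * ε ^ 2 := by positivity
      linarith only [h4]
    · have e : ∀ᶠ ε in 𝓝[>] (0 : ℝ),
          β * (ParG_R N ε (x i) * (1 + ε ^ 2 / 2)) < m2 * ParG_W N θ ε (x j) := by
        refine Param_ev (by fun_prop) (by fun_prop) ?_
        have := mul_lt_mul_of_pos_left h h2
        simp only [ParG_R0, ParG_W0]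
        linarith only [hi, this]
      exact e.mono fun ε he _ => he
  have e6 : ∀ᶠ ε in 𝓝[>] (0 : ℝ), ∀ l, β * (ParG_R N ε (x i) * (1 + ε ^ 2 / 2)) *
      (2 * (ParG_R N ε (x i) * (1 + ε ^ 2 / 2) - 1)) < m2 * ParG_W N θ ε (x l) :=
    eventually_all.2 fun l => Param_ev (by fun_prop) (by fun_prop)
      (by simpa [ParG_R0, ParG_W0] using mul_pos h2 (h0 l))
  filter_upwards [e1, e2, e3, e4, e5, e6, Param_pos] with ε f1 f2 f3 f4 f5 f6 hε
  have h3 := ParG_one_le hε (h1 i)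
  have h4 : 0 < ε ^ 2 := by positivity
  refine ⟨f1, by linarith only [h3, h4, mul_nonneg_of_nonpos_of_nonpos (Mathlib.Tactic.Linarith.sub_nonpos_of_le (sq_nonneg ε)) (Mathlib.Tactic.Linarith.sub_nonpos_of_le h3)], f2.le, ?_, ?_, ?_, ?_, ?_⟩ <;> simp only [ParG_sub]
  · rw [key]
    have h5 : 0 < β * ParG_R N ε (x i) * ε ^ 2 := by positivity
    linarith only [h5]
  · exact f3
  · rw [key]
    have h5 : 0 < ε ^ 2 * ParG_R N ε (x i) ^ 2 := by positivity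
    have h6 := mul_lt_mul_of_pos_left f4 h5
    have h7 : 0 ≤ (m1 * m2 - β ^ 2) * (ParG_R N ε (x i) ^ 2 * (ε ^ 2) ^ 2 / 4) :=
      mul_nonneg (by linarith only [hd]) (by positivity)
    linarith only [h6, h7]
  · exact f5
  · exact f6

theorem ParG_exUp (hm : 0 < m1) (hβ : 0 < β) (h0 : ∀ i, 0 < x i) (h1 : ∀ i, x i < N) {i : ι}
    (hθ : θ (x i) = 1)
    (hi : β * x i = m1) (hd : m1 * m2 < β ^ 2) :
    ∀ᶠ ε in 𝓝[>] (0 : ℝ),
      ExUp m1 m2 β (fun i => ParG_R N ε (x i)) (fun i => ParG_K N θ ε (x i)) i := by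
  have key : ∀ ε : ℝ, β * ParG_W N θ ε (x i) = (1 + ε ^ 2) * m1 * ParG_R N ε (x i) := fun ε => by
    rw [ParG_W, hθ, ← hi]
    ring
  have hx : m2 * x i < β := by
    refine lt_of_mul_lt_mul_right ?_ hβ.le
    (refine lt_of_not_ge fun h_nl => ?_; linarith only [h_nl, hi, hm, hd, Mathlib.Tactic.Linarith.mul_zero_eq (Mathlib.Tactic.Linarith.sub_nonpos_of_le (mul_self_nonneg β)) (sub_eq_zero_of_eq hi), mul_pos_of_neg_of_neg (Mathlib.Tactic.Linarith.sub_neg_of_lt hm) (Mathlib.Tactic.Linarith.sub_neg_of_lt hd), mul_nonneg_of_nonpos_of_nonpos (le_of_lt (Mathlib.Tactic.Linarith.sub_neg_of_lt hm)) (Mathlib.Tactic.Linarith.sub_nonpos_of_le h_nl), Mathlib.Tactic.Linarith.zero_mul_eq (sub_eq_zero_of_eq hi) (Mathlib.Tactic.Linarith.sub_neg_of_lt hd)])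
  have e1 : ∀ᶠ ε in 𝓝[>] (0 : ℝ), m2 * ParG_W N θ ε (x i) < β * ParG_R N ε (x i) :=
    Param_ev (by fun_prop) (by fun_prop) (by simpa [ParG_R0, ParG_W0] using hx)
  have e2 : ∀ᶠ ε in 𝓝[>] (0 : ℝ), m2 * ParG_W N θ ε (x i) ^ 2 < m1 := by
    refine Param_ev (by fun_prop) (by fun_prop) ?_
    have := mul_lt_mul_of_pos_right hx (h0 i)
    rw [ParG_W0]
    linarith only [hi, this]
  have e3 : ∀ᶠ ε in 𝓝[>] (0 : ℝ), β * ParG_W N θ ε (x i) < 9 / 8 * m1 := by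
    refine Param_ev (by fun_prop) (by fun_prop) ?_
    rw [ParG_W0]
    linarith only [hm, hi]
  have e4 : ∀ᶠ ε in 𝓝[>] (0 : ℝ), ∀ j, m1 * ParG_R N ε (x j) ≤ β * ParG_W N θ ε (x i) →
      ParG_W N θ ε (x i) ≤ ParG_W N θ ε (x j) := by
    refine eventually_all.2 fun j => ?_
    rcases lt_trichotomy (x j) (x i) with h | h | h
    · have e : ∀ᶠ ε in 𝓝[>] (0 : ℝ), ε * ParG_R N ε (x i) < x i - x j :=
        Param_ev (by fun_prop) (by fun_prop) (by simpa using h)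
      filter_upwards [e, Param_pos] with ε he hε hle
      exfalso
      have h3 := mul_lt_mul_of_pos_left (mul_lt_mul_of_pos_left he hε) hm
      have h4 : ParG_R N ε (x j) = ParG_R N ε (x i) + ε * (x i - x j) := by
        unfold ParG_R
        ring
      rw [key, h4] at hle
      linarith only [hle, h3]
    · exact Eventually.of_forall fun ε _ => by rw [h]
    · have e : ∀ᶠ ε in 𝓝[>] (0 : ℝ), ParG_W N θ ε (x i) < ParG_W N θ ε (x j) :=
        Param_ev (by fun_prop) (by fun_prop) (by simpa [ParG_W0] using h)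
      exact e.mono fun ε he _ => he.le
  have e5 : ∀ᶠ ε in 𝓝[>] (0 : ℝ), ∀ j l,
      3 * (β * ParG_W N θ ε (x i) / m1 - 1) * ParG_W N θ ε (x j) ^ 2 < ParG_W N θ ε (x l) ^ 2 := by
    refine eventually_all.2 fun j => eventually_all.2 fun l =>
      Param_ev (by fun_prop) (by fun_prop) ?_
    rw [ParG_W0, ParG_W0, ParG_W0, hi, div_self hm.ne', sub_self, mul_zero, zero_mul]
    exact pow_pos (h0 l) 2
  filter_upwards [e1, e2, e3, e4, e5, Param_pos] with ε f1 f2 f3 f4 f5 hε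
  have h3 := ParG_one_le hε (h1 i)
  refine ⟨?_, ?_, ?_, ?_, ?_, ?_⟩ <;> simp only [ParG_sub]
  · rw [key]
    have h5 : 0 < m1 * ParG_R N ε (x i) * ε ^ 2 := by positivity
    linarith only [h5]
  · exact f1
  · exact f2
  · exact f3.le
  · exact f4
  · exact fun j l => (f5 j l).le

omit [Fintype ι] in
theorem ParG_lt (hx : Function.Injective x) {ε : ℝ} (hε : 0 < ε) {i j : ι} (hj : j ≠ i)
    (h : ParG_R N ε (x j) ≤ ParG_R N ε (x i)) : x i < x j := by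
  refine lt_of_le_of_ne ?_ fun e => hj (hx e).symm
  unfold ParG_R at h
  refine le_of_mul_le_mul_left ?_ hε
  linarith

theorem ParG_nonLow (h2 : 0 < m2) (hx : Function.Injective x) (h0 : ∀ i, 0 < x i) {i : ι}
    (hd : β ^ 2 ≤ m1 * m2) (hi : m2 * x i < β) (hj : ∀ j, x i < x j → β < m2 * x j) :
    ∀ᶠ ε in 𝓝[>] (0 : ℝ), ∃ g,
      NonLow m1 m2 β (fun i => ParG_R N ε (x i)) (fun i => ParG_K N θ ε (x i)) i g := by
  obtain ⟨g, g1, g2, g0⟩ : ∃ g : ℝ, (∀ l, g < m2 * x l) ∧ (∀ j, x i < x j → g < m2 * x j - β) ∧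
      0 < g := by
    have a1 : ∀ᶠ g in 𝓝[>] (0 : ℝ), ∀ l, g < m2 * x l :=
      eventually_all.2 fun l => Param_ev (by fun_prop) (by fun_prop) (mul_pos h2 (h0 l))
    have a2 : ∀ᶠ g in 𝓝[>] (0 : ℝ), ∀ j, x i < x j → g < m2 * x j - β := by
      refine eventually_all.2 fun j => eventually_imp_distrib_left.2 fun h => ?_
      exact Param_ev (by fun_prop) (by fun_prop) (sub_pos.2 (hj j h))
    exact (a1.and (a2.and Param_pos)).exists
  have e1 : ∀ᶠ ε in 𝓝[>] (0 : ℝ), ParG_R N ε (x i) < 9 / 8 :=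
    Param_ev (by fun_prop) (by fun_prop) (by norm_num [ParG_R0])
  have e2 : ∀ᶠ ε in 𝓝[>] (0 : ℝ), m2 * ParG_W N θ ε (x i) < β * ParG_R N ε (x i) :=
    Param_ev (by fun_prop) (by fun_prop) (by simpa [ParG_R0, ParG_W0] using hi)
  have e3 : ∀ᶠ ε in 𝓝[>] (0 : ℝ), ∀ j, x i < x j →
      g < m2 * ParG_W N θ ε (x j) - β * ParG_R N ε (x i) := by
    refine eventually_all.2 fun j => eventually_imp_distrib_left.2 fun h => ?_
    exact Param_ev (by fun_prop) (by fun_prop) (by simpa [ParG_R0, ParG_W0] using g2 j h)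
  have e4 : ∀ᶠ ε in 𝓝[>] (0 : ℝ), ∀ l,
      g < m2 * ParG_W N θ ε (x l) - β * ParG_R N ε (x i) * (2 * (ParG_R N ε (x i) - 1)) :=
    eventually_all.2 fun l => Param_ev (by fun_prop) (by fun_prop)
      (by simpa [ParG_R0, ParG_W0] using g1 l)
  have e5 : ∀ᶠ ε in 𝓝[>] (0 : ℝ), m1 * m2 * (ParG_R N ε (x i) ^ 2 - 1) < g ^ 2 :=
    Param_ev (by fun_prop) (by fun_prop) (by simpa [ParG_R0] using pow_pos g0 2)
  filter_upwards [e1, e2, e3, e4, e5, Param_pos] with ε f1 f2 f3 f4 f5 hε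
  refine ⟨g, hd, f1.le, ?_, g0, ?_, ?_, f5⟩ <;> simp only [ParG_sub]
  · exact f2
  · exact fun j hj h => (f3 j (ParG_lt hx hε hj h)).le
  · exact fun l => (f4 l).le

theorem ParG_nonUp (hx : Function.Injective x) (h0 : ∀ i, 0 < x i) {i : ι}
    (hd : m1 * m2 < β ^ 2) (hi : β * x i < m1) (hj : ∀ j, x i < x j → m1 < β * x j) :
    ∀ᶠ ε in 𝓝[>] (0 : ℝ),
      NonUp m1 m2 β (fun i => ParG_R N ε (x i)) (fun i => ParG_K N θ ε (x i)) i := by
  have e0 : ∀ᶠ ε in 𝓝[>] (0 : ℝ), m1 * m2 * ParG_R N ε (x i) ^ 2 < β ^ 2 :=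
    Param_ev (by fun_prop) (by fun_prop) (by simpa [ParG_R0] using hd)
  have e1 : ∀ᶠ ε in 𝓝[>] (0 : ℝ), ParG_R N ε (x i) < 9 / 8 :=
    Param_ev (by fun_prop) (by fun_prop) (by norm_num [ParG_R0])
  have e2 : ∀ᶠ ε in 𝓝[>] (0 : ℝ), β * ParG_W N θ ε (x i) < m1 * ParG_R N ε (x i) :=
    Param_ev (by fun_prop) (by fun_prop) (by simpa [ParG_R0, ParG_W0] using hi)
  have e3 : ∀ᶠ ε in 𝓝[>] (0 : ℝ), ∀ j, x i < x j →
      m1 * ParG_R N ε (x i) ^ 2 < β * ParG_W N θ ε (x j) := by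
    refine eventually_all.2 fun j => eventually_imp_distrib_left.2 fun h => ?_
    exact Param_ev (by fun_prop) (by fun_prop) (by simpa [ParG_R0, ParG_W0] using hj j h)
  have e4 : ∀ᶠ ε in 𝓝[>] (0 : ℝ), ∀ j l,
      2 * (ParG_R N ε (x i) - 1) * ParG_W N θ ε (x j) < ParG_W N θ ε (x l) :=
    eventually_all.2 fun j => eventually_all.2 fun l => Param_ev (by fun_prop) (by fun_prop)
      (by simpa [ParG_R0, ParG_W0] using h0 l)
  filter_upwards [e0, e1, e2, e3, e4, Param_pos] with ε f0 f1 f2 f3 f4 hε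
  refine ⟨f0, f1.le, ?_, ?_, ?_⟩ <;> simp only [ParG_sub]
  · exact f2
  · exact fun j hj h => f3 j (ParG_lt hx hε hj h)
  · exact fun j l => (f4 j l).le

end

theorem paramG {m1 m2 L M : ℝ} (h1 : 0 < m1) (h2 : 0 < m2) (A B T₀ : Finset ℝ)
    (hT : ∀ t ∈ T₀, 0 < t)
    (hA : ∀ a ∈ A, 0 < a ∧ a ^ 2 ≠ m1 * m2 ∧ min (a / m2) (m1 / a) ∉ T₀ ∧
      L < min (a / m2) (m1 / a) ∧ min (a / m2) (m1 / a) < M)
    (hB : ∀ b ∈ B, 0 < b ∧ min (b / m2) (m1 / b) ∉ T₀ ∧ ∃ t ∈ T₀, t < min (b / m2) (m1 / b))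
    (hAB : ∀ a ∈ A, ∀ b ∈ B, a ≠ b ∧ a * b ≠ m1 * m2) :
    ∃ (T : Finset ℝ) (r k : T → ℝ), T₀ ⊆ T ∧ StdG r k ∧
      (∀ i : T, (i : ℝ) ∈ T₀ → r i - k i = i * r i) ∧
      (∀ i : T, (i : ℝ) ∉ T₀ → L * r i < r i - k i ∧ r i - k i < M * r i) ∧
      (∀ a ∈ A, (∃ i y, ExLow m1 m2 a r k i y) ∨ ∃ i, ExUp m1 m2 a r k i) ∧
      ∀ b ∈ B, (∃ i g, NonLow m1 m2 b r k i g) ∨ ∃ i, NonUp m1 m2 b r k i := by
  classical
  set κ : ℝ → ℝ := fun β => min (β / m2) (m1 / β) with hκ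
  have κ0 : ∀ β, 0 < β → 0 < κ β := fun β hβ => lt_min (div_pos hβ h2) (div_pos h1 hβ)
  set T : Finset ℝ := T₀ ∪ A.image κ with hT'
  have hmem : ∀ t ∈ T, t ∈ T₀ ∨ ∃ a ∈ A, κ a = t := fun t ht => by simpa [hT'] using ht
  have hc : T₀ ⊆ T := Finset.subset_union_left
  have ha : ∀ a ∈ A, κ a ∈ T := fun a ha =>
    Finset.mem_union_right _ (Finset.mem_image_of_mem κ ha)
  have x0 : ∀ i : T, 0 < (i : ℝ) := by
    rintro ⟨t, ht⟩
    rcases hmem t ht with h | ⟨a, ha, rfl⟩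
    · exact hT t h
    · exact κ0 a (hA a ha).1
  obtain ⟨N, x1⟩ : ∃ N : ℝ, ∀ i : T, (i : ℝ) < N := by
    obtain ⟨N, hN⟩ := T.bddAbove
    exact ⟨N + 1, fun i => (hN i.2).trans_lt (lt_add_one N)⟩
  obtain ⟨θ, θ0, θ1⟩ : ∃ θ : ℝ → ℝ, (∀ t ∈ T₀, θ t = 0) ∧ ∀ t ∉ T₀, θ t = 1 :=
    ⟨fun t => if t ∈ T₀ then 0 else 1, fun t ht => if_pos ht, fun t ht => if_neg ht⟩
  have eA : ∀ᶠ ε in 𝓝[>] (0 : ℝ), ∀ a ∈ A,
      (∃ i y, ExLow m1 m2 a (fun i : T => ParG_R N ε i) (fun i => ParG_K N θ ε i) i y) ∨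
        ∃ i, ExUp m1 m2 a (fun i : T => ParG_R N ε i) (fun i => ParG_K N θ ε i) i := by
    refine (Finset.eventually_all A).2 fun a haA => ?_
    obtain ⟨a0, a2, a3, -⟩ := hA a haA
    rcases lt_or_gt_of_ne a2 with h | h
    · have e : m2 * κ a = a := by
        rw [hκ]
        simp only [Param_low h2 a0 h.le]
        field_simp
      exact (ParG_exLow (x := Subtype.val) h2 a0 x0 x1 (i := ⟨κ a, ha a haA⟩) (θ1 _ a3) e h).mono
        fun ε hε => Or.inl ⟨_, _, hε⟩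
    · have e : a * κ a = m1 := by
        rw [hκ]
        simp only [Param_up h2 a0 h]
        field_simp
      exact (ParG_exUp (x := Subtype.val) h1 a0 x0 x1 (i := ⟨κ a, ha a haA⟩) (θ1 _ a3) e h).mono
        fun ε hε => Or.inr ⟨_, hε⟩
  have eB : ∀ᶠ ε in 𝓝[>] (0 : ℝ), ∀ b ∈ B,
      (∃ i g, NonLow m1 m2 b (fun i : T => ParG_R N ε i) (fun i => ParG_K N θ ε i) i g) ∨
        ∃ i, NonUp m1 m2 b (fun i : T => ParG_R N ε i) (fun i => ParG_K N θ ε i) i := by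
    refine (Finset.eventually_all B).2 fun b hb => ?_
    obtain ⟨b0, b1, c, c1, c2⟩ := hB b hb
    obtain ⟨t, ht, hmax⟩ := Finset.exists_max_image (T.filter fun t => t < κ b) id
      ⟨c, Finset.mem_filter.2 ⟨hc c1, c2⟩⟩
    obtain ⟨htT, htb⟩ := Finset.mem_filter.1 ht
    have hj : ∀ j : T, t < j → κ b < j := by
      rintro ⟨s, hs⟩ hts
      have hle : κ b ≤ s := not_lt.1 fun h =>
        absurd (hmax s (Finset.mem_filter.2 ⟨hs, h⟩)) (not_le.2 hts)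
      refine lt_of_le_of_ne hle fun e => ?_
      rcases hmem s hs with h | ⟨a, ha, rfl⟩
      · have e' : min (b / m2) (m1 / b) = s := e
        exact b1 (e' ▸ h)
      · exact Param_ne h1 h2 (hA a ha).1 b0 (hAB a ha b hb).1 (hAB a ha b hb).2 e.symm
    rcases le_or_gt (b ^ 2) (m1 * m2) with h | h
    · have e : κ b = b / m2 := Param_low h2 b0 h
      rw [e] at htb hj
      refine (ParG_nonLow (N := N) (θ := θ) (x := Subtype.val) h2 Subtype.val_injective x0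
        (i := ⟨t, htT⟩) h
        ((lt_div_iff₀' h2).1 htb) fun j hlt => (div_lt_iff₀' h2).1 (hj j hlt)).mono ?_
      rintro ε ⟨g, hg⟩
      exact Or.inl ⟨_, g, hg⟩
    · have e : κ b = m1 / b := Param_up h2 b0 h
      rw [e] at htb hj
      exact (ParG_nonUp (x := Subtype.val) Subtype.val_injective x0 (i := ⟨t, htT⟩) h
        ((lt_div_iff₀' b0).1 htb) fun j hlt => (div_lt_iff₀' b0).1 (hj j hlt)).mono
          fun ε hε => Or.inr ⟨_, hε⟩
  have eC : ∀ᶠ ε in 𝓝[>] (0 : ℝ), ∀ i : T, (i : ℝ) ∉ T₀ →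
      L * ParG_R N ε i < ParG_W N θ ε i ∧ ParG_W N θ ε i < M * ParG_R N ε i := by
    refine eventually_all.2 fun i => eventually_imp_distrib_left.2 fun h => ?_
    obtain ⟨a, ha, e⟩ := (hmem _ i.2).resolve_left h
    obtain ⟨-, -, -, a1, a2⟩ := hA a ha
    have e' : min (a / m2) (m1 / a) = i := e
    rw [e'] at a1 a2
    exact (Param_ev (by fun_prop) (by fun_prop) (by simpa [ParG_R0, ParG_W0] using a1)).and
      (Param_ev (by fun_prop) (by fun_prop) (by simpa [ParG_R0, ParG_W0] using a2))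
  obtain ⟨ε, f1, f2, f3, f4⟩ :=
    ((ParG_std (x := Subtype.val) (θ := θ) x0 x1).and (eA.and (eB.and eC))).exists
  refine ⟨T, _, _, hc, f1, fun i hi => ?_, fun i hi => ?_, f2, f3⟩
  · simp only [ParG_sub, ParG_W, θ0 _ hi, zero_mul, add_zero, one_mul]
  · simp only [ParG_sub]
    exact f4 i hi

end CritSys
end
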