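import Pool.Agent.Work.MP_80ee1d_an.U.Split
import Pool.Agent.Work.MP_80ee1d_an.U.Lin
import Pool.Agent.Work.MP_80ee1d_an.Eig
import Pool.Agent.Work.MP_80ee1d_an.Ball
import Pool.Agent.Work.MP_80ee1d_an.V.Param
import Pool.Agent.Work.MP_80ee1d_an.U.CritC
import Pool.Agent.Work.MP_80ee1d_an.BridgeB
import Mathlib

-- merged part: Pool.Agent.Work.MP_80ee1d_an.U.Dec
section
/-!
Domains with a finite set of wells, and the gluing step.

PLAN. `Dec.mono`: `qd 1 u ≥ qd (1 + δ) u ≥ c ‖u‖² ≥ 0` (`Md_nonneg`).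
`Dec.merge`: let `c' = min (min c₁ c₂) (1 / 2)`, choose `ζ' ∈ (0, 1]` with `(1 + η₀)(1 + ζ') ≤ 1 + η`,
`η₀ (1 + ζ') ≤ η`, and use `split` with `ζ = c' ζ' / 2`, `κ = 1 / (2 (1 + δ))`.  For `l ∈ {1, 1 + δ}`:
`qd l (A u) + qd l (B u) + qd l (W u) ≤ qd l u + ζ ‖u‖²` (`hi`, `md`), `qd l (W u) ≥ ‖W u‖² / 2 ≥
S0 / 2 ‖val (W u)‖²`; with `lo`, `c' ‖u‖² ≤ qd (1 + δ) u + ζ ‖u‖²`, so `c' / 2 ‖u‖² ≤ qd (1 + δ) u` and
`ζ ‖u‖² ≤ ζ' qd l u`.  Put `m u i = if i ∈ T₁ then m₁ (A u) i else m₂ (B u) i`,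
`ν u = ν₁ (A u) + ν₂ (B u) + ‖val (W u)‖²`; `Finset.sum_union`, `Finset.sum_congr`;
`‖val (A u)‖² ≤ ‖val u‖²` from `four`.  Tests: `H0_mono`.
-/

open MeasureTheory Filter Topology Metric
open scoped ContDiff RealInnerProductSpace ENNReal

noncomputable section
namespace CritSys

variable {ι : Type} [DecidableEq ι]

/-- Masses `m u i` in the wells `i ∈ T` and mass `ν u` in the necks. -/
structure DecF (Ω : Set E4) (T : Finset ι) (r k : ι → ℝ) (s δ η c : ℝ) (m : D → ι → ℝ)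
    (ν : D → ℝ) : Prop where
  m0 : ∀ u i, 0 ≤ m u i
  ν0 : ∀ u, 0 ≤ ν u
  sq : ∀ u ∈ H0 Ω, ∑ i ∈ T, m u i ^ 2 ≤ ‖val u‖ ^ 4
  h2 : ∀ u ∈ H0 Ω, s * ∑ i ∈ T, r i * m u i ≤ (1 + η) * qd 1 u
  h1 : ∀ u ∈ H0 Ω, s * ∑ i ∈ T, (r i - k i) * m u i + S0 / 2 * ν u ≤ (1 + η) * qd (1 + δ) u
  hk : ∀ u ∈ H0 Ω, s * ∑ i ∈ T, k i * m u i ≤ η * qd 1 u + δ * Md u
  hR : ∀ u ∈ H0 Ω, ∀ v ∈ H0 Ω, T4 (val u) (val u) (val v) (val v) ≤
    ∑ i ∈ T, m u i * m v i + ν u * ‖val v‖ ^ 2 + ‖val u‖ ^ 2 * ν v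
  co : ∀ u ∈ H0 Ω, c * ‖u‖ ^ 2 ≤ qd (1 + δ) u
  test : ∀ i ∈ T, ∃ w ∈ H0 Ω, ‖val w‖ = 1 ∧ qd 1 w ≤ s * ((1 + η) * r i) ∧
    qd (1 + δ) w ≤ s * (r i - k i + η)

/-- The domain has the wells `T`. -/
def Dec (Ω : Set E4) (T : Finset ι) (r k : ι → ℝ) (s δ η : ℝ) : Prop :=
  ∃ (c : ℝ) (m : D → ι → ℝ) (ν : D → ℝ), 0 < c ∧ DecF Ω T r k s δ η c m ν

variable {r k : ι → ℝ} {s δ η₀ η : ℝ}

theorem Dec_le (hδ : 0 ≤ δ) (u : D) : qd (1 + δ) u ≤ qd 1 u := by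
  have := mul_nonneg hδ (Md_nonneg u)
  unfold qd
  linarith

theorem Dec.mono {Ω : Set E4} {T : Finset ι} (h : Dec Ω T r k s δ η₀) (hr : ∀ i, 0 ≤ r i)
    (hs : 0 ≤ s) (hδ : 0 ≤ δ) (hη : η₀ ≤ η) : Dec Ω T r k s δ η := by
  obtain ⟨c, m, ν, hc, h⟩ := h
  have q1 : ∀ u ∈ H0 Ω, 0 ≤ qd (1 + δ) u := fun u hu => le_trans (by positivity) (h.co u hu)
  have q2 : ∀ u ∈ H0 Ω, 0 ≤ qd 1 u := fun u hu => (q1 u hu).trans (Dec_le hδ u)
  refine ⟨c, m, ν, hc, { h with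
    h2 := fun u hu => (h.h2 u hu).trans (mul_le_mul_of_nonneg_right (by linarith) (q2 u hu))
    h1 := fun u hu => (h.h1 u hu).trans (mul_le_mul_of_nonneg_right (by linarith) (q1 u hu))
    hk := fun u hu => (h.hk u hu).trans (add_le_add (mul_le_mul_of_nonneg_right hη (q2 u hu)) le_rfl)
    test := fun i hi => ?_ }⟩
  obtain ⟨w, w1, w2, w3, w4⟩ := h.test i hi
  exact ⟨w, w1, w2, w3.trans (mul_le_mul_of_nonneg_left
    (mul_le_mul_of_nonneg_right (by linarith) (hr i)) hs),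
    w4.trans (mul_le_mul_of_nonneg_left (by linarith) hs)⟩

theorem Dec_key {Ω Ω₁ Ω₂ : Set E4} {c ζ : ℝ} {A B W : D → D} (hδ : 0 ≤ δ) (hc : 0 < c)
    (hc2 : c ≤ 1 / 2) (hζ : 0 < ζ) (hζ1 : ζ ≤ 1)
    (h : SplitP Ω Ω₁ Ω₂ (c * ζ / 2) (1 / (2 * (1 + δ))) A B W)
    (h1 : ∀ u ∈ H0 Ω₁, c * ‖u‖ ^ 2 ≤ qd (1 + δ) u) (h2 : ∀ u ∈ H0 Ω₂, c * ‖u‖ ^ 2 ≤ qd (1 + δ) u)
    {u : D} (hu : u ∈ H0 Ω) : c / 2 * ‖u‖ ^ 2 ≤ qd (1 + δ) u ∧
      qd (1 + δ) (A u) + qd (1 + δ) (B u) + qd (1 + δ) (W u) ≤ (1 + ζ) * qd (1 + δ) u ∧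
      qd 1 (A u) + qd 1 (B u) + qd 1 (W u) ≤ (1 + ζ) * qd 1 u ∧
      S0 / 2 * ‖val (W u)‖ ^ 2 ≤ qd (1 + δ) (W u) := by
  have k1 : ‖W u‖ ^ 2 / 2 ≤ qd (1 + δ) (W u) := by
    have := h.neck u hu
    rw [one_div_mul_eq_div, le_div_iff₀ (by positivity)] at this
    unfold qd
    linarith only [this]
  have k2 : ∀ l, qd l (A u) + qd l (B u) + qd l (W u) ≤ qd l u + ζ * (c / 2 * ‖u‖ ^ 2) := fun l => by
    have := h.hi u hu
    unfold qd
    rw [← h.md u hu]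
    linarith only [this]
  have k3 : c / 2 * ‖u‖ ^ 2 ≤ qd (1 + δ) u := by
    have a1 := mul_le_mul_of_nonneg_left (h.lo u hu) hc.le
    have a2 := mul_le_mul_of_nonneg_right hc2 (sq_nonneg ‖W u‖)
    have a3 := mul_le_mul_of_nonneg_right hζ1 (show 0 ≤ c / 2 * ‖u‖ ^ 2 by positivity)
    linarith only [k1, a1, a2, a3, h1, h, hu, h2, k2, h1 _ (h.memA u hu), h2 _ (h.memB u hu), k2 (1 + δ)]
  exact ⟨k3, by linarith only [k2, k3, hζ, k2 (1 + δ), mul_le_mul_of_nonneg_left k3 hζ.le],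
    by linarith only [k2, k3, hδ, hζ, k2 1, mul_le_mul_of_nonneg_left (k3.trans (Dec_le hδ u)) hζ.le],
    by linarith only [k1, S0_le (W u)]⟩

theorem Dec.merge {Ω₁ Ω₂ : Set E4} {T₁ T₂ : Finset ι} (h1 : Dec Ω₁ T₁ r k s δ η₀)
    (h2 : Dec Ω₂ T₂ r k s δ η₀) (hT : Disjoint T₁ T₂) (hr : ∀ i, 0 ≤ r i) (hs : 0 ≤ s) (hδ : 0 ≤ δ)
    (h0 : 0 ≤ η₀) (hη : η₀ < η) (P : E4) : ∃ ρ' : ℝ, 0 < ρ' ∧ ∀ (Ω : Set E4) (ρ : ℝ), IsOpen Ω →
      Bornology.IsBounded Ω → 0 < ρ → Ω₁ ⊆ Ω → Ω₂ ⊆ Ω →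
      (∀ x ∈ Ω, x ∉ ball P ρ' → (x 3 < P 3 - ρ ∧ x ∈ Ω₁) ∨ (P 3 + ρ < x 3 ∧ x ∈ Ω₂)) →
      Dec Ω (T₁ ∪ T₂) r k s δ η := by
  obtain ⟨c₁, m₁, ν₁, hc₁, h1⟩ := h1
  obtain ⟨c₂, m₂, ν₂, hc₂, h2⟩ := h2
  obtain ⟨c, hc, a1, a2, a3⟩ : ∃ c : ℝ, 0 < c ∧ c ≤ c₁ ∧ c ≤ c₂ ∧ c ≤ 1 / 2 :=
    ⟨min (min c₁ c₂) (1 / 2), by positivity, (min_le_left _ _).trans (min_le_left _ _),
      (min_le_left _ _).trans (min_le_right _ _), min_le_right _ _⟩
  obtain ⟨ζ, hζ, z1, z2⟩ : ∃ ζ : ℝ, 0 < ζ ∧ ζ ≤ 1 ∧ ζ * (1 + η₀) ≤ η - η₀ :=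
    ⟨min 1 ((η - η₀) / (1 + η₀)), lt_min one_pos (div_pos (sub_pos.2 hη) (by positivity)),
      min_le_left _ _, (le_div_iff₀ (by positivity)).1 (min_le_right _ _)⟩
  obtain ⟨ρ', hρ', hsp⟩ := split P (show 0 < c * ζ / 2 by positivity)
    (show 0 < 1 / (2 * (1 + δ)) by positivity)
  refine ⟨ρ', hρ', fun Ω ρ ho hb hρ s1 s2 hΩ => ?_⟩
  obtain ⟨A, B, W, h⟩ := hsp Ω Ω₁ Ω₂ ρ ho hb hρ hΩ
  have key := fun u hu => Dec_key hδ hc a3 hζ z1 h
    (fun u hu => (mul_le_mul_of_nonneg_right a1 (sq_nonneg _)).trans (h1.co u hu))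
    (fun u hu => (mul_le_mul_of_nonneg_right a2 (sq_nonneg _)).trans (h2.co u hu)) (u := u) hu
  have q1 : ∀ u ∈ H0 Ω, 0 ≤ qd (1 + δ) u := fun u hu => le_trans (by positivity) (key u hu).1
  have q2 : ∀ u ∈ H0 Ω, 0 ≤ qd 1 u := fun u hu => (q1 u hu).trans (Dec_le hδ u)
  have q3 : ∀ u ∈ H0 Ω, 0 ≤ qd (1 + δ) (W u) := fun u hu =>
    le_trans (by have := S0_pos; positivity) (key u hu).2.2.2
  have q4 : ∀ u ∈ H0 Ω, 0 ≤ qd 1 (W u) := fun u hu => (q3 u hu).trans (Dec_le hδ _)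
  have v1 : ∀ u ∈ H0 Ω, ‖val (A u)‖ ^ 2 ≤ ‖val u‖ ^ 2 ∧ ‖val (B u)‖ ^ 2 ≤ ‖val u‖ ^ 2 :=
    fun u hu => by
      have k1 := h.four u hu
      have k2 : 0 ≤ ‖val (A u)‖ ^ 4 := by positivity
      have k3 : 0 ≤ ‖val (B u)‖ ^ 4 := by positivity
      constructor <;> exact pow_le_pow_left₀ (norm_nonneg _)
        (le_of_pow_le_pow_left₀ four_ne_zero (norm_nonneg _) (by linarith only [k1, k3, k2])) 2
  have hsum : ∀ (F : ι → ℝ → ℝ → ℝ) (u v : D), ∑ i ∈ T₁ ∪ T₂,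
      F i (if i ∈ T₁ then m₁ (A u) i else m₂ (B u) i) (if i ∈ T₁ then m₁ (A v) i else m₂ (B v) i) =
      ∑ i ∈ T₁, F i (m₁ (A u) i) (m₁ (A v) i) + ∑ i ∈ T₂, F i (m₂ (B u) i) (m₂ (B v) i) :=
    fun F u v => by
      rw [Finset.sum_union hT]
      exact congrArg₂ (· + ·) (Finset.sum_congr rfl fun i hi => by rw [if_pos hi, if_pos hi])
        (Finset.sum_congr rfl fun i hi => by
          rw [if_neg (Finset.disjoint_right.1 hT hi), if_neg (Finset.disjoint_right.1 hT hi)])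
  have e0 : 0 ≤ 1 + η₀ := by positivity
  refine ⟨c / 2, fun u i => if i ∈ T₁ then m₁ (A u) i else m₂ (B u) i,
    fun u => ν₁ (A u) + ν₂ (B u) + ‖val (W u)‖ ^ 2, half_pos hc, fun u i => ?_,
    fun u => add_nonneg (add_nonneg (h1.ν0 _) (h2.ν0 _)) (sq_nonneg _), fun u hu => ?_,
    fun u hu => ?_, fun u hu => ?_, fun u hu => ?_, fun u hu v hv => ?_, fun u hu => (key u hu).1,
    fun i hi => ?_⟩
  · split_ifs
    exacts [h1.m0 _ _, h2.m0 _ _]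
  · rw [hsum (fun _ x _ => x ^ 2) u u]
    exact (add_le_add (h1.sq _ (h.memA u hu)) (h2.sq _ (h.memB u hu))).trans (h.four u hu)
  · rw [hsum (fun i x _ => r i * x) u u]
    linarith only [h1, h, hu, h2, e0, q4, key, z2, q2, h1.h2 _ (h.memA u hu), h2.h2 _ (h.memB u hu), mul_nonneg e0 (q4 u hu),
      mul_le_mul_of_nonneg_left (key u hu).2.2.1 e0, mul_le_mul_of_nonneg_right z2 (q2 u hu)]
  · rw [hsum (fun i x _ => (r i - k i) * x) u u]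
    linarith only [h1, h, hu, h2, h0, q3, key, e0, z2, q1, h1.h1 _ (h.memA u hu), h2.h1 _ (h.memB u hu), mul_nonneg h0 (q3 u hu),
      (key u hu).2.2.2, mul_le_mul_of_nonneg_left (key u hu).2.1 e0,
      mul_le_mul_of_nonneg_right z2 (q1 u hu)]
  · rw [hsum (fun i x _ => k i * x) u u, ← h.md u hu]
    linarith only [h1, h, hu, h2, h0, q4, key, z2, q2, hζ, hδ, h1.hk _ (h.memA u hu), h2.hk _ (h.memB u hu), mul_nonneg h0 (q4 u hu),
      mul_le_mul_of_nonneg_left (key u hu).2.2.1 h0, mul_le_mul_of_nonneg_right z2 (q2 u hu),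
      mul_nonneg hζ.le (q2 u hu), mul_nonneg hδ (Md_nonneg (W u))]
  · rw [hsum (fun _ x y => x * y) u v]
    linarith only [h, hu, hv, h1, h2, v1, h.mix u hu v hv, h1.hR _ (h.memA u hu) _ (h.memA v hv),
      h2.hR _ (h.memB u hu) _ (h.memB v hv), mul_le_mul_of_nonneg_left (v1 v hv).1 (h1.ν0 (A u)),
      mul_le_mul_of_nonneg_left (v1 v hv).2 (h2.ν0 (B u)),
      mul_le_mul_of_nonneg_right (v1 u hu).1 (h1.ν0 (A v)),
      mul_le_mul_of_nonneg_right (v1 u hu).2 (h2.ν0 (B v))]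
  · obtain ⟨w, w1, w2, w3, w4⟩ : ∃ w ∈ H0 Ω, ‖val w‖ = 1 ∧ qd 1 w ≤ s * ((1 + η₀) * r i) ∧
        qd (1 + δ) w ≤ s * (r i - k i + η₀) := by
      rcases Finset.mem_union.1 hi with hi | hi
      · exact (h1.test i hi).imp fun w hw => ⟨H0_mono s1 hw.1, hw.2⟩
      · exact (h2.test i hi).imp fun w hw => ⟨H0_mono s2 hw.1, hw.2⟩
    exact ⟨w, w1, w2, w3.trans (mul_le_mul_of_nonneg_left
      (mul_le_mul_of_nonneg_right (by linarith only [hη]) (hr i)) hs),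
      w4.trans (mul_le_mul_of_nonneg_left (by linarith only [hη]) hs)⟩

end CritSys
end
end

-- merged part: Pool.Agent.Work.MP_80ee1d_an.V.Dec
section
/-!
Domains with a finite set of wells, with two-sided information, and the gluing step.

PLAN. Adapt `Dec.mono` and `Dec.merge` of `U/Dec.lean` (same masses; `Dec_le`, `Dec_key`, `split` are
reused).  New field `hk'` in the gluing step: `Md u = Md (A u) + Md (B u) + Md (W u)` (`md`),
`δ Md (W u) ≤ δ / (2 (1 + δ)) ‖W u‖² ≤ δ qd (1 + δ) (W u) ≤ η₀ qd (1 + δ) (W u)` (`neck`; as in `Dec_key`,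
`‖W u‖² / 2 ≤ qd (1 + δ) (W u)`), and the sum of the three values of `qd (1 + δ)` is at most
`(1 + ζ) qd (1 + δ) u` with `ζ (1 + η₀) ≤ η - η₀`.  In `test'` the function is kept; `qd 1 w` and
`qd (1 + δ) w` are non-negative by `co`.
-/

open MeasureTheory Filter Topology Metric
open scoped ContDiff RealInnerProductSpace ENNReal

noncomputable section
namespace CritSys

variable {ι : Type} [DecidableEq ι]

/-- The data of `DecF`, an upper bound for the `L²` mass and two-sided test functions. -/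
structure DecX (Ω : Set E4) (T : Finset ι) (r k : ι → ℝ) (s δ η c : ℝ) (m : D → ι → ℝ)
    (ν : D → ℝ) : Prop extends DecF Ω T r k s δ η c m ν where
  hk' : ∀ u ∈ H0 Ω, δ * Md u ≤ s * ∑ i ∈ T, k i * m u i + η * qd (1 + δ) u
  test' : ∀ i ∈ T, ∃ w ∈ H0 Ω, ‖val w‖ = 1 ∧ qd (1 + δ) w ≤ s * ((1 + η) * (r i - k i)) ∧
    qd 1 w ≤ s * ((1 + η) * r i) ∧ s * (r i - k i) ≤ (1 + η) * qd (1 + δ) w ∧
    s * r i ≤ (1 + η) * qd 1 w

/-- The domain has the wells `T`. -/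
def DecG (Ω : Set E4) (T : Finset ι) (r k : ι → ℝ) (s δ η : ℝ) : Prop :=
  ∃ (c : ℝ) (m : D → ι → ℝ) (ν : D → ℝ), 0 < c ∧ DecX Ω T r k s δ η c m ν

variable {r k : ι → ℝ} {s δ η₀ η : ℝ}

theorem DecX_test {a b p q : ℝ} (ha : 0 ≤ a) (hb : b ≤ a) (hs : 0 ≤ s) (hη : η₀ ≤ η) (hp : 0 ≤ p)
    (hq : 0 ≤ q) (h : p ≤ s * ((1 + η₀) * (a - b)) ∧ q ≤ s * ((1 + η₀) * a) ∧
      s * (a - b) ≤ (1 + η₀) * p ∧ s * a ≤ (1 + η₀) * q) :
    p ≤ s * ((1 + η) * (a - b)) ∧ q ≤ s * ((1 + η) * a) ∧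
      s * (a - b) ≤ (1 + η) * p ∧ s * a ≤ (1 + η) * q :=
  ⟨h.1.trans (mul_le_mul_of_nonneg_left
      (mul_le_mul_of_nonneg_right (by linarith) (sub_nonneg.2 hb)) hs),
    h.2.1.trans (mul_le_mul_of_nonneg_left (mul_le_mul_of_nonneg_right (by linarith) ha) hs),
    h.2.2.1.trans (mul_le_mul_of_nonneg_right (by linarith) hp),
    h.2.2.2.trans (mul_le_mul_of_nonneg_right (by linarith) hq)⟩

theorem DecX_neck {Ω Ω₁ Ω₂ : Set E4} {ζ : ℝ} {A B W : D → D} (hδ : 0 ≤ δ)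
    (h : SplitP Ω Ω₁ Ω₂ ζ (1 / (2 * (1 + δ))) A B W) {u : D} (hu : u ∈ H0 Ω) :
    Md (W u) ≤ qd (1 + δ) (W u) := by
  have k := h.neck u hu
  rw [one_div_mul_eq_div, le_div_iff₀ (by positivity)] at k
  have k0 := mul_nonneg hδ (Md_nonneg (W u))
  unfold qd
  linarith

theorem DecG.mono {Ω : Set E4} {T : Finset ι} (h : DecG Ω T r k s δ η₀) (hr : ∀ i, 0 ≤ r i)
    (hw : ∀ i, k i ≤ r i) (hs : 0 ≤ s) (hδ : 0 ≤ δ) (hη : η₀ ≤ η) : DecG Ω T r k s δ η := by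
  obtain ⟨c, m, ν, hc, h⟩ := h
  have q1 : ∀ u ∈ H0 Ω, 0 ≤ qd (1 + δ) u := fun u hu => le_trans (by positivity) (h.co u hu)
  have q2 : ∀ u ∈ H0 Ω, 0 ≤ qd 1 u := fun u hu => (q1 u hu).trans (Dec_le hδ u)
  refine ⟨c, m, ν, hc, { h with
    h2 := fun u hu => (h.h2 u hu).trans (mul_le_mul_of_nonneg_right (by linarith) (q2 u hu))
    h1 := fun u hu => (h.h1 u hu).trans (mul_le_mul_of_nonneg_right (by linarith) (q1 u hu))
    hk := fun u hu => (h.hk u hu).trans (add_le_add (mul_le_mul_of_nonneg_right hη (q2 u hu)) le_rfl)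
    hk' := fun u hu =>
      (h.hk' u hu).trans (add_le_add le_rfl (mul_le_mul_of_nonneg_right hη (q1 u hu)))
    test := fun i hi => ?_
    test' := fun i hi => ?_ }⟩
  · obtain ⟨w, w1, w2, w3, w4⟩ := h.test i hi
    exact ⟨w, w1, w2, w3.trans (mul_le_mul_of_nonneg_left
      (mul_le_mul_of_nonneg_right (by linarith) (hr i)) hs),
      w4.trans (mul_le_mul_of_nonneg_left (by linarith) hs)⟩
  · obtain ⟨w, w1, w2, w3⟩ := h.test' i hi
    exact ⟨w, w1, w2, DecX_test (hr i) (hw i) hs hη (q1 w w1) (q2 w w1) w3⟩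

theorem DecG.merge {Ω₁ Ω₂ : Set E4} {T₁ T₂ : Finset ι} (h1 : DecG Ω₁ T₁ r k s δ η₀)
    (h2 : DecG Ω₂ T₂ r k s δ η₀) (hT : Disjoint T₁ T₂) (hr : ∀ i, 0 ≤ r i) (hw : ∀ i, k i ≤ r i)
    (hs : 0 ≤ s) (hδ : 0 ≤ δ) (h0 : δ ≤ η₀) (hη : η₀ < η) (P : E4) :
    ∃ ρ' : ℝ, 0 < ρ' ∧ ∀ (Ω : Set E4) (ρ : ℝ), IsOpen Ω →
      Bornology.IsBounded Ω → 0 < ρ → Ω₁ ⊆ Ω → Ω₂ ⊆ Ω →
      (∀ x ∈ Ω, x ∉ ball P ρ' → (x 3 < P 3 - ρ ∧ x ∈ Ω₁) ∨ (P 3 + ρ < x 3 ∧ x ∈ Ω₂)) →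
      DecG Ω (T₁ ∪ T₂) r k s δ η := by
  have hδη := h0
  replace h0 : 0 ≤ η₀ := hδ.trans h0
  obtain ⟨c₁, m₁, ν₁, hc₁, h1⟩ := h1
  obtain ⟨c₂, m₂, ν₂, hc₂, h2⟩ := h2
  obtain ⟨c, hc, a1, a2, a3⟩ : ∃ c : ℝ, 0 < c ∧ c ≤ c₁ ∧ c ≤ c₂ ∧ c ≤ 1 / 2 :=
    ⟨min (min c₁ c₂) (1 / 2), by positivity, (min_le_left _ _).trans (min_le_left _ _),
      (min_le_left _ _).trans (min_le_right _ _), min_le_right _ _⟩
  obtain ⟨ζ, hζ, z1, z2⟩ : ∃ ζ : ℝ, 0 < ζ ∧ ζ ≤ 1 ∧ ζ * (1 + η₀) ≤ η - η₀ :=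
    ⟨min 1 ((η - η₀) / (1 + η₀)), lt_min one_pos (div_pos (sub_pos.2 hη) (by positivity)),
      min_le_left _ _, (le_div_iff₀ (by positivity)).1 (min_le_right _ _)⟩
  obtain ⟨ρ', hρ', hsp⟩ := split P (show 0 < c * ζ / 2 by positivity)
    (show 0 < 1 / (2 * (1 + δ)) by positivity)
  refine ⟨ρ', hρ', fun Ω ρ ho hb hρ s1 s2 hΩ => ?_⟩
  obtain ⟨A, B, W, h⟩ := hsp Ω Ω₁ Ω₂ ρ ho hb hρ hΩ
  have key := fun u hu => Dec_key hδ hc a3 hζ z1 h
    (fun u hu => (mul_le_mul_of_nonneg_right a1 (sq_nonneg _)).trans (h1.co u hu))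
    (fun u hu => (mul_le_mul_of_nonneg_right a2 (sq_nonneg _)).trans (h2.co u hu)) (u := u) hu
  have q1 : ∀ u ∈ H0 Ω, 0 ≤ qd (1 + δ) u := fun u hu => le_trans (by positivity) (key u hu).1
  have q2 : ∀ u ∈ H0 Ω, 0 ≤ qd 1 u := fun u hu => (q1 u hu).trans (Dec_le hδ u)
  have q3 : ∀ u ∈ H0 Ω, 0 ≤ qd (1 + δ) (W u) := fun u hu =>
    le_trans (by have := S0_pos; positivity) (key u hu).2.2.2
  have q4 : ∀ u ∈ H0 Ω, 0 ≤ qd 1 (W u) := fun u hu => (q3 u hu).trans (Dec_le hδ _)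
  have v1 : ∀ u ∈ H0 Ω, ‖val (A u)‖ ^ 2 ≤ ‖val u‖ ^ 2 ∧ ‖val (B u)‖ ^ 2 ≤ ‖val u‖ ^ 2 :=
    fun u hu => by
      have k1 := h.four u hu
      have k2 : 0 ≤ ‖val (A u)‖ ^ 4 := by positivity
      have k3 : 0 ≤ ‖val (B u)‖ ^ 4 := by positivity
      constructor <;> exact pow_le_pow_left₀ (norm_nonneg _)
        (le_of_pow_le_pow_left₀ four_ne_zero (norm_nonneg _) (by linarith only [k1, k3, k2])) 2
  have hsum : ∀ (F : ι → ℝ → ℝ → ℝ) (u v : D), ∑ i ∈ T₁ ∪ T₂,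
      F i (if i ∈ T₁ then m₁ (A u) i else m₂ (B u) i) (if i ∈ T₁ then m₁ (A v) i else m₂ (B v) i) =
      ∑ i ∈ T₁, F i (m₁ (A u) i) (m₁ (A v) i) + ∑ i ∈ T₂, F i (m₂ (B u) i) (m₂ (B v) i) :=
    fun F u v => by
      rw [Finset.sum_union hT]
      exact congrArg₂ (· + ·) (Finset.sum_congr rfl fun i hi => by rw [if_pos hi, if_pos hi])
        (Finset.sum_congr rfl fun i hi => by
          rw [if_neg (Finset.disjoint_right.1 hT hi), if_neg (Finset.disjoint_right.1 hT hi)])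
  have e0 : 0 ≤ 1 + η₀ := by positivity
  refine ⟨c / 2, fun u i => if i ∈ T₁ then m₁ (A u) i else m₂ (B u) i,
    fun u => ν₁ (A u) + ν₂ (B u) + ‖val (W u)‖ ^ 2, half_pos hc, ⟨fun u i => ?_,
    fun u => add_nonneg (add_nonneg (h1.ν0 _) (h2.ν0 _)) (sq_nonneg _), fun u hu => ?_,
    fun u hu => ?_, fun u hu => ?_, fun u hu => ?_, fun u hu v hv => ?_, fun u hu => (key u hu).1,
    fun i hi => ?_⟩, fun u hu => ?_, fun i hi => ?_⟩
  · split_ifs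
    exacts [h1.m0 _ _, h2.m0 _ _]
  · rw [hsum (fun _ x _ => x ^ 2) u u]
    exact (add_le_add (h1.sq _ (h.memA u hu)) (h2.sq _ (h.memB u hu))).trans (h.four u hu)
  · rw [hsum (fun i x _ => r i * x) u u]
    linarith only [h1, h, hu, h2, e0, q4, key, z2, q2, h1.h2 _ (h.memA u hu), h2.h2 _ (h.memB u hu), mul_nonneg e0 (q4 u hu),
      mul_le_mul_of_nonneg_left (key u hu).2.2.1 e0, mul_le_mul_of_nonneg_right z2 (q2 u hu)]
  · rw [hsum (fun i x _ => (r i - k i) * x) u u]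
    linarith only [h1, h, hu, h2, h0, q3, key, e0, z2, q1, h1.h1 _ (h.memA u hu), h2.h1 _ (h.memB u hu), mul_nonneg h0 (q3 u hu),
      (key u hu).2.2.2, mul_le_mul_of_nonneg_left (key u hu).2.1 e0,
      mul_le_mul_of_nonneg_right z2 (q1 u hu)]
  · rw [hsum (fun i x _ => k i * x) u u, ← h.md u hu]
    linarith only [h1, h, hu, h2, h0, q4, key, z2, q2, hζ, hδ, h1.hk _ (h.memA u hu), h2.hk _ (h.memB u hu), mul_nonneg h0 (q4 u hu),
      mul_le_mul_of_nonneg_left (key u hu).2.2.1 h0, mul_le_mul_of_nonneg_right z2 (q2 u hu),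
      mul_nonneg hζ.le (q2 u hu), mul_nonneg hδ (Md_nonneg (W u))]
  · rw [hsum (fun _ x y => x * y) u v]
    linarith only [h, hu, hv, h1, h2, v1, h.mix u hu v hv, h1.hR _ (h.memA u hu) _ (h.memA v hv),
      h2.hR _ (h.memB u hu) _ (h.memB v hv), mul_le_mul_of_nonneg_left (v1 v hv).1 (h1.ν0 (A u)),
      mul_le_mul_of_nonneg_left (v1 v hv).2 (h2.ν0 (B u)),
      mul_le_mul_of_nonneg_right (v1 u hu).1 (h1.ν0 (A v)),
      mul_le_mul_of_nonneg_right (v1 u hu).2 (h2.ν0 (B v))]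
  · obtain ⟨w, w1, w2, w3, w4⟩ : ∃ w ∈ H0 Ω, ‖val w‖ = 1 ∧ qd 1 w ≤ s * ((1 + η₀) * r i) ∧
        qd (1 + δ) w ≤ s * (r i - k i + η₀) := by
      rcases Finset.mem_union.1 hi with hi | hi
      · exact (h1.test i hi).imp fun w hw => ⟨H0_mono s1 hw.1, hw.2⟩
      · exact (h2.test i hi).imp fun w hw => ⟨H0_mono s2 hw.1, hw.2⟩
    exact ⟨w, w1, w2, w3.trans (mul_le_mul_of_nonneg_left
      (mul_le_mul_of_nonneg_right (by linarith only [hη]) (hr i)) hs),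
      w4.trans (mul_le_mul_of_nonneg_left (by linarith only [hη]) hs)⟩
  · rw [hsum (fun i x _ => k i * x) u u, ← h.md u hu]
    linarith only [h1, h, hu, h2, hδ, hδη, q3, key, h0, z2, q1, hζ, h1.hk' _ (h.memA u hu), h2.hk' _ (h.memB u hu),
      mul_le_mul_of_nonneg_left (DecX_neck hδ h hu) hδ, mul_le_mul_of_nonneg_right hδη (q3 u hu),
      mul_le_mul_of_nonneg_left (key u hu).2.1 h0, mul_le_mul_of_nonneg_right z2 (q1 u hu),
      mul_nonneg hζ.le (q1 u hu)]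
  · obtain ⟨w, w1, w2, w3⟩ : ∃ w ∈ H0 Ω, ‖val w‖ = 1 ∧
        qd (1 + δ) w ≤ s * ((1 + η₀) * (r i - k i)) ∧ qd 1 w ≤ s * ((1 + η₀) * r i) ∧
        s * (r i - k i) ≤ (1 + η₀) * qd (1 + δ) w ∧ s * r i ≤ (1 + η₀) * qd 1 w := by
      rcases Finset.mem_union.1 hi with hi | hi
      · exact (h1.test' i hi).imp fun w hw => ⟨H0_mono s1 hw.1, hw.2⟩
      · exact (h2.test' i hi).imp fun w hw => ⟨H0_mono s2 hw.1, hw.2⟩
    exact ⟨w, w1, w2, DecX_test (hr i) (hw i) hs hη.le (q1 w w1) (q2 w w1) w3⟩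

end CritSys
end
end

-- merged part: Pool.Agent.Work.MP_80ee1d_an.U.NearK
section
/-!
Almost minimisers of the Rayleigh quotient.

PLAN. `near_K`: `φ, γ` from `exists_eig`, `K = M φ φ > 0`, `‖φ‖² = Λ K`.  Write `u = a • φ + h` with
`a = M u φ / K`, `M h φ = 0`, so `⟪φ, h⟫ = 0`, `‖u‖² = a² Λ K + ‖h‖²`, `M u u = a² K + M h h`.  The gap gives
`γ ‖h‖² ≤ ‖u‖² - Λ M u u ≤ ρ Λ M u u ≤ ρ (a² Λ K + ‖h‖²)`, so `‖h‖² ≤ 2 ρ Λ K a² / γ` for `ρ ≤ γ / 2`.  Then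
`0 ≤ M h h ≤ ‖h‖² / Λ`, `| ‖val u‖ - |a| | ≤ ‖val h‖`, `S ‖val h‖² ≤ ‖h‖²`.
`near_tst`: apply this to `ctx d` and `BridgeA_tst d f hf` (`K_M`, `norm_valK`, `norm_incl`, `val_ofT`).
`OptT`: tests `f n → φ` (`mem_H0_iff`, `BridgeA_tendsto`); `M` is continuous (`T4_tendsto`), the strict
inequality `‖φ‖² < (1 + θ) Λ M φ φ` and `val φ ≠ 0` persist.
-/

open MeasureTheory Filter Topology
open scoped RealInnerProductSpace

noncomputable section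
namespace CritSys

theorem NearK_real {Λ K S γ θ : ℝ} (hΛ : 0 < Λ) (hK : 0 < K) (hS : 0 < S) (hγ : 0 < γ)
    (hθ : 0 < θ) : ∃ ρ : ℝ, 0 < ρ ∧ ∀ a n m v w : ℝ, 0 ≤ m → Λ * m ≤ n → γ * n ≤ n - Λ * m →
      a ^ 2 * (Λ * K) + n ≤ (1 + ρ) * Λ * (a ^ 2 * K + m) → 0 ≤ w → S * w ^ 2 ≤ n →
      |v - abs a| ≤ w → |a ^ 2 * K + m - K * v ^ 2| ≤ θ * (K * v ^ 2) := by
  obtain ⟨ε, e0, e1, e2⟩ : ∃ ε : ℝ, 0 < ε ∧ ε ≤ 1 / 2 ∧ ε ≤ θ / 16 :=
    ⟨min (1 / 2) (θ / 16), by positivity, min_le_left _ _, min_le_right _ _⟩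
  obtain ⟨ρ, r0, r1, r2⟩ : ∃ ρ : ℝ, 0 < ρ ∧ ρ ≤ γ * ε / 2 ∧ ρ ≤ ε ^ 2 * S * γ / (2 * Λ * K) :=
    ⟨min _ _, by positivity, min_le_left _ _, min_le_right _ _⟩
  refine ⟨ρ, r0, fun a n m v w m0 h1 h2 h3 w0 h4 h5 => ?_⟩
  rw [le_div_iff₀ (by positivity)] at r2
  rw [← sq_abs a] at h3 ⊢
  have b0 : 0 ≤ |a| := abs_nonneg a
  generalize |a| = b at h3 h5 b0 ⊢
  have n0 : 0 ≤ n := le_trans (by positivity) h1
  have r3 : ρ * n ≤ γ / 2 * n := mul_le_mul_of_nonneg_right (by linarith only [r0, r1, hγ, e1, mul_nonneg_of_nonpos_of_nonpos (le_of_lt (Mathlib.Tactic.Linarith.sub_neg_of_lt hγ)) (Mathlib.Tactic.Linarith.sub_nonpos_of_le e1)]) n0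
  have k1 : γ * n ≤ 2 * ρ * (b ^ 2 * (Λ * K)) := by
    have := mul_le_mul_of_nonneg_left h1 r0.le
    linarith only [h2, h3, r3, this]
  have k2 : m ≤ ε * (b ^ 2 * K) := by
    have q1 : 2 * ρ * (b ^ 2 * (Λ * K)) ≤ γ * ε * (b ^ 2 * (Λ * K)) :=
      mul_le_mul_of_nonneg_right (by linarith only [r1]) (by positivity)
    have q2 := mul_le_mul_of_nonneg_left h1 hγ.le
    have q3 : γ * Λ * m ≤ γ * Λ * (ε * (b ^ 2 * K)) := by linarith only [k1, q1, q2]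
    exact le_of_mul_le_mul_left q3 (by positivity)
  have k3 : w ≤ ε * b := by
    have q1 := mul_le_mul_of_nonneg_left r2 (sq_nonneg b)
    have q2 := mul_le_mul_of_nonneg_left h4 hγ.le
    have q3 : γ * S * w ^ 2 ≤ γ * S * (ε * b) ^ 2 := by linarith only [k1, q1, q2]
    exact (pow_le_pow_iff_left₀ w0 (by positivity) two_ne_zero).1
      (le_of_mul_le_mul_left q3 (by positivity))
  obtain ⟨k4, k5⟩ := abs_le.1 (h5.trans k3)
  have eb : ε * b ≤ 1 / 2 * b := mul_le_mul_of_nonneg_right e1 b0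
  have eb0 : 0 ≤ ε * b := by positivity
  have k6 : b ^ 2 / 4 ≤ v ^ 2 := by (refine le_of_not_gt fun h_nl => ?_; linarith only [h_nl, e1, e0, b0, k4, eb, mul_nonneg_of_nonpos_of_nonpos (Mathlib.Tactic.Linarith.sub_nonpos_of_le (sq_nonneg b)) (Mathlib.Tactic.Linarith.sub_nonpos_of_le e1), mul_pos_of_neg_of_neg (Mathlib.Tactic.Linarith.sub_neg_of_lt e0) (Mathlib.Tactic.Linarith.sub_neg_of_lt h_nl), mul_nonneg_of_nonpos_of_nonpos (Mathlib.Tactic.Linarith.sub_nonpos_of_le e1) (le_of_lt (Mathlib.Tactic.Linarith.sub_neg_of_lt h_nl)), mul_nonneg_of_nonpos_of_nonpos (Mathlib.Tactic.Linarith.sub_nonpos_of_le b0) (Mathlib.Tactic.Linarith.sub_nonpos_of_le k4), mul_nonneg_of_nonpos_of_nonpos (Mathlib.Tactic.Linarith.sub_nonpos_of_le k4) (Mathlib.Tactic.Linarith.sub_nonpos_of_le k4), mul_nonneg_of_nonpos_of_nonpos (Mathlib.Tactic.Linarith.sub_nonpos_of_le k4) (Mathlib.Tactic.Linarith.sub_nonpos_of_le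 eb), mul_nonneg_of_nonpos_of_nonpos (Mathlib.Tactic.Linarith.sub_nonpos_of_le eb) (Mathlib.Tactic.Linarith.sub_nonpos_of_le eb)])
  have k7 : v ^ 2 ≤ b ^ 2 + 3 * ε * b ^ 2 := by (refine le_of_not_gt fun h_nl => ?_; linarith only [h_nl, e0, e1, w0, eb, b0, k5, k3, k4, mul_nonneg_of_nonpos_of_nonpos (Mathlib.Tactic.Linarith.sub_nonpos_of_le (sq_nonneg b)) (le_of_lt (Mathlib.Tactic.Linarith.sub_neg_of_lt e0)), mul_pos_of_neg_of_neg (Mathlib.Tactic.Linarith.sub_neg_of_lt e0) (Mathlib.Tactic.Linarith.sub_neg_of_lt h_nl), mul_nonneg_of_nonpos_of_nonpos (Mathlib.Tactic.Linarith.sub_nonpos_of_le e1) (le_of_lt (Mathlib.Tactic.Linarith.sub_neg_of_lt h_nl)), mul_nonneg_of_nonpos_of_nonpos (Mathlib.Tactic.Linarith.sub_nonpos_of_le w0) (Mathlib.Tactic.Linarith.sub_nonpos_of_le eb), mul_nonneg_of_nonpos_of_nonpos (Mathlib.Tactic.Linarith.sub_nonpos_of_le b0) (Mathlib.Tactic.Linarith.sub_nonpos_of_le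 k5), mul_nonneg_of_nonpos_of_nonpos (Mathlib.Tactic.Linarith.sub_nonpos_of_le k3) (Mathlib.Tactic.Linarith.sub_nonpos_of_le eb), mul_nonneg_of_nonpos_of_nonpos (Mathlib.Tactic.Linarith.sub_nonpos_of_le k4) (Mathlib.Tactic.Linarith.sub_nonpos_of_le k5)])
  have k8 : b ^ 2 - 3 * ε * b ^ 2 ≤ v ^ 2 := by (refine le_of_not_gt fun h_nl => ?_; linarith only [h_nl, e0, k6, e1, w0, k3, k5, b0, k4, sq_nonneg w, mul_nonneg_of_nonpos_of_nonpos (le_of_lt (Mathlib.Tactic.Linarith.sub_neg_of_lt e0)) (Mathlib.Tactic.Linarith.sub_nonpos_of_le k6), mul_pos_of_neg_of_neg (Mathlib.Tactic.Linarith.sub_neg_of_lt e0) (Mathlib.Tactic.Linarith.sub_neg_of_lt h_nl), mul_nonneg_of_nonpos_of_nonpos (Mathlib.Tactic.Linarith.sub_nonpos_of_le e1) (le_of_lt (Mathlib.Tactic.Linarith.sub_neg_of_lt h_nl)), mul_nonneg_of_nonpos_of_nonpos (Mathlib.Tactic.Linarith.sub_nonpos_of_le w0) (Mathlib.Tactic.Linarith.sub_nonpos_of_le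 k3), mul_nonneg_of_nonpos_of_nonpos (Mathlib.Tactic.Linarith.sub_nonpos_of_le w0) (Mathlib.Tactic.Linarith.sub_nonpos_of_le k5), mul_nonneg_of_nonpos_of_nonpos (Mathlib.Tactic.Linarith.sub_nonpos_of_le b0) (Mathlib.Tactic.Linarith.sub_nonpos_of_le k4), mul_nonneg_of_nonpos_of_nonpos (Mathlib.Tactic.Linarith.sub_nonpos_of_le k3) (Mathlib.Tactic.Linarith.sub_nonpos_of_le k3), mul_nonneg_of_nonpos_of_nonpos (Mathlib.Tactic.Linarith.sub_nonpos_of_le k3) (Mathlib.Tactic.Linarith.sub_nonpos_of_le k5), mul_nonneg_of_nonpos_of_nonpos (Mathlib.Tactic.Linarith.sub_nonpos_of_le k4) (Mathlib.Tactic.Linarith.sub_nonpos_of_le k4)])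
  have k9 : 4 * ε * b ^ 2 ≤ θ * v ^ 2 := by
    have q1 := mul_le_mul_of_nonneg_left k6 hθ.le
    have q2 := mul_le_mul_of_nonneg_right e2 (sq_nonneg b)
    linarith only [q1, q2]
  have j7 := mul_le_mul_of_nonneg_left k7 hK.le
  have j8 := mul_le_mul_of_nonneg_left k8 hK.le
  have j9 := mul_le_mul_of_nonneg_left k9 hK.le
  have j0 : 0 ≤ ε * (b ^ 2 * K) := by positivity
  rw [abs_le]
  constructor <;> linarith only [m0, k2, j7, j9, j8]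

theorem Ctx.near_K {X : Type} [MeasurableSpace X] {H : Type} [NormedAddCommGroup H]
    [InnerProductSpace ℝ H] [CompleteSpace H] [TopologicalSpace.SeparableSpace H] {μ : Measure X}
    [IsFiniteMeasure μ] (C : Ctx H μ) : ∃ K : ℝ, 0 < K ∧ (∃ φ, φ ≠ 0 ∧ ‖φ‖ ^ 2 = C.Λ * C.M φ φ) ∧
      ∀ θ : ℝ, 0 < θ → ∃ ρ : ℝ, 0 < ρ ∧ ∀ u, ‖u‖ ^ 2 ≤ (1 + ρ) * C.Λ * C.M u u →
        |C.M u u - K * ‖C.val u‖ ^ 2| ≤ θ * (K * ‖C.val u‖ ^ 2) := by
  obtain ⟨φ, γ, E⟩ := C.exists_eig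
  have φ0 := E.pos.ne_zero
  have hK := C.M_pos φ0
  have hφ : ‖φ‖ ^ 2 = C.Λ * C.M φ φ := by rw [← E.eq φ, real_inner_self_eq_norm_sq]
  refine ⟨C.M φ φ, hK, ⟨φ, φ0, hφ⟩, fun θ hθ => ?_⟩
  obtain ⟨ρ, r0, hρ⟩ := NearK_real C.Lam_pos hK C.S_pos E.γ_pos hθ
  refine ⟨ρ, r0, fun u hu => ?_⟩
  obtain ⟨a, h, rfl, h0⟩ : ∃ (a : ℝ) (h : H), u = a • φ + h ∧ C.M h φ = 0 := by
    refine ⟨C.M u φ / C.M φ φ, u - (C.M u φ / C.M φ φ) • φ, by abel, ?_⟩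
    rw [C.M_sub1, C.M_smul1, div_mul_cancel₀ _ hK.ne', sub_self]
  have h1 : ⟪φ, h⟫ = 0 := by rw [E.eq, C.M_comm, h0, mul_zero]
  have h2 : ‖a • φ + h‖ ^ 2 = a ^ 2 * (C.Λ * C.M φ φ) + ‖h‖ ^ 2 := by
    rw [norm_add_sq_real, real_inner_smul_left, h1, norm_smul, mul_pow, hφ, Real.norm_eq_abs,
      sq_abs]
    ring
  have h3 : C.M (a • φ + h) (a • φ + h) = a ^ 2 * C.M φ φ + C.M h h := by
    rw [C.M_add1, C.M_add2, C.M_add2, C.M_smul1, C.M_smul1, C.M_smul2, C.M_smul2, C.M_comm φ h,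
      h0]
    ring
  rw [h2, h3] at hu
  rw [h3]
  refine hρ a _ _ _ ‖C.val h‖ (C.M_nonneg h) (C.poin' h) (E.gap h h0) hu (norm_nonneg _)
    (C.sob h) ?_
  have h4 : |a| = ‖C.val (a • φ)‖ := by
    rw [map_smul, norm_smul, E.norm, mul_one, Real.norm_eq_abs]
  rw [h4, map_add]
  simpa only [add_sub_cancel_left] using abs_norm_sub_norm_le (C.val (a • φ) + C.val h)
    (C.val (a • φ))

/-- Poincare inequality. -/
def PoinT (Ω : Set E4) (Λ : ℝ) : Prop :=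
  ∀ f : Tst, tsupport (f : E4 → ℝ) ⊆ Ω → Λ * I2 f ≤ ‖ofT f‖ ^ 2

/-- The constant is optimal. -/
def OptT (Ω : Set E4) (Λ : ℝ) : Prop :=
  ∀ θ : ℝ, 0 < θ → ∃ f : Tst, tsupport (f : E4 → ℝ) ⊆ Ω ∧ 0 < N4 f ∧
    ‖ofT f‖ ^ 2 ≤ (1 + θ) * Λ * I2 f

/-- Almost minimisers have almost the ratio `K` of the `L²` and `L⁴` norms. -/
def NearT (Ω : Set E4) (Λ K θ ρ : ℝ) : Prop :=
  ∀ f : Tst, tsupport (f : E4 → ℝ) ⊆ Ω → ‖ofT f‖ ^ 2 ≤ (1 + ρ) * Λ * I2 f →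
    |I2 f - K * N4 f| ≤ θ * (K * N4 f)

theorem NearK_M {d : Dom} (f : Tst) (hf : tsupport (f : E4 → ℝ) ⊆ d.Ω) :
    (ctx d).M (BridgeA_tst d f hf) (BridgeA_tst d f hf) = I2 f := by
  rw [(K_M _).2]
  refine integral_congr_ae ?_
  filter_upwards [val_ofT f] with x hx
  rw [← hx]
  rfl

theorem NearK_N {d : Dom} (f : Tst) (hf : tsupport (f : E4 → ℝ) ⊆ d.Ω) :
    ‖(ctx d).val (BridgeA_tst d f hf)‖ ^ 2 = N4 f :=
  congrArg (· ^ 2) (norm_valK d (BridgeA_tst d f hf))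

theorem NearK_norm {d : Dom} (f : Tst) (hf : tsupport (f : E4 → ℝ) ⊆ d.Ω) :
    ‖BridgeA_tst d f hf‖ = ‖ofT f‖ := rfl

theorem near_tst (d : Dom) : ∃ Λ K : ℝ, 0 < Λ ∧ 0 < K ∧ PoinT d.Ω Λ ∧ OptT d.Ω Λ ∧
    ∀ θ : ℝ, 0 < θ → ∃ ρ : ℝ, 0 < ρ ∧ NearT d.Ω Λ K θ ρ := by
  obtain ⟨K, hK, ⟨φ, φ0, hφ⟩, H⟩ := (ctx d).near_K
  have hΛ := (ctx d).Lam_pos
  refine ⟨(ctx d).Λ, K, hΛ, hK, fun f hf => ?_, fun θ hθ => ?_, fun θ hθ => ?_⟩
  · rw [← NearK_M f hf, ← NearK_norm f hf]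
    exact (ctx d).poin' _
  · obtain ⟨f, hf, h⟩ := mem_H0_iff.1 (incl_mem d φ)
    have h1 := BridgeA_tendsto hf h
    have h2 := ((ctx d).val.continuous.tendsto φ).comp h1
    have h3 : Tendsto (fun n => (1 + θ) * (ctx d).Λ * I2 (f n)) atTop
        (𝓝 ((1 + θ) * (ctx d).Λ * (ctx d).M φ φ)) := by
      refine Tendsto.const_mul _ ?_
      simp only [← fun n => NearK_M (f n) (hf n)]
      exact T4_tendsto tendsto_const_nhds tendsto_const_nhds h2 h2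
    have h4 : Tendsto (fun n => ‖ofT (f n)‖ ^ 2) atTop (𝓝 (‖φ‖ ^ 2)) := h1.norm.pow 2
    have h5 : Tendsto (fun n => N4 (f n)) atTop (𝓝 (‖(ctx d).val φ‖ ^ 2)) := by
      simp only [← fun n => NearK_N (f n) (hf n)]
      exact h2.norm.pow 2
    have h6 : ‖φ‖ ^ 2 < (1 + θ) * (ctx d).Λ * (ctx d).M φ φ := by
      have := mul_pos hθ (mul_pos hΛ ((ctx d).M_pos φ0))
      rw [hφ]
      linarith
    have h7 : 0 < ‖(ctx d).val φ‖ ^ 2 :=
      pow_pos (norm_pos_iff.2 fun h => φ0 ((ctx d).inj φ h)) 2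
    obtain ⟨n, k1, k2⟩ := ((h4.eventually_lt h3 h6).and (h5.eventually_const_lt h7)).exists
    exact ⟨f n, hf n, k2, k1.le⟩
  · obtain ⟨ρ, r0, hρ⟩ := H θ hθ
    refine ⟨ρ, r0, fun f hf h => ?_⟩
    rw [← NearK_M f hf, ← NearK_N f hf]
    refine hρ _ ?_
    rwa [NearK_M f hf, NearK_norm f hf]

end CritSys
end
end

-- merged part: Pool.Agent.Work.MP_80ee1d_an.U.Well
section
/-!
A single well.

PLAN. Write `r = r i`, `k = k i`, `y = r s / (c k)`, `Λ = 1 / (1 - y) > 1`, `K = (1 - y) c k`,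
`δ = s / ((1 - e) c)`, `θ = e / 2`; then `(Λ - 1) K = r s`, `δ K = s k (1 - y) / (1 - e)`.
Smallness of `e ∈ (0, 1)`: `1 ≤ (1 + η)(1 - θ)`, `k / (1 - e) < r`,
`r - k ≤ (1 + η)(1 - θ)(r - k / (1 - e))`, `θ < η`, `θ (r - k) < η`.  Smallness of `s`: `y ≤ e / 2`,
`δ ≤ ρ / 2`, `s r ≤ σ`, `s k ≤ η σ` with `σ = S0 ρ / (2 (1 + ρ))`.
For a test `f` with `G = ‖ofT f‖²`, `I = I2 f`, `N = N4 f` prove the four inequalities
`s r N ≤ (1 + η)(G - I)`, `s (r - k) N ≤ (1 + η)(G - (1 + δ) I)`, `s k N ≤ η (G - I) + δ I`,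
`(1 - (1 + δ) / Λ) G ≤ G - (1 + δ) I` (a lemma on real numbers).  If `G ≤ (1 + ρ) Λ I` then
`I ≥ (1 - θ) K N`, `G - I ≥ (Λ - 1) I`, `(Λ - 1 - δ) K ≥ s (r - k / (1 - e)) > 0`,
`(1 - θ)(1 - y) ≥ 1 - e`.  Otherwise `G ≥ (1 + ρ) I`, so `G - (1 + δ) I ≥ ρ / (2 (1 + ρ)) G ≥ σ N`
(`S0_le`).  Pass to `H0 Ω` with `H0_approx`; `m u j = ‖val u‖²`, `ν = 0`, `T4A_sq`.
Test function: `f` from `OptT` with a small `θ' ≤ ρ`, `I ≤ (1 + θ) K N`, normalise (`Md_smul`, `Md_ofT`):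
`G - I ≤ (1 + θ)(r s + θ' c k) N` and `G - (1 + δ) I ≤ (1 + θ)(s (r - k) + θ' c k) N` since
`1 - e ≤ 1 - y`.
-/

open MeasureTheory Filter Topology Metric
open scoped ContDiff RealInnerProductSpace ENNReal

noncomputable section
namespace CritSys

variable {ι : Type} [DecidableEq ι]

theorem Well_ev {f g : ℝ → ℝ} (hf : Continuous f) (hg : Continuous g) (h : f 0 < g 0) :
    ∀ᶠ x in 𝓝[>] (0 : ℝ), f x < g x :=
  (hf.continuousAt.eventually_lt hg.continuousAt h).filter_mono nhdsWithin_le_nhds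

/-- The relations between the constants. -/
structure Well_Par (Λ K δ θ ρ η σ S R Q H : ℝ) : Prop where
  K0 : 0 < K
  δ0 : 0 < δ
  θ0 : 0 < θ
  ρ0 : 0 < ρ
  Q0 : 0 < Q
  QR : Q < R
  p1 : (Λ - 1) * K = R
  p2 : Q ≤ (1 - θ) * (δ * K)
  p3 : R - Q ≤ (1 + η) * (1 - θ) * (R - δ * K)
  p4 : 1 ≤ (1 + η) * (1 - θ)
  p5 : δ ≤ ρ / 2
  p6 : R ≤ σ
  p7 : Q ≤ η * σ
  p8 : (1 + ρ) * σ = ρ / 2 * S
  p9 : θ < η
  p10 : θ * (R - Q) < H

section

variable {Λ K δ θ ρ η σ S R Q H G I N : ℝ}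

theorem Well_Par.lt (h : Well_Par Λ K δ θ ρ η σ S R Q H) : 1 + δ < Λ := by
  have h1 : 0 < R - δ * K :=
    (pos_iff_pos_of_mul_pos ((sub_pos.2 h.QR).trans_le h.p3)).1 (one_pos.trans_le h.p4)
  exact lt_of_mul_lt_mul_right (by linarith [h.p1]) h.K0.le

theorem Well_Par.four (h : Well_Par Λ K δ θ ρ η σ S R Q H) (hI : 0 ≤ I) (hN : 0 ≤ N)
    (h1 : Λ * I ≤ G) (h2 : S * N ≤ G)
    (h3 : G ≤ (1 + ρ) * Λ * I → |I - K * N| ≤ θ * (K * N)) :
    R * N ≤ (1 + η) * (G - I) ∧ (R - Q) * N ≤ (1 + η) * (G - (1 + δ) * I) ∧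
      Q * N ≤ η * (G - I) + δ * I ∧ (1 - (1 + δ) / Λ) * G ≤ G - (1 + δ) * I := by
  have l := h.lt
  have δ0 := h.δ0
  have η0 := h.θ0.trans h.p9
  have a1 := mul_le_mul_of_nonneg_right l.le hI
  have a2 := mul_nonneg δ0.le hI
  have a3 : 0 ≤ η * (G - (1 + δ) * I) := mul_nonneg η0.le (by linarith)
  have a4 := mul_nonneg η0.le a2
  have a5 := mul_nonneg h.Q0.le hN
  rw [← and_assoc, ← and_assoc, and_assoc (a := R * N ≤ _)]
  refine ⟨?_, ?_⟩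
  · by_cases hc : G ≤ (1 + ρ) * Λ * I
    · have b1 : (1 - θ) * (K * N) ≤ I := by linarith only [h3, hc, (abs_le.1 (h3 hc)).1]
      have b2 := mul_le_mul_of_nonneg_left b1 (by linarith : 0 ≤ Λ - 1)
      have b3 := mul_le_mul_of_nonneg_left b1 (by linarith : 0 ≤ Λ - 1 - δ)
      have b4 : (1 - θ) * (R * N) ≤ G - I := by rw [← h.p1]; linarith
      have b5 : (1 - θ) * ((R - δ * K) * N) ≤ G - (1 + δ) * I := by rw [← h.p1]; linarith
      refine ⟨?_, ?_, ?_⟩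
      · linarith only [b4, η0, h, hN, mul_le_mul_of_nonneg_left b4 (by linarith : 0 ≤ 1 + η),
          mul_le_mul_of_nonneg_right h.p4 (mul_nonneg (h.Q0.trans h.QR).le hN)]
      · linarith only [b5, η0, h, hN, mul_le_mul_of_nonneg_left b5 (by linarith : 0 ≤ 1 + η),
          mul_le_mul_of_nonneg_right h.p3 hN]
      · linarith only [a3, a4, b1, δ0, h, hN, mul_le_mul_of_nonneg_left b1 δ0.le, mul_le_mul_of_nonneg_right h.p2 hN]
    · have ρ0 := h.ρ0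
      have b1 : (1 + ρ) * I ≤ G := by
        linarith only [hc, a1, a2, ρ0, mul_le_mul_of_nonneg_left (by linarith : I ≤ Λ * I) (by linarith : 0 ≤ 1 + ρ)]
      have b2 : σ * N ≤ G - (1 + δ) * I := le_of_mul_le_mul_left (a := 1 + ρ) (by
        rw [← mul_assoc, h.p8]
        linarith only [b1, δ0, h2, ρ0, h, hI, h1, a1, a2, mul_le_mul_of_nonneg_left b1 (by linarith : 0 ≤ 1 + δ),
          mul_le_mul_of_nonneg_left h2 (by linarith : 0 ≤ ρ / 2),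
          mul_le_mul_of_nonneg_right h.p5 (by linarith : 0 ≤ G)]) (by linarith)
      have b3 := mul_le_mul_of_nonneg_right h.p6 hN
      have b4 := mul_le_mul_of_nonneg_right h.p7 hN
      have b5 := mul_le_mul_of_nonneg_left b2 η0.le
      exact ⟨by linarith, by linarith, by linarith only [a2, a4, b4, b5]⟩
  · have := mul_le_mul_of_nonneg_left ((le_div_iff₀' (by linarith)).2 h1) (by linarith : 0 ≤ 1 + δ)
    rw [sub_mul, div_mul_eq_mul_div, mul_div_assoc]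
    linarith only [this]

theorem Well_Par.test (h : Well_Par Λ K δ θ ρ η σ S R Q H) : ∃ t, 0 < t ∧ ∀ G I N : ℝ, 0 ≤ I →
    0 ≤ N → G ≤ (1 + t) * Λ * I → (G ≤ (1 + ρ) * Λ * I → |I - K * N| ≤ θ * (K * N)) →
      G - I ≤ (1 + η) * R * N ∧ G - (1 + δ) * I ≤ (R - Q + H) * N := by
  have l := h.lt
  have δ0 := h.δ0
  have θ0 := h.θ0
  obtain ⟨t, ⟨⟨t1, t2⟩, t3⟩, t0⟩ := ((((Well_ev continuous_id continuous_const h.ρ0).and
    (Well_ev (f := fun t => (1 + θ) * (R + t * (Λ * K))) (g := fun _ => (1 + η) * R) (by fun_prop)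
      continuous_const (by linarith [mul_lt_mul_of_pos_right h.p9 (h.Q0.trans h.QR)]))).and
    (Well_ev (f := fun t => (1 + θ) * (R - Q + t * (Λ * K))) (g := fun _ => R - Q + H)
      (by fun_prop) continuous_const (by linarith [h.p10]))).and self_mem_nhdsWithin).exists
  refine ⟨t, t0, fun G I N hI hN h1 h2 => ?_⟩
  have a0 := mul_pos (show 0 < t from t0) (by linarith : 0 < Λ)
  have a7 := mul_le_mul_of_nonneg_right (show t ≤ ρ from t1.le)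
    (mul_nonneg (by linarith : 0 ≤ Λ) hI)
  have a1 : I ≤ (1 + θ) * (K * N) := by linarith only [h2, h1, a7, (abs_le.1 (h2 (by linarith))).2]
  have a2 := mul_le_mul_of_nonneg_left a1 (by linarith : 0 ≤ Λ - 1 + t * Λ)
  have a3 := mul_le_mul_of_nonneg_left a1 (by linarith : 0 ≤ Λ - 1 - δ + t * Λ)
  have a4 := mul_le_mul_of_nonneg_right t2.le hN
  have a5 := mul_le_mul_of_nonneg_right t3.le hN
  have a6 := mul_le_mul_of_nonneg_left (by linarith [h.p2, mul_pos θ0 (mul_pos δ0 h.K0)] :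
    Q ≤ δ * K) (mul_nonneg (by linarith : 0 ≤ 1 + θ) hN)
  rw [← h.p1] at a4 a5 ⊢
  exact ⟨by linarith only [h1, a2, a4], by linarith only [h1, a3, a5, a6]⟩

end

theorem Well_par {r k c η S : ℝ} (hk : 0 < k) (hr : k < r) (hc : 0 < c) (hη : 0 < η) (hS : 0 < S) :
    ∀ᶠ e in 𝓝[>] (0 : ℝ), ∀ ρ : ℝ, 0 < ρ → ∀ᶠ s in 𝓝[>] (0 : ℝ),
      Well_Par (1 / (1 - r * s / (c * k))) ((1 - r * s / (c * k)) * (c * k)) (s / ((1 - e) * c))
        (e / 2) ρ η (ρ / 2 * S / (1 + ρ)) S (s * r) (s * k) (s * η) := by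
  filter_upwards [self_mem_nhdsWithin, Well_ev continuous_id continuous_const one_pos,
    Well_ev (f := fun _ => 1) (g := fun e => (1 + η) * (1 - e / 2)) continuous_const (by fun_prop)
      (by linarith),
    Well_ev (f := fun e => (r - k) * (1 - e)) (g := fun e => (1 + η) * (1 - e / 2) *
      (r * (1 - e) - k)) (by fun_prop) (by fun_prop) (by linarith only [hη, hr, mul_pos hη (sub_pos.2 hr)]),
    Well_ev (f := fun e => e / 2) (g := fun _ => η) (by fun_prop) continuous_const (by linarith),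
    Well_ev (f := fun e => e / 2 * (r - k)) (g := fun _ => η) (by fun_prop) continuous_const
      (by linarith only [hη])] with e e0 e1 e2 e3 e4 e5 ρ hρ
  replace e0 : 0 < e := e0
  replace e1 : 0 < 1 - e := sub_pos.2 e1
  have hσ : 0 < ρ / 2 * S / (1 + ρ) := by positivity
  filter_upwards [self_mem_nhdsWithin,
    Well_ev (f := fun s => r * s / (c * k)) (g := fun _ => e / 2) (by fun_prop) continuous_const
      (by simpa using e0),
    Well_ev (f := fun s => s / ((1 - e) * c)) (g := fun _ => ρ / 2) (by fun_prop) continuous_const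
      (by simpa using hρ),
    Well_ev (f := fun s => s * r) (by fun_prop) continuous_const ((zero_mul r).trans_lt hσ),
    Well_ev (f := fun s => s * k) (by fun_prop) continuous_const
      ((zero_mul k).trans_lt (mul_pos hη hσ))] with s s0 s1 s2 s3 s4
  replace s0 : 0 < s := s0
  have y0 : 0 < r * s / (c * k) := div_pos (mul_pos (hk.trans hr) s0) (mul_pos hc hk)
  have y1 := div_mul_cancel₀ (r * s) (mul_pos hc hk).ne'
  have d0 : 0 < s / ((1 - e) * c) := by positivity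
  have d1 := div_mul_cancel₀ s (mul_pos e1 hc).ne'
  generalize r * s / (c * k) = y at *
  generalize s / ((1 - e) * c) = δ at *
  have y2 : 0 < 1 - y := by linarith only [e1, s1, y0]
  have d2 : (1 - e) * (δ * ((1 - y) * (c * k))) = s * k * (1 - y) := by rw [← d1]; ring
  have sk := mul_pos s0 hk
  refine ⟨by positivity, d0, half_pos e0, hρ, sk, mul_lt_mul_of_pos_left hr s0, ?_,
    le_of_mul_le_mul_left ?_ e1, le_of_mul_le_mul_left ?_ e1, e2.le, s2.le, s3.le, s4.le,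
    mul_div_cancel₀ _ (by positivity), e4, by linarith only [e5, s0, mul_lt_mul_of_pos_left e5 s0]⟩
  · rw [sub_mul, ← mul_assoc, one_div_mul_cancel y2.ne']
    linarith only [y1]
  · rw [mul_left_comm _ (1 - e / 2), d2]
    linarith only [s1, e0, y0, sk, mul_le_mul_of_nonneg_left (by nlinarith : 1 - e ≤ (1 - e / 2) * (1 - y)) sk.le]
  · rw [mul_left_comm _ ((1 + η) * _), mul_sub (1 - e) (s * r) (δ * _), d2]
    linarith only [e3, s0, e2, sk, y0, mul_lt_mul_of_pos_left e3 s0, mul_pos (one_pos.trans e2) (mul_pos sk y0)]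

omit [DecidableEq ι] in
theorem Well_dec (r k : ι → ℝ) (i : ι) {Λ K δ θ ρ η σ s : ℝ} {Ω : Set E4}
    (h : Well_Par Λ K δ θ ρ η σ S0 (s * r i) (s * k i) (s * η)) (hb : Bornology.IsBounded Ω)
    (h1 : PoinT Ω Λ) (h2 : OptT Ω Λ) (h3 : NearT Ω Λ K θ ρ) : Dec Ω {i} r k s δ η := by
  have l := h.lt
  have hI : ∀ f : Tst, 0 ≤ I2 f := fun f => integral_nonneg fun _ => sq_nonneg _
  have key : ∀ u ∈ H0 Ω, s * r i * ‖val u‖ ^ 2 ≤ (1 + η) * (‖u‖ ^ 2 - Md u) ∧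
      (s * r i - s * k i) * ‖val u‖ ^ 2 ≤ (1 + η) * (‖u‖ ^ 2 - (1 + δ) * Md u) ∧
      s * k i * ‖val u‖ ^ 2 ≤ η * (‖u‖ ^ 2 - Md u) + δ * Md u ∧
      (1 - (1 + δ) / Λ) * ‖u‖ ^ 2 ≤ ‖u‖ ^ 2 - (1 + δ) * Md u := fun u hu => by
    obtain ⟨f, f0, f1, f2, f3⟩ := H0_approx hb hu
    have := fun n => h.four (hI (f n)) (sq_nonneg _) (h1 _ (f0 n)) (S0_le _) (h3 _ (f0 n))
    exact ⟨le_of_tendsto_of_tendsto' (f3.const_mul _) ((f1.sub f2).const_mul _) fun n => (this n).1,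
      le_of_tendsto_of_tendsto' (f3.const_mul _) ((f1.sub (f2.const_mul _)).const_mul _)
        fun n => (this n).2.1,
      le_of_tendsto_of_tendsto' (f3.const_mul _) (((f1.sub f2).const_mul _).add (f2.const_mul _))
        fun n => (this n).2.2.1,
      le_of_tendsto_of_tendsto' (f1.const_mul _) (f1.sub (f2.const_mul _)) fun n => (this n).2.2.2⟩
  refine ⟨1 - (1 + δ) / Λ, fun u _ => ‖val u‖ ^ 2, fun _ => 0,
    sub_pos.2 ((div_lt_one (by linarith [h.δ0])).2 l), fun _ _ => sq_nonneg _, fun _ => le_rfl,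
    fun u _ => ?_, fun u hu => ?_, fun u hu => ?_, fun u hu => ?_, fun u _ v _ => ?_,
    fun u hu => (key u hu).2.2.2, fun j hj => ?_⟩
  · rw [Finset.sum_singleton, ← pow_mul]
  · rw [Finset.sum_singleton, qd]
    linarith only [key, hu, (key u hu).1]
  · rw [Finset.sum_singleton, qd]
    linarith only [key, hu, (key u hu).2.1]
  · rw [Finset.sum_singleton, qd]
    linarith [(key u hu).2.2.1]
  · rw [Finset.sum_singleton]
    linarith [T4A_sq (val u) (val v)]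
  · obtain ⟨t, t0, ht⟩ := h.test
    obtain ⟨f, f0, f1, f2⟩ := h2 t t0
    obtain ⟨a1, a2⟩ := ht _ _ _ (hI f) f1.le f2 (h3 f f0)
    have e : ∀ l, qd l (‖val (ofT f)‖⁻¹ • ofT f) = (‖ofT f‖ ^ 2 - l * I2 f) / N4 f := fun l => by
      rw [qd, Md_smul, Md_ofT, norm_smul, norm_inv, norm_norm, N4]
      ring
    refine ⟨‖val (ofT f)‖⁻¹ • ofT f, (H0 Ω).smul_mem _ (ofT_mem_H0 f0),
      (SpaceC_normalise fun e => f1.ne' (by rw [N4, e, norm_zero, zero_pow two_ne_zero])).1, ?_, ?_⟩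
    · rw [e, div_le_iff₀ f1, Finset.mem_singleton.1 hj]
      linarith only [a1]
    · rw [e, div_le_iff₀ f1, Finset.mem_singleton.1 hj]
      linarith

theorem well (r k : ι → ℝ) (i : ι) (hk : 0 < k i) (hr : k i < r i) {c η : ℝ} (hc : 0 < c)
    (hη : 0 < η) : ∀ᶠ e in 𝓝[>] (0 : ℝ), ∀ ρ : ℝ, 0 < ρ → ∀ᶠ s in 𝓝[>] (0 : ℝ), ∀ Ω : Set E4,
      Bornology.IsBounded Ω → PoinT Ω (1 / (1 - r i * s / (c * k i))) →
      OptT Ω (1 / (1 - r i * s / (c * k i))) →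
      NearT Ω (1 / (1 - r i * s / (c * k i))) ((1 - r i * s / (c * k i)) * (c * k i)) (e / 2) ρ →
      Dec Ω {i} r k s (s / ((1 - e) * c)) η := by
  filter_upwards [Well_par hk hr hc hη S0_pos] with e he ρ hρ
  filter_upwards [he ρ hρ] with s hs Ω hb h1 h2 h3 using Well_dec r k i hs hb h1 h2 h3

end CritSys
end
end

-- merged part: Pool.Agent.Work.MP_80ee1d_an.V.Well
section
/-!
A single well, with two-sided information.

PLAN. Adapt `Well_dec` and `well` of `U/Well.lean`; `Well_par`, `Well_Par.four`, `Well_Par.test` are reused.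
Letters of that file: `R = s r`, `Q = s k`, `θ = e / 2`, `δ K = Q (1 - y) / (1 - e) ≤ Q / (1 - e)`.
Two more relations hold for small `e` and then small `s`:
`((1 + θ) δ K - Q) (1 + η) ≤ η (R - Q)` (enough: `((1 + e / 2) / (1 - e) - 1) k (1 + η) ≤ η (r - k)`) and
`δ ≤ η ρ / 2`.  They give `δ I ≤ Q N + η (G - (1 + δ) I)` for tests: if `G ≤ (1 + ρ) Λ I` then
`I ≤ (1 + θ) K N` and `(R - Q) N ≤ (1 + η)(G - (1 + δ) I)` (`four`); otherwise `G ≥ (1 + ρ) I`, so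
`G - (1 + δ) I ≥ ρ / 2 I` (`p5`).  Pass to `H0 Ω` with `H0_approx`.
`test'`: rebuild `Well_Par` with `H = η (R - Q)` (`p10` from `p9`, `QR`) and with `H = s η`; the upper bounds
come from `Well_Par.test`, the lower bounds from `h1`, `h2` of the single well applied to the normalised
test function (`m w i = ‖val w‖² = 1`).
-/

open MeasureTheory Filter Topology Metric
open scoped ContDiff RealInnerProductSpace ENNReal

noncomputable section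
namespace CritSys

variable {ι : Type} [DecidableEq ι]

theorem WellG_five {Λ K δ θ ρ η σ S R Q H G I N : ℝ} (h : Well_Par Λ K δ θ ρ η σ S R Q H)
    (q1 : ((1 + θ) * (δ * K) - Q) * (1 + η) ≤ η * (R - Q)) (q2 : δ ≤ η * (ρ / 2)) (hI : 0 ≤ I)
    (hN : 0 ≤ N) (h1 : Λ * I ≤ G) (h2 : S * N ≤ G)
    (h3 : G ≤ (1 + ρ) * Λ * I → |I - K * N| ≤ θ * (K * N)) :
    δ * I ≤ Q * N + η * (G - (1 + δ) * I) := by
  have η0 := h.θ0.trans h.p9
  have δ0 := h.δ0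
  by_cases hc : G ≤ (1 + ρ) * Λ * I
  · have b1 : I ≤ (1 + θ) * (K * N) := by linarith only [h3, hc, (abs_le.1 (h3 hc)).2]
    refine le_of_mul_le_mul_left (a := 1 + η) ?_ (by linarith)
    linarith only [h, hI, hN, h1, h2, h3, η0, q1, b1, δ0, mul_le_mul_of_nonneg_left (h.four hI hN h1 h2 h3).2.1 η0.le,
      mul_le_mul_of_nonneg_right q1 hN,
      mul_le_mul_of_nonneg_left b1 (by positivity : 0 ≤ (1 + η) * δ)]
  · have ρ0 := h.ρ0
    have a1 := mul_le_mul_of_nonneg_right h.lt.le hI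
    have a2 := mul_nonneg δ0.le hI
    have b1 : (1 + ρ) * I ≤ G := by
      linarith only [hc, a1, a2, ρ0, mul_le_mul_of_nonneg_left (by linarith : I ≤ Λ * I) (by linarith : 0 ≤ 1 + ρ)]
    have b2 : ρ / 2 * I ≤ G - (1 + δ) * I := by linarith only [b1, h, hI, mul_le_mul_of_nonneg_right h.p5 hI]
    linarith only [b2, η0, q2, hI, h, hN, mul_le_mul_of_nonneg_left b2 η0.le, mul_le_mul_of_nonneg_right q2 hI,
      mul_nonneg h.Q0.le hN]

theorem WellG_par {r k c η : ℝ} (hk : 0 < k) (hr : k < r) (hc : 0 < c) (hη : 0 < η) :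
    ∀ᶠ e in 𝓝[>] (0 : ℝ), ∀ ρ : ℝ, 0 < ρ → ∀ᶠ s in 𝓝[>] (0 : ℝ),
      ((1 + e / 2) * (s / ((1 - e) * c) * ((1 - r * s / (c * k)) * (c * k))) - s * k) * (1 + η) ≤
        η * (s * r - s * k) ∧ s / ((1 - e) * c) ≤ η * (ρ / 2) := by
  filter_upwards [self_mem_nhdsWithin, Well_ev continuous_id continuous_const one_pos,
    Well_ev (f := fun e => ((1 + e / 2) * k - (1 - e) * k) * (1 + η))
      (g := fun e => η * (r - k) * (1 - e)) (by fun_prop) (by fun_prop)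
      (by linarith only [hη, hr, mul_pos hη (sub_pos.2 hr)])] with e e0 e1 e2 ρ hρ
  replace e0 : 0 < e := e0
  replace e1 : 0 < 1 - e := sub_pos.2 e1
  filter_upwards [self_mem_nhdsWithin,
    Well_ev (f := fun s => s / ((1 - e) * c)) (g := fun _ => η * (ρ / 2)) (by fun_prop)
      continuous_const (by simpa using mul_pos hη (half_pos hρ))] with s s0 s2
  replace s0 : 0 < s := s0
  have y0 : 0 < r * s / (c * k) := div_pos (mul_pos (hk.trans hr) s0) (mul_pos hc hk)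
  have d1 := div_mul_cancel₀ s (mul_pos e1 hc).ne'
  generalize r * s / (c * k) = y at *
  generalize s / ((1 - e) * c) = δ at *
  have d2 : (1 - e) * (δ * ((1 - y) * (c * k))) = s * k * (1 - y) := by rw [← d1]; ring
  refine ⟨le_of_mul_le_mul_left ?_ e1, s2.le⟩
  rw [← mul_assoc, mul_sub (1 - e), mul_left_comm _ (1 + e / 2), d2]
  linarith only [e2, s0, e0, hk, y0, hη, mul_lt_mul_of_pos_left e2 s0,
    (by positivity : 0 < (1 + e / 2) * (s * k * y) * (1 + η))]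

theorem WellG_test {Λ K δ θ ρ η σ S R Q H : ℝ} {Ω : Set E4} (h : Well_Par Λ K δ θ ρ η σ S R Q H)
    (h2 : OptT Ω Λ) (h3 : NearT Ω Λ K θ ρ) :
    ∃ w ∈ H0 Ω, ‖val w‖ = 1 ∧ qd 1 w ≤ (1 + η) * R ∧ qd (1 + δ) w ≤ R - Q + H := by
  obtain ⟨t, t0, ht⟩ := h.test
  obtain ⟨f, f0, f1, f2⟩ := h2 t t0
  obtain ⟨a1, a2⟩ := ht _ _ _ (integral_nonneg fun _ => sq_nonneg _) f1.le f2 (h3 f f0)
  have e : ∀ l, qd l (‖val (ofT f)‖⁻¹ • ofT f) = (‖ofT f‖ ^ 2 - l * I2 f) / N4 f := fun l => by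
    rw [qd, Md_smul, Md_ofT, norm_smul, norm_inv, norm_norm, N4]
    ring
  refine ⟨‖val (ofT f)‖⁻¹ • ofT f, (H0 Ω).smul_mem _ (ofT_mem_H0 f0),
    (SpaceC_normalise fun e => f1.ne' (by rw [N4, e, norm_zero, zero_pow two_ne_zero])).1, ?_, ?_⟩
  · rw [e, div_le_iff₀ f1, one_mul]
    exact a1
  · rw [e, div_le_iff₀ f1]
    exact a2

omit [DecidableEq ι] in
theorem WellG_dec (r k : ι → ℝ) (i : ι) {Λ K δ θ ρ η σ s : ℝ} {Ω : Set E4}
    (h : Well_Par Λ K δ θ ρ η σ S0 (s * r i) (s * k i) (s * η))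
    (q1 : ((1 + θ) * (δ * K) - s * k i) * (1 + η) ≤ η * (s * r i - s * k i)) (q2 : δ ≤ η * (ρ / 2))
    (hb : Bornology.IsBounded Ω) (h1 : PoinT Ω Λ) (h2 : OptT Ω Λ) (h3 : NearT Ω Λ K θ ρ) :
    DecG Ω {i} r k s δ η := by
  have hI : ∀ f : Tst, 0 ≤ I2 f := fun f => integral_nonneg fun _ => sq_nonneg _
  have key : ∀ u ∈ H0 Ω, (s * r i * ‖val u‖ ^ 2 ≤ (1 + η) * (‖u‖ ^ 2 - Md u) ∧
      (s * r i - s * k i) * ‖val u‖ ^ 2 ≤ (1 + η) * (‖u‖ ^ 2 - (1 + δ) * Md u) ∧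
      s * k i * ‖val u‖ ^ 2 ≤ η * (‖u‖ ^ 2 - Md u) + δ * Md u ∧
      (1 - (1 + δ) / Λ) * ‖u‖ ^ 2 ≤ ‖u‖ ^ 2 - (1 + δ) * Md u) ∧
      δ * Md u ≤ s * k i * ‖val u‖ ^ 2 + η * (‖u‖ ^ 2 - (1 + δ) * Md u) := fun u hu => by
    obtain ⟨f, f0, f1, f2, f3⟩ := H0_approx hb hu
    have := fun n => h.four (hI (f n)) (sq_nonneg _) (h1 _ (f0 n)) (S0_le _) (h3 _ (f0 n))
    exact ⟨⟨le_of_tendsto_of_tendsto' (f3.const_mul _) ((f1.sub f2).const_mul _)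
        fun n => (this n).1,
      le_of_tendsto_of_tendsto' (f3.const_mul _) ((f1.sub (f2.const_mul _)).const_mul _)
        fun n => (this n).2.1,
      le_of_tendsto_of_tendsto' (f3.const_mul _) (((f1.sub f2).const_mul _).add (f2.const_mul _))
        fun n => (this n).2.2.1,
      le_of_tendsto_of_tendsto' (f1.const_mul _) (f1.sub (f2.const_mul _))
        fun n => (this n).2.2.2⟩,
      le_of_tendsto_of_tendsto' (f2.const_mul _)
        ((f3.const_mul _).add ((f1.sub (f2.const_mul _)).const_mul _)) fun n =>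
        WellG_five h q1 q2 (hI (f n)) (sq_nonneg _) (h1 _ (f0 n)) (S0_le _) (h3 _ (f0 n))⟩
  refine ⟨1 - (1 + δ) / Λ, fun u _ => ‖val u‖ ^ 2, fun _ => 0,
    sub_pos.2 ((div_lt_one (by linarith only [h, h.δ0, h.lt])).2 h.lt), ⟨fun _ _ => sq_nonneg _,
    fun _ => le_rfl, fun u _ => ?_, fun u hu => ?_, fun u hu => ?_, fun u hu => ?_,
    fun u _ v _ => ?_, fun u hu => (key u hu).1.2.2.2, fun j hj => ?_⟩, fun u hu => ?_,
    fun j hj => ?_⟩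
  · rw [Finset.sum_singleton, ← pow_mul]
  · rw [Finset.sum_singleton, qd]
    linarith only [key, hu, (key u hu).1.1]
  · rw [Finset.sum_singleton, qd]
    linarith only [key, hu, (key u hu).1.2.1]
  · rw [Finset.sum_singleton, qd]
    linarith only [key, hu, (key u hu).1.2.2.1]
  · rw [Finset.sum_singleton]
    linarith only [T4A_sq (val u) (val v)]
  · obtain ⟨w, hw, a, b, c⟩ := WellG_test h h2 h3
    rw [Finset.mem_singleton.1 hj]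
    exact ⟨w, hw, a, by linarith, by linarith⟩
  · rw [Finset.sum_singleton, qd]
    linarith only [key, hu, (key u hu).2]
  · obtain ⟨w, hw, a, b, c⟩ := WellG_test (H := η * (s * r i - s * k i))
      { h with p10 := mul_lt_mul_of_pos_right h.p9 (sub_pos.2 h.QR) } h2 h3
    obtain ⟨⟨k1, k2, -⟩, -⟩ := key w hw
    rw [a] at k1 k2
    rw [Finset.mem_singleton.1 hj]
    refine ⟨w, hw, a, by linarith only [c], by linarith only [b], ?_, ?_⟩ <;> rw [qd] <;> linarith only [k2, k1]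

theorem wellG (r k : ι → ℝ) (i : ι) (hk : 0 < k i) (hr : k i < r i) {c η : ℝ} (hc : 0 < c)
    (hη : 0 < η) : ∀ᶠ e in 𝓝[>] (0 : ℝ), ∀ ρ : ℝ, 0 < ρ → ∀ᶠ s in 𝓝[>] (0 : ℝ), ∀ Ω : Set E4,
      Bornology.IsBounded Ω → PoinT Ω (1 / (1 - r i * s / (c * k i))) →
      OptT Ω (1 / (1 - r i * s / (c * k i))) →
      NearT Ω (1 / (1 - r i * s / (c * k i))) ((1 - r i * s / (c * k i)) * (c * k i)) (e / 2) ρ →
      DecG Ω {i} r k s (s / ((1 - e) * c)) η := by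
  filter_upwards [Well_par hk hr hc hη S0_pos, WellG_par hk hr hc hη] with e he he' ρ hρ
  filter_upwards [he ρ hρ, he' ρ hρ] with s hs hs' Ω hb h1 h2 h3
    using WellG_dec r k i hs hs'.1 hs'.2 hb h1 h2 h3

end CritSys
end
end

-- merged part: Pool.Agent.Work.MP_80ee1d_an.V.WG
section
/-! Contexts with several wells, in a form that is symmetric in the two quadratic forms. -/

open MeasureTheory Filter Topology
open scoped RealInnerProductSpace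

noncomputable section
namespace CritSys
namespace Ctx

variable {X : Type} [MeasurableSpace X] {H : Type} [NormedAddCommGroup H] [InnerProductSpace ℝ H]
  {μ : Measure X} [IsFiniteMeasure μ] (C : Ctx H μ) {ι : Type} [Fintype ι] [DecidableEq ι]

/-- The wells have levels `s a i` for `q la` and `s b i` for `q lb`, up to the tolerance `η`. -/
structure WG (la lb s η : ℝ) (a b : ι → ℝ) : Prop where
  a1 : C.Adm la
  a2 : C.Adm lb
  s0 : 0 < s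
  mass : ∃ (m : H → ι → ℝ) (ν : H → ℝ), (∀ u i, 0 ≤ m u i) ∧ (∀ u, ∑ i, m u i ^ 2 ≤ C.P u) ∧
    (∀ u, s * ∑ i, a i * m u i ≤ (1 + η) * C.q la u) ∧
    (∀ u, s * ∑ i, b i * m u i ≤ (1 + η) * C.q lb u) ∧
    (∀ u, C.q la u + s * ∑ i, (b i - a i) * m u i ≤ (1 + η) * C.q lb u) ∧
    (∀ u, C.q lb u + s * ∑ i, (a i - b i) * m u i ≤ (1 + η) * C.q la u) ∧
    (∀ u, s * ν u ≤ η * C.q la u) ∧ (∀ u, s * ν u ≤ η * C.q lb u) ∧
    ∀ u v, C.R u v ≤ ∑ i, m u i * m v i + ν u * ‖C.val v‖ ^ 2 + ‖C.val u‖ ^ 2 * ν v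
  test : ∀ i, ∃ w, C.P w = 1 ∧ C.q la w ≤ s * ((1 + η) * a i) ∧ C.q lb w ≤ s * ((1 + η) * b i) ∧
    s * a i ≤ (1 + η) * C.q la w ∧ s * b i ≤ (1 + η) * C.q lb w

omit [DecidableEq ι] in
theorem WG.swap {C : Ctx H μ} {la lb s η : ℝ} {a b : ι → ℝ} (h : C.WG la lb s η a b) :
    C.WG lb la s η b a := by
  obtain ⟨m, ν, m0, m1, m2, m3, m4, m5, m6, m7, m8⟩ := h.mass
  refine ⟨h.a2, h.a1, h.s0, ⟨m, ν, m0, m1, m3, m2, m5, m4, m7, m6, m8⟩, fun i => ?_⟩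
  obtain ⟨w, w1, w2, w3, w4, w5⟩ := h.test i
  exact ⟨w, w1, w3, w2, w5, w4⟩

omit [DecidableEq ι] in
theorem WG.pair {C : Ctx H μ} {la lb s η : ℝ} {r k : ι → ℝ}
    (h : C.WG la lb s η (fun i => r i - k i) r) {z w : H} (hz : C.P z = 1) (hw : C.P w = 1) :
    ∃ m n, PairG r k η m n (C.q la z / s) (C.q lb w / s) (C.R z w) (C.q la w / s) := by
  obtain ⟨m, ν, m0, m1, m2, m3, m4, -, m6, m7, m8⟩ := h.mass
  have hs := h.s0
  have nz : ∀ u, C.P u = 1 → ‖C.val u‖ ^ 2 = 1 := fun u hu => by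
    rw [P_eq] at hu
    rw [(pow_eq_one_iff_of_nonneg (norm_nonneg _) four_ne_zero).1 hu, one_pow]
  have b1 := mul_le_mul_of_nonneg_left (m8 z z) hs.le
  have b2 := mul_le_mul_of_nonneg_left (m8 w w) hs.le
  have b3 := mul_le_mul_of_nonneg_left (m8 z w) hs.le
  have b4 := C.R_le z w
  have b5 := m2 z
  have b6 := m3 w
  have b7 := m4 w
  have b8 := m6 z
  have b8' := m7 w
  have b9 := C.q_nonneg h.a1.1.le z
  have b10 := C.q_nonneg h.a1.1.le w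
  have b11 := C.q_nonneg h.a2.1.le w
  simp only [R_self, hz, hw, nz z hz, nz w hw, mul_one, one_mul, ← sq, one_pow] at b1 b2 b3 b4
  simp only [sub_sub_cancel] at b7
  obtain ⟨X, hX⟩ : ∃ X, C.q la z = s * X := ⟨_, (mul_div_cancel₀ _ hs.ne').symm⟩
  obtain ⟨Y, hY⟩ : ∃ Y, C.q lb w = s * Y := ⟨_, (mul_div_cancel₀ _ hs.ne').symm⟩
  obtain ⟨Z, hZ⟩ : ∃ Z, C.q la w = s * Z := ⟨_, (mul_div_cancel₀ _ hs.ne').symm⟩
  simp only [hX, hY, hZ, mul_div_cancel_left₀ _ hs.ne'] at *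
  exact ⟨m z, m w, m0 z, m0 w, hz ▸ m1 z, hw ▸ m1 w, le_of_mul_le_mul_left (by linarith only [b1, b8]) hs,
    le_of_mul_le_mul_left (by linarith) hs, le_of_mul_le_mul_left (by linarith) hs,
    le_of_mul_le_mul_left (by linarith) hs, le_of_mul_le_mul_left (by linarith) hs,
    le_of_mul_le_mul_left (by linarith) hs, C.R_nonneg z w, b4, nonneg_of_mul_nonneg_right b9 hs,
    nonneg_of_mul_nonneg_right b11 hs, nonneg_of_mul_nonneg_right b10 hs⟩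

end Ctx
end CritSys
end
end

-- merged part: Pool.Agent.Work.MP_80ee1d_an.U.KVal
section
/-!
An intermediate value argument for the ellipsoids with semi-axes `1, 1, 1, l`.

PLAN. Write `G l f = d f + z f / l²`.  `c ≤ Λ l` (from `E` and `poin`).  For `l, l' > 0`,
`G l' f ≤ M G l f` with `M = max 1 (l² / l'²)` (or `M = 1 + l² / l'² + ...`; any continuous bound equal
to one for `l = l'`), so `Λ l' ≤ M Λ l`, and `Λ` is continuous on `(0, ∞)`.  `K` is continuous at `l₀`: given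
`θ`, take `ρ` from `Nr l₀ θ`; for `l` near `l₀` take `ρ'` from `Nr l θ` and `f` from `E l (min ρ' (ρ / 4))`; it
is also an almost minimiser for `l₀`, so `|I / N - K l| ≤ θ K l`, `|I / N - K l₀| ≤ θ K l₀`.
Unbounded: let `Λ₀ = inf d f / I f ≥ c`.  Given `θ ∈ (0, 1)`, there is `l` with `Λ l ≤ Λ₀ + c θ² / 2` (take
`f` almost optimal for `Λ₀`, `l` large, `P`).  For `f` from `E l ρ`, `ρ` small:
`z f / l² = G - d ≤ ((1 + ρ) Λ l - Λ₀) I ≤ c θ² I ≤ θ² G`.  `sob` with `b = θ l` gives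
`S N ≤ √(θ l) (G + G)`, while `G ≤ 2 Λ l I ≤ 4 Λ l K l N`; so `√l Λ l K l ≥ S / (8 √θ)`.
Finish with `intermediate_value_uIcc` (`v₀` = the value at `l = 1`).
-/

open Filter Topology

namespace CritSys

theorem KVal_lim {x y : ℝ} (hy : 0 ≤ y) (h : ∀ θ, 0 < θ → x ≤ (1 + θ) * y) : x ≤ y := by
  refine le_of_forall_pos_le_add fun ε hε => ?_
  have h1 := h (ε / (y + 1)) (by positivity)
  have h2 : ε / (y + 1) * y ≤ ε := by
    rw [div_mul_eq_mul_div, div_le_iff₀ (by positivity)]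
    linarith only [hε]
  linarith only [h1, h2]

theorem KVal_theta {x y : ℝ} (h : x < y) : ∃ θ, 0 < θ ∧ θ < 1 ∧ (1 + θ) * x < (1 - θ) * y := by
  have h1 : ∀ᶠ θ in 𝓝 (0 : ℝ), (1 + θ) * x < (1 - θ) * y :=
    ContinuousAt.eventually_lt (by fun_prop) (by fun_prop) (by simpa using h)
  have h2 : ∀ᶠ θ in 𝓝 (0 : ℝ), θ < 1 := eventually_lt_nhds one_pos
  have h3 : ∀ᶠ θ in 𝓝[>] (0 : ℝ), 0 < θ := self_mem_nhdsWithin
  obtain ⟨θ, a, b, e⟩ := (h3.and ((h2.and h1).filter_mono nhdsWithin_le_nhds)).exists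
  exact ⟨θ, a, b, e⟩

theorem KVal_cmp {d z l l' : ℝ} (hd : 0 ≤ d) (hz : 0 ≤ z) (hl : 0 < l) (hl' : 0 < l') :
    d + z / l' ^ 2 ≤ max 1 (l ^ 2 / l' ^ 2) * (d + z / l ^ 2) := by
  have h1 : (1 : ℝ) ≤ max 1 (l ^ 2 / l' ^ 2) := le_max_left _ _
  have h2 : l ^ 2 / l' ^ 2 ≤ max 1 (l ^ 2 / l' ^ 2) := le_max_right _ _
  have h3 : z / l' ^ 2 = l ^ 2 / l' ^ 2 * (z / l ^ 2) := by field_simp
  have h4 : 0 ≤ z / l ^ 2 := by positivity
  rw [h3, mul_add]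
  exact add_le_add (le_mul_of_one_le_left hd h1) (mul_le_mul_of_nonneg_right h2 h4)

theorem KVal_m1 {l₀ : ℝ} (h : 0 < l₀) :
    Tendsto (fun l : ℝ => max 1 (l ^ 2 / l₀ ^ 2)) (𝓝 l₀) (𝓝 1) := by
  have : ContinuousAt (fun l : ℝ => max 1 (l ^ 2 / l₀ ^ 2)) l₀ := by fun_prop
  have e : max 1 (l₀ ^ 2 / l₀ ^ 2) = 1 := by rw [div_self (by positivity), max_self]
  simpa only [ContinuousAt, e] using this

theorem KVal_m2 {l₀ : ℝ} (h : 0 < l₀) :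
    Tendsto (fun l : ℝ => max 1 (l₀ ^ 2 / l ^ 2)) (𝓝 l₀) (𝓝 1) := by
  have h0 : l₀ ^ 2 ≠ 0 := by positivity
  have : ContinuousAt (fun l : ℝ => max 1 (l₀ ^ 2 / l ^ 2)) l₀ :=
    continuousAt_const.max (continuousAt_const.div (by fun_prop) h0)
  have e : max 1 (l₀ ^ 2 / l₀ ^ 2) = 1 := by rw [div_self h0, max_self]
  simpa only [ContinuousAt, e] using this

theorem kval {α : Type} (d z I N : α → ℝ) (Λ K : ℝ → ℝ) {S c : ℝ} (hS : 0 < S) (hc : 0 < c)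
    (z0 : ∀ f, 0 ≤ z f) (I0 : ∀ f, 0 < I f) (N0 : ∀ f, 0 < N f) (K0 : ∀ l, 0 < l → 0 < K l)
    (P : ∀ l, 0 < l → ∀ f, Λ l * I f ≤ d f + z f / l ^ 2)
    (E : ∀ l, 0 < l → ∀ θ, 0 < θ → ∃ f, d f + z f / l ^ 2 ≤ (1 + θ) * Λ l * I f)
    (Nr : ∀ l, 0 < l → ∀ θ, 0 < θ → ∃ ρ, 0 < ρ ∧ ∀ f, d f + z f / l ^ 2 ≤ (1 + ρ) * Λ l * I f →
      |I f - K l * N f| ≤ θ * (K l * N f))
    (poin : ∀ f, c * I f ≤ d f) (sob : ∀ b, 0 < b → ∀ f, S * N f ≤ √b * (d f + z f / b ^ 2)) :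
    ∃ v₀, ∀ v, v₀ ≤ v → ∃ l, 0 < l ∧ √l * Λ l * K l = v := by
  have d0 : ∀ f, 0 ≤ d f := fun f => (mul_pos hc (I0 f)).le.trans (poin f)
  have zl : ∀ (l : ℝ) f, 0 ≤ z f / l ^ 2 := fun l f => div_nonneg (z0 f) (sq_nonneg l)
  have hθc : ∀ l, 0 < l → ∀ θ, 0 < θ → c ≤ (1 + θ) * Λ l := by
    intro l hl θ hθ
    obtain ⟨f, hf⟩ := E l hl θ hθ
    refine le_of_mul_le_mul_right ?_ (I0 f)
    linarith only [hf, poin, zl, poin f, zl l f]
  have Λ0 : ∀ l, 0 < l → 0 < Λ l := by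
    intro l hl
    have := hθc l hl 1 one_pos
    linarith
  have cmp : ∀ l l', 0 < l → 0 < l' → Λ l' ≤ max 1 (l ^ 2 / l' ^ 2) * Λ l := by
    intro l l' hl hl'
    have hM : (0 : ℝ) ≤ max 1 (l ^ 2 / l' ^ 2) := zero_le_one.trans (le_max_left _ _)
    refine KVal_lim (mul_nonneg hM (Λ0 l hl).le) fun θ hθ => ?_
    obtain ⟨f, hf⟩ := E l hl θ hθ
    refine le_of_mul_le_mul_right ?_ (I0 f)
    have h1 := KVal_cmp (d0 f) (z0 f) hl hl'
    have h2 := mul_le_mul_of_nonneg_left hf hM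
    have h3 := P l' hl' f
    linarith only [h1, h2, h3]
  have cΛ : ∀ l₀, 0 < l₀ → ContinuousAt Λ l₀ := by
    intro l₀ h₀
    have t1 : Tendsto (fun l : ℝ => Λ l₀ / max 1 (l ^ 2 / l₀ ^ 2)) (𝓝 l₀) (𝓝 (Λ l₀)) := by
      have := (tendsto_const_nhds (x := Λ l₀)).div (KVal_m1 h₀) one_ne_zero
      rwa [div_one] at this
    have t2 : Tendsto (fun l : ℝ => max 1 (l₀ ^ 2 / l ^ 2) * Λ l₀) (𝓝 l₀) (𝓝 (Λ l₀)) := by
      simpa using (KVal_m2 h₀).mul_const (Λ l₀)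
    refine tendsto_of_tendsto_of_tendsto_of_le_of_le' t1 t2 ?_ ?_
    · filter_upwards [lt_mem_nhds h₀] with l hl
      rw [div_le_iff₀ (one_pos.trans_le (le_max_left _ _)), mul_comm]
      exact cmp l l₀ hl h₀
    · filter_upwards [lt_mem_nhds h₀] with l hl
      exact cmp l₀ l h₀ hl
  have nK : ∀ l₀, 0 < l₀ → ∀ θ, 0 < θ → ∀ᶠ l in 𝓝 l₀,
      (1 - θ) * K l ≤ (1 + θ) * K l₀ ∧ (1 - θ) * K l₀ ≤ (1 + θ) * K l := by
    intro l₀ h₀ θ hθ
    obtain ⟨ρ, hρ, hN⟩ := Nr l₀ h₀ θ hθ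
    have t : Tendsto (fun l : ℝ => max 1 (l ^ 2 / l₀ ^ 2) * (max 1 (l₀ ^ 2 / l ^ 2) * (1 + ρ / 4)))
        (𝓝 l₀) (𝓝 (1 + ρ / 4)) := by
      simpa using (KVal_m1 h₀).mul ((KVal_m2 h₀).mul_const (1 + ρ / 4))
    filter_upwards [lt_mem_nhds h₀, t.eventually_lt_const (show 1 + ρ / 4 < 1 + ρ by linarith)]
      with l hl hm
    obtain ⟨ρ', hρ', hN'⟩ := Nr l hl θ hθ
    obtain ⟨f, hf⟩ := E l hl (min ρ' (ρ / 4)) (lt_min hρ' (by positivity))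
    have hI := I0 f
    have hΛI : 0 ≤ Λ l * I f := (mul_pos (Λ0 l hl) hI).le
    have a1 : d f + z f / l ^ 2 ≤ (1 + ρ') * Λ l * I f := by
      have := mul_le_mul_of_nonneg_right (min_le_left ρ' (ρ / 4)) hΛI
      linarith only [hf, this]
    have a2 : d f + z f / l ^ 2 ≤ (1 + ρ / 4) * Λ l * I f := by
      have := mul_le_mul_of_nonneg_right (min_le_right ρ' (ρ / 4)) hΛI
      linarith only [hf, this]
    have hM : (0 : ℝ) ≤ max 1 (l ^ 2 / l₀ ^ 2) := zero_le_one.trans (le_max_left _ _)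
    have a3 : d f + z f / l₀ ^ 2 ≤ (1 + ρ) * Λ l₀ * I f := by
      have h1 := KVal_cmp (d0 f) (z0 f) hl h₀
      have h2 : (1 + ρ / 4) * Λ l * I f ≤ (1 + ρ / 4) * (max 1 (l₀ ^ 2 / l ^ 2) * Λ l₀) * I f :=
        mul_le_mul_of_nonneg_right (mul_le_mul_of_nonneg_left (cmp l₀ l h₀ hl) (by positivity)) hI.le
      have h3 := mul_le_mul_of_nonneg_left (a2.trans h2) hM
      have h4 := mul_le_mul_of_nonneg_right hm.le (mul_pos (Λ0 l₀ h₀) hI).le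
      linarith only [h1, h3, h4]
    have b1 := abs_le.1 (hN f a3)
    have b2 := abs_le.1 (hN' f a1)
    constructor
    · refine le_of_mul_le_mul_right ?_ (N0 f)
      linarith only [b1, b2, b1.2, b2.1]
    · refine le_of_mul_le_mul_right ?_ (N0 f)
      linarith only [b1, b2, b1.1, b2.2]
  have cK : ∀ l₀, 0 < l₀ → ContinuousAt K l₀ := by
    intro l₀ h₀
    refine tendsto_order.2 ⟨fun a ha => ?_, fun a ha => ?_⟩
    · obtain ⟨θ, h1, -, h3⟩ := KVal_theta ha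
      filter_upwards [nK l₀ h₀ θ h1] with l hl
      exact lt_of_mul_lt_mul_left (h3.trans_le hl.2) (by linarith)
    · obtain ⟨θ, h1, h2, h3⟩ := KVal_theta ha
      filter_upwards [nK l₀ h₀ θ h1] with l hl
      exact lt_of_mul_lt_mul_left (hl.1.trans_lt h3) (by linarith)
  have unb : ∀ t, 0 < t → ∃ l, 0 < l ∧ S ≤ 8 * t * (√l * Λ l * K l) := by
    intro t ht
    obtain ⟨f₁, -⟩ := E 1 one_pos 1 one_pos
    have : Nonempty α := ⟨f₁⟩
    have bdd : BddBelow (Set.range fun f => d f / I f) :=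
      ⟨c, by rintro _ ⟨f, rfl⟩; exact (le_div_iff₀ (I0 f)).2 (poin f)⟩
    set L := ⨅ f, d f / I f with hL
    have hLd : ∀ f, L * I f ≤ d f := fun f => (le_div_iff₀ (I0 f)).1 (ciInf_le bdd f)
    set θ := t ^ 2 with hθ
    have θ0 : 0 < θ := by positivity
    have e0 : 0 < c * θ ^ 2 / 4 := by positivity
    obtain ⟨f₀, hf₀⟩ := exists_lt_of_ciInf_lt (show L < L + c * θ ^ 2 / 4 by linarith only [e0])
    rw [div_lt_iff₀ (I0 f₀)] at hf₀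
    have e1 : 0 < c * θ ^ 2 / 4 * I f₀ := mul_pos e0 (I0 f₀)
    set l := z f₀ / (c * θ ^ 2 / 4 * I f₀) + 1 with hl'
    have q0 : 0 ≤ z f₀ / (c * θ ^ 2 / 4 * I f₀) := div_nonneg (z0 f₀) e1.le
    have l1 : 1 ≤ l := by linarith only [q0]
    have hl : 0 < l := by linarith only [q0]
    have hz : z f₀ / l ^ 2 ≤ c * θ ^ 2 / 4 * I f₀ := by
      rw [div_le_iff₀ (by positivity), ← div_le_iff₀' e1]
      linarith only [q0, sq_nonneg ((1 : ℝ) * (z f₀ / (c * θ ^ (2 : ℕ) / (4 : ℝ) * I f₀)) + (1 : ℝ) * (1 : ℝ)), mul_nonneg_of_nonpos_of_nonpos (Mathlib.Tactic.Linarith.sub_nonpos_of_le q0) (Mathlib.Tactic.Linarith.sub_nonpos_of_le q0)]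
    have hΛ : Λ l ≤ L + c * θ ^ 2 / 2 := by
      refine le_of_mul_le_mul_right ?_ (I0 f₀)
      linarith only [hf₀, hz, P, hl, P l hl f₀]
    have hp := Λ0 l hl
    obtain ⟨ρ', hρ', hN⟩ := Nr l hl 1 one_pos
    obtain ⟨f, hf⟩ := E l hl (min ρ' (min 1 (c * θ ^ 2 / 2 / Λ l)))
      (lt_min hρ' (lt_min one_pos (by positivity)))
    have hI := I0 f
    have hΛI : 0 ≤ Λ l * I f := (mul_pos hp hI).le
    have a1 : d f + z f / l ^ 2 ≤ (1 + ρ') * Λ l * I f := by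
      have := mul_le_mul_of_nonneg_right (min_le_left ρ' (min 1 (c * θ ^ 2 / 2 / Λ l))) hΛI
      linarith only [hf, this]
    have a2 : d f + z f / l ^ 2 ≤ 2 * Λ l * I f := by
      have := mul_le_mul_of_nonneg_right
        ((min_le_right ρ' (min 1 (c * θ ^ 2 / 2 / Λ l))).trans (min_le_left _ _)) hΛI
      linarith only [hf, this]
    have a3 : d f + z f / l ^ 2 ≤ (Λ l + c * θ ^ 2 / 2) * I f := by
      have h1 := mul_le_mul_of_nonneg_right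
        ((min_le_right ρ' (min 1 (c * θ ^ 2 / 2 / Λ l))).trans (min_le_right _ _)) hΛI
      have h2 : c * θ ^ 2 / 2 / Λ l * (Λ l * I f) = c * θ ^ 2 / 2 * I f := by field_simp
      linarith only [hf, h1, h2]
    have a4 : I f ≤ 2 * (K l * N f) := by linarith only [hN, a1, (abs_le.1 (hN f a1)).2]
    have a5 : z f / l ^ 2 ≤ θ ^ 2 * d f := by
      have h1 := mul_le_mul_of_nonneg_right hΛ hI.le
      have h2 := mul_le_mul_of_nonneg_left (poin f) (sq_nonneg θ)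
      linarith only [a3, h1, h2, hLd, hLd f]
    have a6 : z f / (θ * l) ^ 2 ≤ d f := by
      have : z f / (θ * l) ^ 2 = z f / l ^ 2 / θ ^ 2 := by field_simp
      rw [this, div_le_iff₀ (by positivity)]
      linarith only [a5]
    have a7 : √(θ * l) = t * √l := by
      rw [Real.sqrt_mul θ0.le, hθ, Real.sqrt_sq ht.le]
    have a8 := sob (θ * l) (by positivity) f
    rw [a7] at a8
    have a9 : d f + z f / (θ * l) ^ 2 ≤ 8 * (Λ l * (K l * N f)) := by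
      have := mul_le_mul_of_nonneg_left a4 hp.le
      linarith only [a2, a6, this, zl, zl l f]
    have a10 := mul_le_mul_of_nonneg_left a9 (show 0 ≤ t * √l by positivity)
    refine ⟨l, hl, le_of_mul_le_mul_right ?_ (N0 f)⟩
    linarith only [a8, a10]
  refine ⟨√1 * Λ 1 * K 1, fun v hv => ?_⟩
  obtain ⟨l, hl, hS'⟩ := unb (S / (8 * (|v| + 1))) (by positivity)
  have hvl : v ≤ √l * Λ l * K l := by
    have e : 8 * (S / (8 * (|v| + 1))) * (√l * Λ l * K l) = S * ((√l * Λ l * K l) / (|v| + 1)) := by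
      field_simp
    rw [e] at hS'
    have h1 : 1 ≤ (√l * Λ l * K l) / (|v| + 1) := by
      refine le_of_mul_le_mul_left ?_ hS
      linarith only [hS']
    rw [le_div_iff₀ (by positivity)] at h1
    linarith only [h1, le_abs_self v]
  have pos : ∀ x ∈ Set.uIcc (1 : ℝ) l, 0 < x := fun x hx => (lt_min one_pos hl).trans_le hx.1
  have co : ContinuousOn (fun x => √x * Λ x * K x) (Set.uIcc 1 l) := fun x hx =>
    ((Real.continuous_sqrt.continuousAt.mul (cΛ x (pos x hx))).mul (cK x (pos x hx))).continuousWithinAt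
  obtain ⟨x, hx, e⟩ := intermediate_value_uIcc co (Set.mem_uIcc_of_le hv hvl)
  exact ⟨x, pos x hx, e⟩

end CritSys
end

-- merged part: Pool.Agent.Work.MP_80ee1d_an.U.Shape
section
/-!
Ellipsoids with a prescribed value of the scale invariant quantity `Λ K`.

PLAN. For `l > 0` let `Λ l`, `K' l` be given by `near_tst` for the domain `Ell 1 l 0`
(`prof_ell`, `Prof.smoothDomain`; `choose!`).  Apply `kval` to
`α = {f : Tst // tsupport f ⊆ Ell 1 1 0 ∧ 0 < N4 f}`, `d f = ‖ofT f‖² - Iz f`, `z = Iz`, `I = I2`, `N = N4`,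
`K l = K' l / √l`, `S = S0`, `c = 1 / 4` (`poin_tst`).  `lin_tst f 1 l 0 0` gives `g` with `I2 g = l I`,
`N4 g = √l N`, `‖ofT g‖² = l (d + z / l²)`; this yields `P`, `Nr`, and `sob` (`S0_le`); `E` uses
`lin_tst g 1 l⁻¹ 0 0`.  `I2 f > 0` if `N4 f > 0` (else `f = 0` a.e., `val_ofT`).
Scaling: `lin_tst f a⁻¹ a⁻¹ p 0` maps tests of `Ell a (a l) p` to tests of `Ell 1 l 0` and multiplies
`I2` by `a⁻⁴`, `N4` and `‖ofT ·‖²` by `a⁻²`; `lin_tst f a a 0 p` goes back.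
-/

open MeasureTheory Filter Topology
open scoped RealInnerProductSpace

noncomputable section
namespace CritSys

theorem Shape_I2_pos {f : Tst} (h : 0 < N4 f) : 0 < I2 f := by
  have hf : ∃ x, (f : E4 → ℝ) x ≠ 0 := by
    by_contra hn
    push Not at hn
    have : f = 0 := Subtype.ext (funext hn)
    simp [N4, this] at h
  obtain ⟨x, hx⟩ := hf
  refine Continuous.integral_pos_of_hasCompactSupport_nonneg_nonzero (x := x)
    (f.2.1.continuous.pow 2) ?_ (fun _ => sq_nonneg _) (pow_ne_zero 2 hx)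
  exact HasCompactSupport.intro f.2.2 fun y hy => by
    rw [image_eq_zero_of_notMem_tsupport hy]; simp

theorem Shape_fwd (f : Tst) {l : ℝ} (hl : 0 < l) : ∃ g : Tst,
    (tsupport (f : E4 → ℝ) ⊆ Ell 1 1 0 → tsupport (g : E4 → ℝ) ⊆ Ell 1 l 0) ∧ I2 g = l * I2 f ∧
      N4 g = √l * N4 f ∧ ‖ofT g‖ ^ 2 = l * (‖ofT f‖ ^ 2 - Iz f + Iz f / l ^ 2) := by
  obtain ⟨g, h0, h1, h2, h3, h4⟩ := lin_tst f one_pos hl 0 0
  refine ⟨g, fun h => by simpa using h0 1 1 one_pos one_pos h, by simpa using h1,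
    by simpa using h2, ?_⟩
  rw [sub_eq_iff_eq_add.1 h4, h3]
  field_simp

theorem Shape_bwd (g : Tst) {l : ℝ} (hl : 0 < l) : ∃ f : Tst,
    (tsupport (g : E4 → ℝ) ⊆ Ell 1 l 0 → tsupport (f : E4 → ℝ) ⊆ Ell 1 1 0) ∧ I2 g = l * I2 f ∧
      (0 < N4 g → 0 < N4 f) ∧ ‖ofT g‖ ^ 2 = l * (‖ofT f‖ ^ 2 - Iz f + Iz f / l ^ 2) := by
  obtain ⟨f, h0, h1, h2, h3, h4⟩ := lin_tst g one_pos (inv_pos.2 hl) 0 0
  refine ⟨f, fun h => by simpa [hl.ne'] using h0 1 l one_pos hl h, ?_, fun h => ?_, ?_⟩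
  · rw [h1]; field_simp
  · rw [h2]; positivity
  · rw [h4, h3]; field_simp; ring

theorem Shape_sc (f : Tst) {a : ℝ} (ha : 0 < a) (p p' : ℝ) : ∃ g : Tst,
    (∀ a' b' : ℝ, 0 < a' → 0 < b' → tsupport (f : E4 → ℝ) ⊆ Ell a' b' p →
      tsupport (g : E4 → ℝ) ⊆ Ell (a * a') (a * b') p') ∧ I2 g = a ^ 4 * I2 f ∧
      N4 g = a ^ 2 * N4 f ∧ ‖ofT g‖ ^ 2 = a ^ 2 * ‖ofT f‖ ^ 2 := by
  obtain ⟨g, h0, h1, h2, h3, h4⟩ := lin_tst f ha ha p p'
  refine ⟨g, h0, by rw [h1]; ring, ?_, ?_⟩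
  · rw [h2, show a ^ 3 * a = (a ^ 2) ^ 2 by ring, Real.sqrt_sq (sq_nonneg a)]
  · rw [sub_eq_iff_eq_add.1 h4, h3]
    field_simp
    ring

theorem Shape_down (f : Tst) {a l : ℝ} (ha : 0 < a) (hl : 0 < l) {p : ℝ}
    (hf : tsupport (f : E4 → ℝ) ⊆ Ell a (a * l) p) : ∃ g : Tst,
    tsupport (g : E4 → ℝ) ⊆ Ell 1 l 0 ∧ I2 f = a ^ 4 * I2 g ∧ N4 f = a ^ 2 * N4 g ∧
      ‖ofT f‖ ^ 2 = a ^ 2 * ‖ofT g‖ ^ 2 := by
  obtain ⟨g, h0, h1, h2, h3⟩ := Shape_sc f (inv_pos.2 ha) p 0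
  refine ⟨g, by simpa [ha.ne'] using h0 a (a * l) ha (mul_pos ha hl) hf, ?_, ?_, ?_⟩
  · rw [h1]; field_simp
  · rw [h2]; field_simp
  · rw [h3]; field_simp

theorem shape : ∃ v₀ : ℝ, ∀ v, v₀ ≤ v → ∃ l Λ K : ℝ, 0 < l ∧ 0 < Λ ∧ 0 < K ∧ Λ * K = v ∧
    ∀ θ : ℝ, 0 < θ → ∃ ρ : ℝ, 0 < ρ ∧ ∀ a p : ℝ, 0 < a →
      PoinT (Ell a (a * l) p) (Λ / a ^ 2) ∧ OptT (Ell a (a * l) p) (Λ / a ^ 2) ∧
        NearT (Ell a (a * l) p) (Λ / a ^ 2) (a ^ 2 * K) θ ρ := by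
  have hex : ∀ l : ℝ, 0 < l → ∃ Λ K : ℝ, 0 < Λ ∧ 0 < K ∧ PoinT (Ell 1 l 0) Λ ∧ OptT (Ell 1 l 0) Λ ∧
      ∀ θ : ℝ, 0 < θ → ∃ ρ : ℝ, 0 < ρ ∧ NearT (Ell 1 l 0) Λ K θ ρ := fun l hl => by
    obtain ⟨h1, h2, h3, -⟩ := (prof_ell one_pos hl 0).smoothDomain
    exact near_tst ⟨Ell 1 l 0, h1, h2, h3⟩
  choose! Λ K hΛ hK hP hO hN using hex
  obtain ⟨v₀, hv⟩ := kval (α := {f : Tst // tsupport (f : E4 → ℝ) ⊆ Ell 1 1 0 ∧ 0 < N4 f})
    (fun f => ‖ofT f.1‖ ^ 2 - Iz f.1) (fun f => Iz f.1) (fun f => I2 f.1) (fun f => N4 f.1) Λ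
    (fun l => K l / √l) S0_pos (c := 1 / 4) (by norm_num) (fun f => Iz_nonneg f.1)
    (fun f => Shape_I2_pos f.2.2) (fun f => f.2.2)
    (fun l hl => div_pos (hK l hl) (Real.sqrt_pos.2 hl))
    (fun l hl f => by
      obtain ⟨g, h0, h1, -, h3⟩ := Shape_fwd f.1 hl
      have := hP l hl g (h0 f.2.1)
      rw [h1, h3, mul_left_comm] at this
      exact le_of_mul_le_mul_left this hl)
    (fun l hl θ hθ => by
      obtain ⟨g, g0, g1, g2⟩ := hO l hl θ hθ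
      obtain ⟨f, h0, h1, h2, h3⟩ := Shape_bwd g hl
      refine ⟨⟨f, h0 g0, h2 g1⟩, ?_⟩
      rw [h1, h3, mul_left_comm] at g2
      exact le_of_mul_le_mul_left g2 hl)
    (fun l hl θ hθ => by
      obtain ⟨ρ, hρ, hn⟩ := hN l hl θ hθ
      refine ⟨ρ, hρ, fun f hf => ?_⟩
      obtain ⟨g, h0, h1, h2, h3⟩ := Shape_fwd f.1 hl
      have := hn g (h0 f.2.1) (by
        rw [h1, h3, mul_left_comm]
        exact mul_le_mul_of_nonneg_left hf hl.le)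
      have e : K l * (√l * N4 f.1) = l * (K l / √l * N4 f.1) := by
        have hs := (Real.sqrt_pos.2 hl).ne'
        field_simp
        rw [Real.sq_sqrt hl.le]
        ring
      rw [h1, h2, e, ← mul_sub, abs_mul, abs_of_pos hl, mul_left_comm] at this
      exact le_of_mul_le_mul_left this hl)
    (fun f => by linarith only [poin_tst f.1 f.2.1])
    (fun b hb f => by
      obtain ⟨g, -, -, h2, h3⟩ := Shape_fwd f.1 hb
      have h4 : S0 * N4 g ≤ ‖ofT g‖ ^ 2 := S0_le _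
      rw [h2, h3, mul_left_comm] at h4
      refine le_of_mul_le_mul_left ?_ (Real.sqrt_pos.2 hb)
      rwa [← mul_assoc (√b) (√b), Real.mul_self_sqrt hb.le])
  refine ⟨v₀, fun v hv₀ => ?_⟩
  obtain ⟨l, hl, e⟩ := hv v hv₀
  refine ⟨l, Λ l, K l, hl, hΛ l hl, hK l hl, ?_, fun θ hθ => ?_⟩
  · have hs := (Real.sqrt_pos.2 hl).ne'
    rw [← e]
    field_simp
  obtain ⟨ρ, hρ, hn⟩ := hN l hl θ hθ
  refine ⟨ρ, hρ, fun a p ha => ⟨fun f hf => ?_, fun θ' hθ' => ?_, fun f hf h => ?_⟩⟩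
  · obtain ⟨g, g0, g1, -, g3⟩ := Shape_down f ha hl hf
    rw [g1, g3, show Λ l / a ^ 2 * (a ^ 4 * I2 g) = a ^ 2 * (Λ l * I2 g) by field_simp]
    exact mul_le_mul_of_nonneg_left (hP l hl g g0) (sq_nonneg a)
  · obtain ⟨g, g0, g1, g2⟩ := hO l hl θ' hθ'
    obtain ⟨f, h0, h1, h2, h3⟩ := Shape_sc g ha 0 p
    refine ⟨f, by simpa using h0 1 l one_pos hl g0, by rw [h2]; positivity, ?_⟩
    rw [h1, h3, show (1 + θ') * (Λ l / a ^ 2) * (a ^ 4 * I2 g) =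
      a ^ 2 * ((1 + θ') * Λ l * I2 g) by field_simp]
    exact mul_le_mul_of_nonneg_left g2 (sq_nonneg a)
  · obtain ⟨g, g0, g1, g2, g3⟩ := Shape_down f ha hl hf
    rw [g1, g3, show (1 + ρ) * (Λ l / a ^ 2) * (a ^ 4 * I2 g) =
      a ^ 2 * ((1 + ρ) * Λ l * I2 g) by field_simp] at h
    have h' := hn g g0 (le_of_mul_le_mul_left h (by positivity))
    rw [g1, g2, show a ^ 2 * K l * (a ^ 2 * N4 g) = a ^ 4 * (K l * N4 g) by ring, ← mul_sub,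
      abs_mul, abs_of_pos (by positivity : 0 < a ^ 4), mul_left_comm]
    exact mul_le_mul_of_nonneg_left h' (by positivity)

end CritSys
end
end

-- merged part: Pool.Agent.Work.MP_80ee1d_an.U.Wells
section
/-!
Contexts with several wells.

PLAN. `Wells.pair`: divide by `s`; `‖val u‖ = 1` from `P_eq`; `m2`, `n2` from the last inequality with
`v = u` (`R_self`) and `q_mono`; `R_le`, `R_nonneg`, `q_nonneg`.
-/

open MeasureTheory Filter Topology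
open scoped RealInnerProductSpace

noncomputable section
namespace CritSys
namespace Ctx

variable {X : Type} [MeasurableSpace X] {H : Type} [NormedAddCommGroup H] [InnerProductSpace ℝ H]
  {μ : Measure X} [IsFiniteMeasure μ] (C : Ctx H μ) {ι : Type} [Fintype ι] [DecidableEq ι]

/-- The wells have levels `s r i` and `s (r i - k i)`, up to the tolerance `η`. -/
structure Wells (l1 l2 s η : ℝ) (r k : ι → ℝ) : Prop where
  a1 : C.Adm l1
  a2 : C.Adm l2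
  lt : l1 < l2
  s0 : 0 < s
  mass : ∃ m : H → ι → ℝ, (∀ u i, 0 ≤ m u i) ∧ (∀ u, ∑ i, m u i ^ 2 ≤ C.P u) ∧
    (∀ u, s * ∑ i, r i * m u i ≤ (1 + η) * C.q l2 u) ∧
    (∀ u, s * ∑ i, (r i - k i) * m u i ≤ (1 + η) * C.q l1 u) ∧
    (∀ u i, C.q l1 u + s * (k i * m u i) ≤ (1 + η) * C.q l2 u) ∧
    ∀ u v, s * C.R u v ≤ s * ∑ i, m u i * m v i +
      η * (C.q l1 u * ‖C.val v‖ ^ 2 + ‖C.val u‖ ^ 2 * C.q l1 v)
  test : ∀ i, ∃ w, C.P w = 1 ∧ C.q l2 w ≤ s * ((1 + η) * r i) ∧ C.q l1 w ≤ s * (r i - k i + η)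

theorem Wells.pair {C : Ctx H μ} {l1 l2 s η : ℝ} {r k : ι → ℝ} (h : C.Wells l1 l2 s η r k)
    (hη : 0 ≤ η) {z w : H} (hz : C.P z = 1) (hw : C.P w = 1) :
    ∃ m n, Pair r k η m n (C.q l1 z / s) (C.q l2 w / s) (C.R z w) (C.q l1 w / s) := by
  obtain ⟨m, m0, m1, m2, m3, m4, m5⟩ := h.mass
  have hs := h.s0
  have nz : ∀ u, C.P u = 1 → ‖C.val u‖ ^ 2 = 1 := fun u hu => by
    rw [P_eq] at hu
    rw [(pow_eq_one_iff_of_nonneg (norm_nonneg _) four_ne_zero).1 hu, one_pow]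
  have b1 := m5 z z
  have b2 := m5 w w
  have b3 := m5 z w
  have b4 := C.R_le z w
  have b5 := m3 z
  have b6 := m2 w
  have b7 := m4 w
  have b8 := C.q_mono h.lt.le w
  have b9 := C.q_nonneg h.a1.1.le z
  have b10 := C.q_nonneg h.a1.1.le w
  simp only [R_self, hz, hw, nz z hz, nz w hw, mul_one, one_mul, ← sq, one_pow] at b1 b2 b3 b4
  obtain ⟨X, hX⟩ : ∃ X, C.q l1 z = s * X := ⟨_, (mul_div_cancel₀ _ hs.ne').symm⟩
  obtain ⟨Y, hY⟩ : ∃ Y, C.q l2 w = s * Y := ⟨_, (mul_div_cancel₀ _ hs.ne').symm⟩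
  obtain ⟨Z, hZ⟩ : ∃ Z, C.q l1 w = s * Z := ⟨_, (mul_div_cancel₀ _ hs.ne').symm⟩
  simp only [hX, hY, hZ, mul_div_cancel_left₀ _ hs.ne'] at *
  have b11 := mul_le_mul_of_nonneg_left b8 hη
  exact ⟨m z, m w, m0 z, m0 w, hz ▸ m1 z, hw ▸ m1 w, le_of_mul_le_mul_left (by linarith only [b1]) hs,
    le_of_mul_le_mul_left (by linarith only [b2, b11]) hs, le_of_mul_le_mul_left (by linarith) hs,
    le_of_mul_le_mul_left (by linarith) hs, fun i => le_of_mul_le_mul_left (by linarith [b7 i]) hs,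
    le_of_mul_le_mul_left (by linarith) hs, C.R_nonneg z w, b4, nonneg_of_mul_nonneg_right b9 hs,
    nonneg_of_mul_nonneg_right b10 hs, le_of_mul_le_mul_left b8 hs⟩

end Ctx
end CritSys
end
end

-- merged part: Pool.Agent.Work.MP_80ee1d_an.U.Chain
section
/-!
A chain of ellipsoids has the prescribed wells.

PLAN. `wells_single`: `v₀` from `shape`; choose `c > 0` with `v₀ ≤ c k i` for all `i`; `l i, Λ i, K i`.
Choose `e ∈ (0, 1)` good for all `i` (`well`, `eventually_all`), `ρ i` from `shape` with `θ = e / 2`, then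
`s ∈ (0, s₀]` good for all `i` and with `y i = r i s / (c k i) < 1`; `a = √(Λ i (1 - y i))`, `b = a l i`; then
`Λ i / a² = 1 / (1 - y i)`, `a² K i = (1 - y i) c k i`.
`chain`: `Finset.Nonempty.cons_induction` (statement for all `η > η₀`): for `cons i T` use the middle
value `η₁`, place the new ellipsoid at `p = b' + b` where `b'` is the right end of the old profile,
`Dec.mono`, `Dec.merge` with `P = single 3 b'`, `glue`, `Prof.smoothDomain`.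
`Dec.wells`: `l1 = -(1 + δ)`, `l2 = -1`; `(ctx d).q l u = qd (-l) (incl d u)` (`K_M`, `norm_incl`),
`P u = ‖val (incl d u)‖⁴`, `R` by `K_T`, `norm_valK`.  `Adm`: `poin_opt` and `co` give
`1 + δ ≤ (1 - c)(Λ + η')` for all `η' > 0` (`M_pos`), so `1 + δ < Λ`.  The neck mass:
`s ν u ≤ η (S0 / (2 (1 + η))) ν u ≤ η qd (1 + δ) u`.  One term of `hk` and `qd 1 = qd (1 + δ) + δ Md`.
-/

open MeasureTheory Filter Topology Metric
open scoped ContDiff RealInnerProductSpace ENNReal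

noncomputable section
namespace CritSys

variable {ι : Type} [Fintype ι] [DecidableEq ι] {r k : ι → ℝ}

theorem wells_single (hs : Std r k) {η s₀ : ℝ} (hη : 0 < η) (hs₀ : 0 < s₀) :
    ∃ s δ : ℝ, 0 < s ∧ s ≤ s₀ ∧ 0 < δ ∧ ∀ i, ∃ a b : ℝ, 0 < a ∧ 0 < b ∧
      ∀ p, Dec (Ell a b p) {i} r k s δ η := by
  obtain ⟨v₀, hv⟩ := shape
  obtain ⟨c, c0, hc⟩ : ∃ c : ℝ, 0 < c ∧ ∀ i, v₀ ≤ c * k i :=
    ((eventually_gt_atTop 0).and (eventually_all.2 fun i =>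
      (tendsto_id.atTop_mul_const (hs i).2.1).eventually_ge_atTop v₀)).exists
  choose l Λ K l0 Λ0 K0 hK hρ using fun i => hv _ (hc i)
  have e2 : ∀ᶠ e in 𝓝[>] (0 : ℝ), e ∈ Set.Ioo (0 : ℝ) 1 := Ioo_mem_nhdsGT one_pos
  obtain ⟨e, ⟨e0, e1⟩, he⟩ := (e2.and
    (eventually_all.2 fun i => well r k i (hs i).2.1 (hs i).2.2 c0 hη)).exists
  choose ρ ρ0 hρ' using fun i => hρ i (e / 2) (half_pos e0)
  have s2 : ∀ᶠ s in 𝓝[>] (0 : ℝ), s ∈ Set.Ioc (0 : ℝ) s₀ := Ioc_mem_nhdsGT hs₀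
  have s3 : ∀ i, ∀ᶠ s in 𝓝[>] (0 : ℝ), r i * s / (c * k i) < 1 := fun i => by
    have h1 : Continuous fun s : ℝ => r i * s / (c * k i) := by fun_prop
    exact ((h1.tendsto' 0 0 (by simp)).eventually (gt_mem_nhds one_pos)).filter_mono
      nhdsWithin_le_nhds
  obtain ⟨s, ⟨s0, s1⟩, hy, h⟩ := (s2.and ((eventually_all.2 s3).and
    (eventually_all.2 fun i => he i (ρ i) (ρ0 i)))).exists
  have e3 : 0 < 1 - e := sub_pos.2 e1
  refine ⟨s, s / ((1 - e) * c), s0, s1, by positivity, fun i => ?_⟩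
  have y0 : 0 < 1 - r i * s / (c * k i) := sub_pos.2 (hy i)
  have h0 : 0 < Λ i * (1 - r i * s / (c * k i)) := mul_pos (Λ0 i) y0
  obtain ⟨a, a0, ha⟩ : ∃ a : ℝ, 0 < a ∧ a ^ 2 = Λ i * (1 - r i * s / (c * k i)) :=
    ⟨_, Real.sqrt_pos.2 h0, Real.sq_sqrt h0.le⟩
  refine ⟨a, a * l i, a0, mul_pos a0 (l0 i), fun p => ?_⟩
  obtain ⟨h1, h2, h3⟩ := hρ' i a p a0
  have q1 : Λ i / a ^ 2 = 1 / (1 - r i * s / (c * k i)) := by
    rw [ha, div_mul_eq_div_div, div_self (Λ0 i).ne']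
  have q2 : a ^ 2 * K i = (1 - r i * s / (c * k i)) * (c * k i) := by
    rw [ha, mul_right_comm, hK i, mul_comm]
  rw [q1] at h1 h2 h3
  rw [q2] at h3
  exact h i _ (prof_ell a0 (mul_pos a0 (l0 i)) p).smoothDomain.2.2.1 h1 h2 h3

theorem chain (hs : Std r k) {s δ η₀ : ℝ} (hs0 : 0 ≤ s) (hδ : 0 ≤ δ) (h0 : 0 ≤ η₀)
    (h : ∀ i, ∃ a b : ℝ, 0 < a ∧ 0 < b ∧ ∀ p, Dec (Ell a b p) {i} r k s δ η₀) {T : Finset ι}
    (hT : T.Nonempty) : ∀ η, η₀ < η → ∃ g a b, Prof g a b ∧ Dec (Rev g) T r k s δ η := by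
  have hr : ∀ i, 0 ≤ r i := fun i => zero_le_one.trans (hs i).1
  induction hT using Finset.Nonempty.cons_induction with
  | singleton i =>
    intro η hη
    obtain ⟨a, b, a0, b0, h⟩ := h i
    exact ⟨_, _, _, prof_ell a0 b0 0, (h 0).mono hr hs0 hδ hη.le⟩
  | cons i T hi hT ih =>
    intro η hη
    obtain ⟨η₁, h1, h2⟩ := exists_between hη
    obtain ⟨g₁, a', b', hg₁, hD⟩ := ih η₁ h1
    obtain ⟨a, b, a0, b0, h⟩ := h i
    have hp := prof_ell a0 b0 (b' + b)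
    rw [add_sub_cancel_right] at hp
    obtain ⟨ρ', ρ0, hm⟩ := hD.merge ((h (b' + b)).mono hr hs0 hδ h1.le)
      (Finset.disjoint_singleton_right.2 hi) hr hs0 hδ (h0.trans h1.le) h2
      (EuclideanSpace.single 3 b')
    obtain ⟨g, ρ, ρ1, hg, s1, s2, hx⟩ := glue hg₁ hp ρ0
    refine ⟨g, _, _, hg, ?_⟩
    have e : (EuclideanSpace.single 3 b' : E4) 3 = b' := by simp
    have h3 := hm (Rev g) ρ hg.smoothDomain.1 hg.smoothDomain.2.2.1 ρ1 s1 s2 (by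
      rw [e]; exact hx)
    rwa [Finset.cons_eq_insert, Finset.insert_eq, Finset.union_comm]

theorem Dec.wells (hs : Std r k) {d : Dom} {s δ η : ℝ} (h : Dec d.Ω Finset.univ r k s δ η)
    (hs0 : 0 < s) (hδ : 0 < δ) (hη : 0 < η) (hsm : s ≤ η * (S0 / (2 * (1 + η)))) :
    (ctx d).Wells (-(1 + δ)) (-1) s η r k := by
  obtain ⟨c, m, ν, c0, h⟩ := h
  have hS := S0_pos
  have hM : ∀ u, (ctx d).M u u = Md (incl d u) := fun u => (K_M u).2
  have hq : ∀ l u, (ctx d).q (-l) u = qd l (incl d u) := fun l u => by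
    rw [Ctx.q, qd, hM, norm_incl]
    ring
  have hv : ∀ u, ‖(ctx d).val u‖ = ‖val (incl d u)‖ := norm_valK d
  have hP : ∀ u, (ctx d).P u = ‖val (incl d u)‖ ^ 4 := fun u => by rw [Ctx.P_eq, hv]
  have hΛ : 1 + δ < (ctx d).Λ := by
    have L0 := (ctx d).Lam_pos
    obtain ⟨u, u0, hu⟩ := (ctx d).poin_opt (c * (ctx d).Λ) (mul_pos c0 L0)
    have h1 : ‖u‖ ^ 2 ≤ ((ctx d).Λ + c * (ctx d).Λ) * (ctx d).M u u := hu
    have h2 := (ctx d).M_pos u0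
    have h3 := h.co _ (incl_mem d u)
    rw [qd, ← hM, norm_incl] at h3
    have h4 : 0 < (1 + δ) * (ctx d).M u u := by positivity
    have h5 : c < 1 := by
      by_contra h6
      linarith only [h3, h4, h6, mul_nonneg (sub_nonneg.2 (not_lt.1 h6)) (sq_nonneg ‖u‖), sq_nonneg ‖u‖]
    have h6 := mul_le_mul_of_nonneg_left h1 (sub_pos.2 h5).le
    have h7 : 0 < c ^ 2 * ((ctx d).Λ * (ctx d).M u u) := by positivity
    refine lt_of_mul_lt_mul_right ?_ h2.le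
    linarith only [h3, h6, h7]
  have hw : ∀ u, 0 ≤ s * ∑ i, (r i - k i) * m u i := fun u => mul_nonneg hs0.le
    (Finset.sum_nonneg fun i _ => mul_nonneg (sub_nonneg.2 (hs i).2.2.le) (h.m0 u i))
  have hν : ∀ u ∈ H0 d.Ω, s * ν u ≤ η * qd (1 + δ) u := fun u hu => by
    have h1 : S0 / 2 * ν u ≤ (1 + η) * qd (1 + δ) u := by linarith only [h, hu, hw, h.h1 u hu, hw u]
    have h2 : S0 / (2 * (1 + η)) * ν u ≤ qd (1 + δ) u := by
      rw [← div_div, div_mul_eq_mul_div, div_le_iff₀ (by positivity)]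
      linarith only [h1]
    calc s * ν u ≤ η * (S0 / (2 * (1 + η))) * ν u := mul_le_mul_of_nonneg_right hsm (h.ν0 u)
      _ ≤ η * qd (1 + δ) u := by
        rw [mul_assoc]
        exact mul_le_mul_of_nonneg_left h2 hη.le
  refine ⟨⟨by linarith, by linarith⟩, ⟨by linarith, by linarith⟩, by linarith, hs0,
    ⟨fun u i => m (incl d u) i, fun u i => h.m0 _ i, fun u => ?_, fun u => ?_, fun u => ?_,
      fun u i => ?_, fun u v => ?_⟩, fun i => ?_⟩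
  · rw [hP]
    exact h.sq _ (incl_mem d u)
  · rw [hq]
    exact h.h2 _ (incl_mem d u)
  · rw [hq]
    have h1 : 0 ≤ S0 / 2 * ν (incl d u) := mul_nonneg (half_pos hS).le (h.ν0 _)
    linarith only [h1, h, h.h1 _ (incl_mem d u)]
  · rw [hq, hq]
    have h1 : k i * m (incl d u) i ≤ ∑ j, k j * m (incl d u) j :=
      Finset.single_le_sum (f := fun j => k j * m (incl d u) j)
        (fun j _ => mul_nonneg (hs j).2.1.le (h.m0 _ j)) (Finset.mem_univ i)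
    have h2 := mul_le_mul_of_nonneg_left h1 hs0.le
    have h3 := h.hk _ (incl_mem d u)
    have h4 : qd 1 (incl d u) = qd (1 + δ) (incl d u) + δ * Md (incl d u) := by
      rw [qd, qd]
      ring
    linarith only [h2, h3, h4]
  · rw [hq, hq, hv, hv, Ctx.R, K_T]
    have h1 := mul_le_mul_of_nonneg_left (h.hR _ (incl_mem d u) _ (incl_mem d v)) hs0.le
    have h2 := mul_le_mul_of_nonneg_right (hν _ (incl_mem d u)) (sq_nonneg ‖val (incl d v)‖)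
    have h3 := mul_le_mul_of_nonneg_right (hν _ (incl_mem d v)) (sq_nonneg ‖val (incl d u)‖)
    linarith only [h1, h2, h3]
  · obtain ⟨w, hw, h1, h2, h3⟩ := h.test i (Finset.mem_univ i)
    refine ⟨mkK d w hw, ?_, ?_, ?_⟩
    · rw [hP, incl_mkK, h1, one_pow]
    · rw [hq, incl_mkK]
      exact h2
    · rw [hq, incl_mkK]
      exact h3

theorem wells_exist [Nonempty ι] (hs : Std r k) {η : ℝ} (hη : 0 < η) :
    ∃ (d : Dom) (l1 l2 s : ℝ), SmoothDomain d.Ω ∧ (ctx d).Wells l1 l2 s η r k := by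
  have hS := S0_pos
  obtain ⟨s, δ, s0, s1, δ0, h⟩ := wells_single hs (half_pos hη)
    (s₀ := η * (S0 / (2 * (1 + η)))) (by positivity)
  obtain ⟨g, a, b, hg, hD⟩ := chain hs s0.le δ0.le (half_pos hη).le h Finset.univ_nonempty η
    (half_lt_self hη)
  have hsm := hg.smoothDomain
  exact ⟨⟨Rev g, hsm.1, hsm.2.1, hsm.2.2.1⟩, _, _, s, hsm, Dec.wells hs hD s0 δ0 hη s1⟩

end CritSys
end
end

-- merged part: Pool.Agent.Work.MP_80ee1d_an.V.Chain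
section
/-!
A chain of ellipsoids has the prescribed wells.

PLAN. Adapt `U/Chain.lean` (`wells_single`, `chain`, `Dec.wells`, `wells_exist`) with `DecG`, `wellG`,
`DecG.mono`, `DecG.merge`.  In the analogue of `wells_single` add the conclusion `δ ≤ η`
(`δ = s / ((1 - e) c)` is small for small `s`); `chain` then has the hypothesis `δ ≤ η₀`.
For `WG` take `l1 = -(1 + δ)`, `l2 = -1`, `m u = m (incl d u)`, `ν u = ν (incl d u)`, and use
`qd 1 u = qd (1 + δ) u + δ Md u`: the third inequality is `hk`, the fourth is `hk'`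
(`r i - (r i - k i) = k i`, `r i - k i - r i = - k i`), `s ν u ≤ η qd (1 + δ) u ≤ η qd 1 u`.
-/

open MeasureTheory Filter Topology Metric
open scoped ContDiff RealInnerProductSpace ENNReal

noncomputable section
namespace CritSys

variable {ι : Type} [Fintype ι] [DecidableEq ι] {r k : ι → ℝ}

theorem wg_single (hs : Std r k) {η s₀ : ℝ} (hη : 0 < η) (hs₀ : 0 < s₀) :
    ∃ s δ : ℝ, 0 < s ∧ s ≤ s₀ ∧ 0 < δ ∧ δ ≤ η ∧ ∀ i, ∃ a b : ℝ, 0 < a ∧ 0 < b ∧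
      ∀ p, DecG (Ell a b p) {i} r k s δ η := by
  obtain ⟨v₀, hv⟩ := shape
  obtain ⟨c, c0, hc⟩ : ∃ c : ℝ, 0 < c ∧ ∀ i, v₀ ≤ c * k i :=
    ((eventually_gt_atTop 0).and (eventually_all.2 fun i =>
      (tendsto_id.atTop_mul_const (hs i).2.1).eventually_ge_atTop v₀)).exists
  choose l Λ K l0 Λ0 K0 hK hρ using fun i => hv _ (hc i)
  have e2 : ∀ᶠ e in 𝓝[>] (0 : ℝ), e ∈ Set.Ioo (0 : ℝ) 1 := Ioo_mem_nhdsGT one_pos
  obtain ⟨e, ⟨e0, e1⟩, he⟩ := (e2.and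
    (eventually_all.2 fun i => wellG r k i (hs i).2.1 (hs i).2.2 c0 hη)).exists
  choose ρ ρ0 hρ' using fun i => hρ i (e / 2) (half_pos e0)
  have s2 : ∀ᶠ s in 𝓝[>] (0 : ℝ), s ∈ Set.Ioc (0 : ℝ) s₀ := Ioc_mem_nhdsGT hs₀
  have s3 : ∀ i, ∀ᶠ s in 𝓝[>] (0 : ℝ), r i * s / (c * k i) < 1 := fun i =>
    Well_ev (by fun_prop) continuous_const (by simp)
  have s4 : ∀ᶠ s in 𝓝[>] (0 : ℝ), s / ((1 - e) * c) < η :=
    Well_ev (by fun_prop) continuous_const (by simpa using hη)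
  obtain ⟨s, ⟨s0, s1⟩, hδ, hy, h⟩ := (s2.and (s4.and ((eventually_all.2 s3).and
    (eventually_all.2 fun i => he i (ρ i) (ρ0 i))))).exists
  have e3 : 0 < 1 - e := sub_pos.2 e1
  refine ⟨s, s / ((1 - e) * c), s0, s1, by positivity, hδ.le, fun i => ?_⟩
  have y0 : 0 < 1 - r i * s / (c * k i) := sub_pos.2 (hy i)
  have h0 : 0 < Λ i * (1 - r i * s / (c * k i)) := mul_pos (Λ0 i) y0
  obtain ⟨a, a0, ha⟩ : ∃ a : ℝ, 0 < a ∧ a ^ 2 = Λ i * (1 - r i * s / (c * k i)) :=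
    ⟨_, Real.sqrt_pos.2 h0, Real.sq_sqrt h0.le⟩
  refine ⟨a, a * l i, a0, mul_pos a0 (l0 i), fun p => ?_⟩
  obtain ⟨h1, h2, h3⟩ := hρ' i a p a0
  have q1 : Λ i / a ^ 2 = 1 / (1 - r i * s / (c * k i)) := by
    rw [ha, div_mul_eq_div_div, div_self (Λ0 i).ne']
  have q2 : a ^ 2 * K i = (1 - r i * s / (c * k i)) * (c * k i) := by
    rw [ha, mul_right_comm, hK i, mul_comm]
  rw [q1] at h1 h2 h3
  rw [q2] at h3
  exact h i _ (prof_ell a0 (mul_pos a0 (l0 i)) p).smoothDomain.2.2.1 h1 h2 h3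

omit [Fintype ι] in
theorem wg_chain (hs : Std r k) {s δ η₀ : ℝ} (hs0 : 0 ≤ s) (hδ : 0 ≤ δ) (h0 : δ ≤ η₀)
    (h : ∀ i, ∃ a b : ℝ, 0 < a ∧ 0 < b ∧ ∀ p, DecG (Ell a b p) {i} r k s δ η₀) {T : Finset ι}
    (hT : T.Nonempty) : ∀ η, η₀ < η → ∃ g a b, Prof g a b ∧ DecG (Rev g) T r k s δ η := by
  have hr : ∀ i, 0 ≤ r i := fun i => zero_le_one.trans (hs i).1
  have hw : ∀ i, k i ≤ r i := fun i => (hs i).2.2.le
  induction hT using Finset.Nonempty.cons_induction with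
  | singleton i =>
    intro η hη
    obtain ⟨a, b, a0, b0, h⟩ := h i
    exact ⟨_, _, _, prof_ell a0 b0 0, (h 0).mono hr hw hs0 hδ hη.le⟩
  | cons i T hi hT ih =>
    intro η hη
    obtain ⟨η₁, h1, h2⟩ := exists_between hη
    obtain ⟨g₁, a', b', hg₁, hD⟩ := ih η₁ h1
    obtain ⟨a, b, a0, b0, h⟩ := h i
    have hp := prof_ell a0 b0 (b' + b)
    rw [add_sub_cancel_right] at hp
    obtain ⟨ρ', ρ0, hm⟩ := hD.merge ((h (b' + b)).mono hr hw hs0 hδ h1.le)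
      (Finset.disjoint_singleton_right.2 hi) hr hw hs0 hδ (h0.trans h1.le) h2
      (EuclideanSpace.single 3 b')
    obtain ⟨g, ρ, ρ1, hg, s1, s2, hx⟩ := glue hg₁ hp ρ0
    refine ⟨g, _, _, hg, ?_⟩
    have e : (EuclideanSpace.single 3 b' : E4) 3 = b' := by simp
    have h3 := hm (Rev g) ρ hg.smoothDomain.1 hg.smoothDomain.2.2.1 ρ1 s1 s2 (by
      rw [e]; exact hx)
    rwa [Finset.cons_eq_insert, Finset.insert_eq, Finset.union_comm]

theorem DecG.wg (hs : Std r k) {d : Dom} {s δ η : ℝ} (h : DecG d.Ω Finset.univ r k s δ η)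
    (hs0 : 0 < s) (hδ : 0 < δ) (hη : 0 < η) (hsm : s ≤ η * (S0 / (2 * (1 + η)))) :
    (ctx d).WG (-(1 + δ)) (-1) s η (fun i => r i - k i) r := by
  obtain ⟨c, m, ν, c0, h⟩ := h
  have W := Dec.wells hs (d := d) ⟨c, m, ν, c0, h.toDecF⟩ hs0 hδ hη hsm
  have hS := S0_pos
  have hq : ∀ l u, (ctx d).q (-l) u = qd l (incl d u) := fun l u => by
    rw [Ctx.q, qd, (show (ctx d).M u u = Md (incl d u) from (K_M u).2), norm_incl]
    ring
  have hv : ∀ u, ‖(ctx d).val u‖ = ‖val (incl d u)‖ := norm_valK d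
  have hP : ∀ u, (ctx d).P u = ‖val (incl d u)‖ ^ 4 := fun u => by rw [Ctx.P_eq, hv]
  have hw : ∀ u, 0 ≤ s * ∑ i, (r i - k i) * m u i := fun u => mul_nonneg hs0.le
    (Finset.sum_nonneg fun i _ => mul_nonneg (sub_nonneg.2 (hs i).2.2.le) (h.m0 u i))
  have hν : ∀ u ∈ H0 d.Ω, s * ν u ≤ η * qd (1 + δ) u := fun u hu => by
    have h1 : S0 / 2 * ν u ≤ (1 + η) * qd (1 + δ) u := by linarith only [h, hu, hw, h.h1 u hu, hw u]
    have h2 : S0 / (2 * (1 + η)) * ν u ≤ qd (1 + δ) u := by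
      rw [← div_div, div_mul_eq_mul_div, div_le_iff₀ (by positivity)]
      linarith only [h1]
    calc s * ν u ≤ η * (S0 / (2 * (1 + η))) * ν u := mul_le_mul_of_nonneg_right hsm (h.ν0 u)
      _ ≤ η * qd (1 + δ) u := by
        rw [mul_assoc]
        exact mul_le_mul_of_nonneg_left h2 hη.le
  have h4 : ∀ u, qd 1 u = qd (1 + δ) u + δ * Md u := fun u => by
    rw [qd, qd]
    ring
  refine ⟨W.a1, W.a2, hs0, ⟨fun u i => m (incl d u) i, fun u => ν (incl d u), fun u i => h.m0 _ i,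
    fun u => ?_, fun u => ?_, fun u => ?_, fun u => ?_, fun u => ?_, fun u => ?_, fun u => ?_,
    fun u v => ?_⟩, fun i => ?_⟩
  · rw [hP]
    exact h.sq _ (incl_mem d u)
  · rw [hq]
    have h1 : 0 ≤ S0 / 2 * ν (incl d u) := mul_nonneg (half_pos hS).le (h.ν0 _)
    linarith only [h1, h, h.h1 _ (incl_mem d u)]
  · rw [hq]
    exact h.h2 _ (incl_mem d u)
  · simp only [hq, sub_sub_cancel]
    linarith [h.hk _ (incl_mem d u), h4 (incl d u)]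
  · simp only [hq, sub_sub_cancel_left, neg_mul, Finset.sum_neg_distrib]
    linarith only [h, h4, h.hk' _ (incl_mem d u), h4 (incl d u)]
  · rw [hq]
    exact hν _ (incl_mem d u)
  · rw [hq]
    exact (hν _ (incl_mem d u)).trans (mul_le_mul_of_nonneg_left (Dec_le hδ.le _) hη.le)
  · rw [hv, hv, Ctx.R, K_T]
    exact h.hR _ (incl_mem d u) _ (incl_mem d v)
  · obtain ⟨w, hw, h1, h2⟩ := h.test' i (Finset.mem_univ i)
    refine ⟨mkK d w hw, by rw [hP, incl_mkK, h1, one_pow], ?_⟩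
    rw [hq, hq, incl_mkK]
    exact h2

theorem wg_exist [Nonempty ι] (hs : Std r k) {η : ℝ} (hη : 0 < η) :
    ∃ (d : Dom) (l1 l2 s : ℝ), SmoothDomain d.Ω ∧ l1 < l2 ∧
      (ctx d).WG l1 l2 s η (fun i => r i - k i) r := by
  have hS := S0_pos
  obtain ⟨s, δ, s0, s1, δ0, δ1, h⟩ := wg_single hs (half_pos hη)
    (s₀ := η * (S0 / (2 * (1 + η)))) (by positivity)
  obtain ⟨g, a, b, hg, hD⟩ := wg_chain hs s0.le δ0.le δ1 h Finset.univ_nonempty η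
    (half_lt_self hη)
  have hsm := hg.smoothDomain
  exact ⟨⟨Rev g, hsm.1, hsm.2.1, hsm.2.2.1⟩, _, _, s, hsm, by linarith only [δ0],
    DecG.wg hs hD s0 δ0 hη s1⟩

end CritSys
end
end
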