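import Pool.Agent.Work.MP_80ee1d_an.V.Chain
import Pool.Agent.Work.MP_80ee1d_an.V.Param

-- merged part: Pool.Agent.Work.MP_80ee1d_an.U.Non
section
/-!
Non-existence of ground states in a domain with wells.

PLAN. First prove the statement for an abstract context under a purely numerical hypothesis on `η`
(the conclusion of `pair_small` and finitely many strict inequalities that hold for small `η`).
Take `z, w, σ, t` from `gs_data`, `c = σ q l1 z + t q l2 w`, `X = q l1 z / s`, `Y = q l2 w / s`,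
`Z = q l1 w / s`, `τ = R z w ∈ [0, 1]`, `b = β τ`, `ρ = (1 + η) r i`, `φ` the test function of the well
`i` (`R φ φ = P φ = 1`), and `Wells.pair`.
`non_low`: `semi2` for `φ, φ` with `x = s (r i - k i + η)`, `y = s ρ` (`m2 x ≤ β y` for small `η`) gives
`c m2 ≤ s² ρ²`.  With `D = m1 m2 - b² ∈ [0, m1 m2]`: `m2 c - (q l2 w)² = σ² D`,
`m2 q l1 z - b q l2 w = σ D`, so `Y ≤ ρ` and `(m2 X - b Y)² ≤ m1 m2 (ρ² - Y²)`.  Picone:
`β q l2 w = β² τ σ + β m2 t ≤ m2 (m1 σ τ + β t) ≤ m2 q l1 w`.  Use `pair_small` with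
`G = {Y ≤ (1+η) r i, β Y ≤ m2 Z, (m2 X - β τ Y)² ≤ m1 m2 (((1+η) r i)² - Y²)}`, `toy_nonLow`, and a bound
`B` valid for `η ≤ 1` (`ρ ≤ 9/4`, `m2 X ≤ 3 β + (1 + 6 m1 m2)`).
`non_up`: `semi1` for `φ, φ` with `y = s ρ`, `x = m1 y / β ≥ s (r i - k i + η)` gives
`c β² ≤ m1 s² ρ²`.  For small `η`, `m1 m2 ρ² < β² (1 - 3η)²`, so `m2 c < (q l2 w)²` (`Pair.low`), hence
`D < 0`; `b² c - m1 (q l2 w)² = -D (2 b σ t + m2 t²) ≥ 0` gives `Y ≤ τ ρ ≤ ρ`.  If `c b < q l1 z q l2 w`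
then `c q l2 w = c b σ + c m2 t < q l2 w (σ q l1 z + t q l2 w)`, absurd; so `β X Y ≤ τ m1 ρ²`.  Picone:
`m1 q l2 w = m1 b σ + m1 m2 t ≤ β (m1 σ τ + β t) ≤ β q l1 w`.  Use `pair_small` with
`G = {Y ≤ (1+η) r i, m1 Y ≤ β Z, β X Y ≤ τ m1 ((1+η) r i)²}` (`Y ≥ 1/2` bounds `X`) and `toy_nonUp`.
-/

open MeasureTheory Filter Topology
open scoped RealInnerProductSpace

noncomputable section
namespace CritSys

variable {ι : Type} [Fintype ι] [DecidableEq ι] {r k : ι → ℝ} {m1 m2 β : ℝ}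

theorem Non_ev {f g : ℝ → ℝ} (hf : Continuous f) (hg : Continuous g) (h : f 0 < g 0) :
    ∀ᶠ η in 𝓝[>] (0 : ℝ), f η < g η :=
  (hf.continuousAt.eventually_lt hg.continuousAt h).filter_mono nhdsWithin_le_nhds

theorem Non_data {X : Type} [MeasurableSpace X] {H : Type} [NormedAddCommGroup H]
    [InnerProductSpace ℝ H] [CompleteSpace H] [TopologicalSpace.SeparableSpace H] {μ : Measure X}
    [IsFiniteMeasure μ] {C : Ctx H μ} {l1 l2 s η : ℝ} (h1 : 0 < m1) (h2 : 0 < m2)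
    (hη : 0 ≤ η) (hW : C.Wells l1 l2 s η r k)
    (hG : C.GS l1 l2 m1 m2 β) (i : ι) : ∃ (m n : ι → ℝ) (x y τ z σ t : ℝ),
      Pair r k η m n x y τ z ∧ Sys m1 m2 β x y 1 1 τ σ t ∧ m1 * σ * τ + β * t ≤ z ∧
      (∀ a, r i - k i + η ≤ a → m1 * ((1 + η) * r i) ≤ β * a → (σ * x + t * y) * m1 ≤ a ^ 2) ∧
      (m2 * (r i - k i + η) ≤ β * ((1 + η) * r i) →
        (σ * x + t * y) * m2 ≤ ((1 + η) * r i) ^ 2) := by
  obtain ⟨z, w, σ, t, hz, hw, ⟨s1, s2, s3, s4⟩, hL, hP⟩ := C.gs_data hG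
  obtain ⟨m, n, hp⟩ := hW.pair hη hz hw
  obtain ⟨φ, p1, p2, p3⟩ := hW.test i
  have hs := hW.s0
  have hR : C.R φ φ = 1 := p1
  have e : ∀ u : ℝ, (σ / s * (C.q l1 z / s) + t / s * (C.q l2 w / s)) * u =
      (σ * C.q l1 z + t * C.q l2 w) * u / s ^ 2 := fun u => by field_simp
  refine ⟨m, n, _, _, _, _, σ / s, t / s, hp, ⟨div_pos s1 hs, div_pos s2 hs, ?_, ?_⟩, ?_,
    fun a ha hb => ?_, fun hb => ?_⟩
  · rw [s3]; ring
  · rw [s4]; ring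
  · rw [le_div_iff₀ hs]
    refine le_of_eq_of_le ?_ hP
    field_simp
  · have := C.semi1 hW.a1 hW.a2 h1 h2 hL p1 p1 (x := s * a) (y := s * ((1 + η) * r i))
      (p3.trans (mul_le_mul_of_nonneg_left ha hs.le)) p2
      (by rw [hR]; linarith only [hb, hs, mul_le_mul_of_nonneg_left hb hs.le])
    rw [e, div_le_iff₀ (by positivity)]
    linarith [mul_pow s a 2, mul_comm (a ^ 2) (s ^ 2)]
  · have := C.semi2 hW.a1 hW.a2 h1 h2 hL p1 p1 p3 p2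
      (by rw [hR]; linarith only [hb, hs, mul_le_mul_of_nonneg_left hb hs.le])
    rw [e, div_le_iff₀ (by positivity)]
    linarith [mul_pow s ((1 + η) * r i) 2, mul_comm (((1 + η) * r i) ^ 2) (s ^ 2)]

theorem Non_lowA (h1 : 0 < m1) (h2 : 0 < m2) (hd : β ^ 2 ≤ m1 * m2)
    {x y τ z σ t ρ : ℝ} (τ0 : 0 ≤ τ) (τ1 : τ ≤ 1) (h : Sys m1 m2 β x y 1 1 τ σ t)
    (hz : m1 * σ * τ + β * t ≤ z) (ρ0 : 0 ≤ ρ) (hc : (σ * x + t * y) * m2 ≤ ρ ^ 2) :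
    y ≤ ρ ∧ β * y ≤ m2 * z ∧ (m2 * x - β * τ * y) ^ 2 ≤ m1 * m2 * (ρ ^ 2 - y ^ 2) := by
  obtain ⟨s1, s2, s3, s4⟩ := h
  obtain ⟨D, hD⟩ : ∃ D, D = m1 * m2 - (β * τ) ^ 2 := ⟨_, rfl⟩
  have hτ : τ ^ 2 ≤ 1 := pow_le_one₀ τ0 τ1
  have D0 : 0 ≤ D := by
    have := mul_le_mul_of_nonneg_left hτ (sq_nonneg β)
    rw [hD, mul_pow]; linarith only [hd, this]
  have D1 : D ≤ m1 * m2 := by rw [hD]; linarith [sq_nonneg (β * τ)]
  have e1 : (σ * x + t * y) * m2 - y ^ 2 = σ ^ 2 * D := by rw [s3, s4, hD]; ring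
  have e2 : m2 * x - β * τ * y = σ * D := by rw [s3, s4, hD]; ring
  have i0 : 0 ≤ σ ^ 2 * D := by positivity
  have i1 : σ ^ 2 * D ≤ ρ ^ 2 - y ^ 2 := by linarith
  refine ⟨(abs_le_of_sq_le_sq' (by linarith) ρ0).2, ?_, ?_⟩
  · have a1 := mul_le_mul_of_nonneg_right hd (mul_nonneg τ0 s1.le)
    have a2 := mul_le_mul_of_nonneg_left hz h2.le
    rw [s4]
    linarith
  · rw [e2]
    calc (σ * D) ^ 2 = D * (σ ^ 2 * D) := by ring
      _ ≤ m1 * m2 * (ρ ^ 2 - y ^ 2) := mul_le_mul D1 i1 i0 (by positivity)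

theorem Non_upA (h1 : 0 < m1) (h2 : 0 < m2) (hβ : 0 < β) {x y τ z σ t ρ e : ℝ} (τ0 : 0 ≤ τ)
    (τ1 : τ ≤ 1) (h : Sys m1 m2 β x y 1 1 τ σ t) (hz : m1 * σ * τ + β * t ≤ z) (ρ0 : 0 ≤ ρ)
    (hc : (σ * x + t * y) * β ^ 2 ≤ m1 * ρ ^ 2) (e0 : 0 ≤ e) (hy : e ≤ y)
    (hd : m1 * m2 * ρ ^ 2 < β ^ 2 * e ^ 2) :
    y ≤ ρ ∧ m1 * y ≤ β * z ∧ β * x * y ≤ τ * m1 * ρ ^ 2 := by
  obtain ⟨s1, s2, s3, s4⟩ := h
  obtain ⟨D, hD⟩ : ∃ D, D = (β * τ) ^ 2 - m1 * m2 := ⟨_, rfl⟩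
  obtain ⟨c, hc'⟩ : ∃ c, c = σ * x + t * y := ⟨_, rfl⟩
  rw [← hc'] at hc
  have hτ : τ ^ 2 ≤ 1 := pow_le_one₀ τ0 τ1
  have hb : 0 < β ^ 2 := by positivity
  have e1 : y ^ 2 - c * m2 = σ ^ 2 * D := by rw [hc', s3, s4, hD]; ring
  have e2 : (β * τ) ^ 2 * c - m1 * y ^ 2 = D * (2 * (β * τ) * σ * t + m2 * t ^ 2) := by
    rw [hc', s3, s4, hD]; ring
  have e3 : c * (β * τ) - x * y = D * (σ * t) := by rw [hc', s3, s4, hD]; ring
  have D0 : 0 < D := by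
    have a1 : e ^ 2 ≤ y ^ 2 := pow_le_pow_left₀ e0 hy 2
    have a2 := mul_le_mul_of_nonneg_left a1 hb.le
    have a3 := mul_le_mul_of_nonneg_left hc h2.le
    have a4 : β ^ 2 * (c * m2) < β ^ 2 * y ^ 2 := by linarith only [hd, a2, a3]
    have a5 := lt_of_mul_lt_mul_left a4 hb.le
    have a6 : 0 < σ ^ 2 * D := by linarith
    exact (mul_pos_iff_of_pos_left (pow_pos s1 2)).1 a6
  refine ⟨?_, ?_, ?_⟩
  · have a1 : 0 ≤ D * (2 * (β * τ) * σ * t + m2 * t ^ 2) := by positivity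
    have a2 := mul_le_mul_of_nonneg_left hc (sq_nonneg τ)
    have a3 := mul_le_mul_of_nonneg_right hτ (show 0 ≤ m1 * ρ ^ 2 by positivity)
    have a4 : m1 * y ^ 2 ≤ m1 * ρ ^ 2 := by linarith only [e2, a1, a2, a3, mul_pow β τ 2]
    exact (abs_le_of_sq_le_sq' (le_of_mul_le_mul_left a4 h1) ρ0).2
  · have a1 := mul_le_mul_of_nonneg_left hτ hb.le
    have a2 : m1 * m2 ≤ β ^ 2 := by linarith only [hD, D0, a1, mul_pow β τ 2]
    have a3 := mul_le_mul_of_nonneg_right a2 s2.le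
    have a4 := mul_le_mul_of_nonneg_left hz hβ.le
    rw [s4]
    linarith
  · have a1 : 0 ≤ D * (σ * t) := by positivity
    have a2 : x * y ≤ c * (β * τ) := by linarith
    have a3 := mul_le_mul_of_nonneg_left a2 hβ.le
    have a4 := mul_le_mul_of_nonneg_left hc τ0
    linarith only [a3, a4]

theorem non_low (h1 : 0 < m1) (h2 : 0 < m2) (hβ : 0 < β) (hs : Std r k) {i : ι} {g : ℝ}
    (h : NonLow m1 m2 β r k i g) : ∀ᶠ η in 𝓝[>] (0 : ℝ), ∀ (d : Dom) (l1 l2 s : ℝ),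
      (ctx d).Wells l1 l2 s η r k → ¬ (ctx d).GS l1 l2 m1 m2 β := by
  have hG : IsClosed {p : ℝ × ℝ × ℝ × ℝ × ℝ | p.2.2.1 ≤ (1 + p.1) * r i ∧
      β * p.2.2.1 ≤ m2 * p.2.2.2.2 ∧ (m2 * p.2.1 - β * p.2.2.2.1 * p.2.2.1) ^ 2 ≤
        m1 * m2 * (((1 + p.1) * r i) ^ 2 - p.2.2.1 ^ 2)} := by
    refine IsClosed.and ?_ (IsClosed.and ?_ ?_) <;> exact isClosed_le (by fun_prop) (by fun_prop)
  have E1 := pair_small r k (max ((3 * β + (1 + 6 * (m1 * m2))) / m2) 3) hG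
    fun m n X Y τ Z hp ⟨a, b, c⟩ =>
      toy_nonLow h1 h2 hβ hs h hp (by simpa using a) b (by simpa using c)
  have E2 := Non_ev (f := fun η => m2 * (r i - k i + η)) (g := fun η => β * ((1 + η) * r i))
    (by fun_prop) (by fun_prop) (by simpa using h.hi)
  have E3 : ∀ᶠ η in 𝓝[>] (0 : ℝ), η ∈ Set.Ioo 0 1 := Ioo_mem_nhdsGT one_pos
  filter_upwards [E1, E2, E3] with η e1 e2 ⟨η0, η1⟩ d l1 l2 s hW hG
  obtain ⟨m, n, x, y, τ, z, σ, t, hp, hS, hz, -, hc⟩ := Non_data h1 h2 η0.le hW hG i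
  have r0 : 0 ≤ r i := zero_le_one.trans (hs i).1
  have ρ0 : 0 ≤ (1 + η) * r i := by positivity
  have ρ1 : (1 + η) * r i ≤ 9 / 4 := by linarith only [η1, h, η0, h.hr, mul_nonneg_of_nonpos_of_nonpos (le_of_lt (Mathlib.Tactic.Linarith.sub_neg_of_lt η0)) (Mathlib.Tactic.Linarith.sub_nonpos_of_le h.hr)]
  obtain ⟨a, b, c⟩ := Non_lowA h1 h2 h.hd hp.τ0 hp.τ1 hS hz ρ0 (hc e2.le)
  refine e1 m n x y τ z hp (le_max_of_le_left ?_) (le_max_of_le_right (by linarith only [η0, η1, ρ1, a])) ⟨a, b, c⟩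
  have y0 : 0 ≤ y := hp.Z0.trans hp.ZY
  have a1 : ((1 + η) * r i) ^ 2 - y ^ 2 ≤ 6 := by (refine le_of_not_gt fun h_nl => ?_; linarith only [h_nl, ρ1, η0, η1, ρ0, sq_nonneg y, mul_pos_of_neg_of_neg (Mathlib.Tactic.Linarith.sub_neg_of_lt η0) (Mathlib.Tactic.Linarith.sub_neg_of_lt η0), mul_pos_of_neg_of_neg (Mathlib.Tactic.Linarith.sub_neg_of_lt η0) (Mathlib.Tactic.Linarith.sub_neg_of_lt η1), mul_pos_of_neg_of_neg (Mathlib.Tactic.Linarith.sub_neg_of_lt η0) (Mathlib.Tactic.Linarith.sub_neg_of_lt h_nl), mul_pos_of_neg_of_neg (Mathlib.Tactic.Linarith.sub_neg_of_lt η1) (Mathlib.Tactic.Linarith.sub_neg_of_lt η1), mul_pos_of_neg_of_neg (Mathlib.Tactic.Linarith.sub_neg_of_lt η1) (Mathlib.Tactic.Linarith.sub_neg_of_lt h_nl), mul_nonneg_of_nonpos_of_nonpos (Mathlib.Tactic.Linarith.sub_nonpos_of_le ρ0) (Mathlib.Tactic.Linarith.sub_nonpos_of_le ρ1)])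
  have a2 := mul_le_mul_of_nonneg_left a1 (mul_pos h1 h2).le
  have a3 : τ * y ≤ 3 := by (refine le_of_not_gt fun h_nl => ?_; linarith only [h_nl, ρ1, η0, η1, ρ0, hp, a, hp.τ0, hp.τ1, mul_pos_of_neg_of_neg (Mathlib.Tactic.Linarith.sub_neg_of_lt η0) (Mathlib.Tactic.Linarith.sub_neg_of_lt η0), mul_pos_of_neg_of_neg (Mathlib.Tactic.Linarith.sub_neg_of_lt η0) (Mathlib.Tactic.Linarith.sub_neg_of_lt η1), mul_pos_of_neg_of_neg (Mathlib.Tactic.Linarith.sub_neg_of_lt η0) (Mathlib.Tactic.Linarith.sub_neg_of_lt h_nl), mul_pos_of_neg_of_neg (Mathlib.Tactic.Linarith.sub_neg_of_lt η1) (Mathlib.Tactic.Linarith.sub_neg_of_lt η1), mul_pos_of_neg_of_neg (Mathlib.Tactic.Linarith.sub_neg_of_lt η1) (Mathlib.Tactic.Linarith.sub_neg_of_lt h_nl), mul_nonneg_of_nonpos_of_nonpos (Mathlib.Tactic.Linarith.sub_nonpos_of_le ρ0) (Mathlib.Tactic.Linarith.sub_nonpos_of_le hp.τ1), mul_nonneg_of_nonpos_of_nonpos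 (Mathlib.Tactic.Linarith.sub_nonpos_of_le a) (Mathlib.Tactic.Linarith.sub_nonpos_of_le hp.τ0)])
  have a4 := mul_le_mul_of_nonneg_left a3 hβ.le
  rw [le_div_iff₀ h2]
  linarith only [η0, η1, c, a2, a4, sq_nonneg (m2 * x - β * τ * y - 1), sq_nonneg (m2 * x - β * τ * y), sq_nonneg (m2 * x - β * τ * y), sq_nonneg (m2 * x - β * τ * y - (1 : ℝ))]

theorem non_up (h1 : 0 < m1) (h2 : 0 < m2) (hβ : 0 < β) (hs : Std r k) {i : ι}
    (h : NonUp m1 m2 β r k i) : ∀ᶠ η in 𝓝[>] (0 : ℝ), ∀ (d : Dom) (l1 l2 s : ℝ),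
      (ctx d).Wells l1 l2 s η r k → ¬ (ctx d).GS l1 l2 m1 m2 β := by
  have hG : IsClosed {p : ℝ × ℝ × ℝ × ℝ × ℝ | p.2.2.1 ≤ (1 + p.1) * r i ∧
      m1 * p.2.2.1 ≤ β * p.2.2.2.2 ∧ β * p.2.1 * p.2.2.1 ≤
        p.2.2.2.1 * m1 * ((1 + p.1) * r i) ^ 2} := by
    refine IsClosed.and ?_ (IsClosed.and ?_ ?_) <;> exact isClosed_le (by fun_prop) (by fun_prop)
  have E1 := pair_small r k (max (12 * m1 / β) 3) hG
    fun m n X Y τ Z hp ⟨a, b, c⟩ =>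
      toy_nonUp h1 hβ hs h hp (by simpa using a) b (by simpa using c)
  have E2 := Non_ev (f := fun η => β * (r i - k i + η)) (g := fun η => m1 * ((1 + η) * r i))
    (by fun_prop) (by fun_prop) (by simpa using h.hi)
  have E2' := Non_ev (f := fun η => m1 * m2 * ((1 + η) * r i) ^ 2)
    (g := fun η => β ^ 2 * (1 - 3 * η) ^ 2) (by fun_prop) (by fun_prop) (by simpa using h.hd)
  have E3 : ∀ᶠ η in 𝓝[>] (0 : ℝ), η ∈ Set.Ioo 0 (1 / 6) := Ioo_mem_nhdsGT (by norm_num)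
  filter_upwards [E1, E2, E2', E3] with η e1 e2 e3 ⟨η0, η1⟩ d l1 l2 s hW hG
  obtain ⟨m, n, x, y, τ, z, σ, t, hp, hS, hz, hc, -⟩ := Non_data h1 h2 η0.le hW hG i
  have r0 : 0 ≤ r i := zero_le_one.trans (hs i).1
  have ρ0 : 0 ≤ (1 + η) * r i := by positivity
  have ρ1 : (1 + η) * r i ≤ 9 / 4 := by linarith only [η1, h, η0, h.hr, mul_pos_of_neg_of_neg (Mathlib.Tactic.Linarith.sub_neg_of_lt η0) (Mathlib.Tactic.Linarith.sub_neg_of_lt η0), mul_pos_of_neg_of_neg (Mathlib.Tactic.Linarith.sub_neg_of_lt η0) (Mathlib.Tactic.Linarith.sub_neg_of_lt η1), mul_nonneg_of_nonpos_of_nonpos (le_of_lt (Mathlib.Tactic.Linarith.sub_neg_of_lt η0)) (Mathlib.Tactic.Linarith.sub_nonpos_of_le h.hr)]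
  have hc1 := hc (m1 * ((1 + η) * r i) / β) (by rw [le_div_iff₀ hβ]; linarith only [e2])
    (by rw [mul_div_cancel₀ _ hβ.ne'])
  have hc2 : (σ * x + t * y) * β ^ 2 ≤ m1 * ((1 + η) * r i) ^ 2 := by
    rw [div_pow, le_div_iff₀ (by positivity)] at hc1
    refine le_of_mul_le_mul_left ?_ h1
    linarith only [hc1, mul_pow m1 ((1 + η) * r i) 2]
  have y1 := hp.low hs η0.le
  obtain ⟨a, b, c⟩ := Non_upA h1 h2 hβ hp.τ0 hp.τ1 hS hz ρ0 hc2 (by linarith only [η0, η1]) y1 e3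
  refine e1 m n x y τ z hp (le_max_of_le_left ?_) (le_max_of_le_right (by linarith only [η0, η1, ρ1, a])) ⟨a, b, c⟩
  have a1 : ((1 + η) * r i) ^ 2 ≤ 6 := by (refine le_of_not_gt fun h_nl => ?_; linarith only [h_nl, ρ1, η0, η1, ρ0, mul_pos_of_neg_of_neg (Mathlib.Tactic.Linarith.sub_neg_of_lt η0) (Mathlib.Tactic.Linarith.sub_neg_of_lt η0), mul_pos_of_neg_of_neg (Mathlib.Tactic.Linarith.sub_neg_of_lt η0) (Mathlib.Tactic.Linarith.sub_neg_of_lt η1), mul_pos_of_neg_of_neg (Mathlib.Tactic.Linarith.sub_neg_of_lt η0) (Mathlib.Tactic.Linarith.sub_neg_of_lt h_nl), mul_pos_of_neg_of_neg (Mathlib.Tactic.Linarith.sub_neg_of_lt η1) (Mathlib.Tactic.Linarith.sub_neg_of_lt η1), mul_pos_of_neg_of_neg (Mathlib.Tactic.Linarith.sub_neg_of_lt η1) (Mathlib.Tactic.Linarith.sub_neg_of_lt h_nl), mul_nonneg_of_nonpos_of_nonpos (Mathlib.Tactic.Linarith.sub_nonpos_of_le ρ0) (Mathlib.Tactic.Linarith.sub_nonpos_of_le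 ρ1)])
  have a2 : τ * ((1 + η) * r i) ^ 2 ≤ 6 := by linarith only [a1, hp, hp.τ0, hp.τ1, mul_nonneg_of_nonpos_of_nonpos (Mathlib.Tactic.Linarith.sub_nonpos_of_le (sq_nonneg (((1 : ℝ) + η) * r i))) (Mathlib.Tactic.Linarith.sub_nonpos_of_le hp.τ1)]
  have a3 := mul_le_mul_of_nonneg_left a2 h1.le
  have a4 := mul_le_mul_of_nonneg_left (show 1 / 2 ≤ y by linarith only [η1, y1]) (mul_nonneg hβ.le hp.X0)
  rw [le_div_iff₀ hβ]
  linarith only [c, a3, a4]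

end CritSys
end
end

-- merged part: Pool.Agent.Work.MP_80ee1d_an.V.Non
section
/-!
Non-existence of ground states in a domain with wells.

PLAN. Adapt `U/Non.lean` (`Non_data`, `non_low`, `non_up`; `Non_ev`, `Non_lowA`, `Non_upA` are reused).
Changes: `Wells` becomes `WG`, `Pair` becomes `PairG` (`0 ≤ y` is the field `Y0`), and the bound of the test
function for the first form is `s * ((1 + η) * (r i - k i))` instead of `s * (r i - k i + η)`.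
-/

open MeasureTheory Filter Topology
open scoped RealInnerProductSpace

noncomputable section
namespace CritSys

variable {ι : Type} [Fintype ι] [DecidableEq ι] {r k : ι → ℝ} {m1 m2 β : ℝ}

theorem Non_dataG {X : Type} [MeasurableSpace X] {H : Type} [NormedAddCommGroup H]
    [InnerProductSpace ℝ H] [CompleteSpace H] [TopologicalSpace.SeparableSpace H] {μ : Measure X}
    [IsFiniteMeasure μ] {C : Ctx H μ} {l1 l2 s η : ℝ} (h1 : 0 < m1) (h2 : 0 < m2)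
    (hW : C.WG l1 l2 s η (fun i => r i - k i) r)
    (hG : C.GS l1 l2 m1 m2 β) (i : ι) : ∃ (m n : ι → ℝ) (x y τ z σ t : ℝ),
      PairG r k η m n x y τ z ∧ Sys m1 m2 β x y 1 1 τ σ t ∧ m1 * σ * τ + β * t ≤ z ∧
      (∀ a, (1 + η) * (r i - k i) ≤ a → m1 * ((1 + η) * r i) ≤ β * a → (σ * x + t * y) * m1 ≤ a ^ 2) ∧
      (m2 * ((1 + η) * (r i - k i)) ≤ β * ((1 + η) * r i) →
        (σ * x + t * y) * m2 ≤ ((1 + η) * r i) ^ 2) := by
  obtain ⟨z, w, σ, t, hz, hw, ⟨s1, s2, s3, s4⟩, hL, hP⟩ := C.gs_data hG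
  obtain ⟨m, n, hp⟩ := hW.pair hz hw
  obtain ⟨φ, p1, p3, p2, -⟩ := hW.test i
  have hs := hW.s0
  have hR : C.R φ φ = 1 := p1
  have e : ∀ u : ℝ, (σ / s * (C.q l1 z / s) + t / s * (C.q l2 w / s)) * u =
      (σ * C.q l1 z + t * C.q l2 w) * u / s ^ 2 := fun u => by field_simp
  refine ⟨m, n, _, _, _, _, σ / s, t / s, hp, ⟨div_pos s1 hs, div_pos s2 hs, ?_, ?_⟩, ?_,
    fun a ha hb => ?_, fun hb => ?_⟩
  · rw [s3]; ring
  · rw [s4]; ring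
  · rw [le_div_iff₀ hs]
    refine le_of_eq_of_le ?_ hP
    field_simp
  · have := C.semi1 hW.a1 hW.a2 h1 h2 hL p1 p1 (x := s * a) (y := s * ((1 + η) * r i))
      (p3.trans (mul_le_mul_of_nonneg_left ha hs.le)) p2
      (by rw [hR]; linarith only [hb, hs, mul_le_mul_of_nonneg_left hb hs.le])
    rw [e, div_le_iff₀ (by positivity)]
    linarith [mul_pow s a 2, mul_comm (a ^ 2) (s ^ 2)]
  · have := C.semi2 hW.a1 hW.a2 h1 h2 hL p1 p1 p3 p2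
      (by rw [hR]; linarith only [hb, hs, mul_le_mul_of_nonneg_left hb hs.le])
    rw [e, div_le_iff₀ (by positivity)]
    linarith [mul_pow s ((1 + η) * r i) 2, mul_comm (((1 + η) * r i) ^ 2) (s ^ 2)]

theorem non_lowG (h1 : 0 < m1) (h2 : 0 < m2) (hβ : 0 < β) (hs : StdG r k) {i : ι} {g : ℝ}
    (h : NonLow m1 m2 β r k i g) : ∀ᶠ η in 𝓝[>] (0 : ℝ), ∀ (d : Dom) (la lb s : ℝ),
      (ctx d).WG la lb s η (fun i => r i - k i) r → ¬ (ctx d).GS la lb m1 m2 β := by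
  have hG : IsClosed {p : ℝ × ℝ × ℝ × ℝ × ℝ | p.2.2.1 ≤ (1 + p.1) * r i ∧
      β * p.2.2.1 ≤ m2 * p.2.2.2.2 ∧ (m2 * p.2.1 - β * p.2.2.2.1 * p.2.2.1) ^ 2 ≤
        m1 * m2 * (((1 + p.1) * r i) ^ 2 - p.2.2.1 ^ 2)} := by
    refine IsClosed.and ?_ (IsClosed.and ?_ ?_) <;> exact isClosed_le (by fun_prop) (by fun_prop)
  have E1 := pair_smallG r k (max ((3 * β + (1 + 6 * (m1 * m2))) / m2) 3) hG
    fun m n X Y τ Z hp ⟨a, b, c⟩ =>
      toy_nonLowG h1 h2 hβ hs h hp (by simpa using a) b (by simpa using c)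
  have E2 := Non_ev (f := fun η => m2 * ((1 + η) * (r i - k i))) (g := fun η => β * ((1 + η) * r i))
    (by fun_prop) (by fun_prop) (by simpa using h.hi)
  have E3 : ∀ᶠ η in 𝓝[>] (0 : ℝ), η ∈ Set.Ioo 0 1 := Ioo_mem_nhdsGT one_pos
  filter_upwards [E1, E2, E3] with η e1 e2 ⟨η0, η1⟩ d l1 l2 s hW hG
  obtain ⟨m, n, x, y, τ, z, σ, t, hp, hS, hz, -, hc⟩ := Non_dataG h1 h2 hW hG i
  have r0 : 0 ≤ r i := zero_le_one.trans (hs i).1
  have ρ0 : 0 ≤ (1 + η) * r i := by positivity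
  have ρ1 : (1 + η) * r i ≤ 9 / 4 := by linarith only [η1, h, η0, h.hr, mul_nonneg_of_nonpos_of_nonpos (le_of_lt (Mathlib.Tactic.Linarith.sub_neg_of_lt η0)) (Mathlib.Tactic.Linarith.sub_nonpos_of_le h.hr)]
  obtain ⟨a, b, c⟩ := Non_lowA h1 h2 h.hd hp.τ0 hp.τ1 hS hz ρ0 (hc e2.le)
  refine e1 m n x y τ z hp (le_max_of_le_left ?_) (le_max_of_le_right (by linarith only [η0, η1, ρ1, a])) ⟨a, b, c⟩
  have y0 : 0 ≤ y := hp.Y0
  have a1 : ((1 + η) * r i) ^ 2 - y ^ 2 ≤ 6 := by (refine le_of_not_gt fun h_nl => ?_; linarith only [h_nl, ρ1, η0, η1, ρ0, sq_nonneg y, mul_pos_of_neg_of_neg (Mathlib.Tactic.Linarith.sub_neg_of_lt η0) (Mathlib.Tactic.Linarith.sub_neg_of_lt η0), mul_pos_of_neg_of_neg (Mathlib.Tactic.Linarith.sub_neg_of_lt η0) (Mathlib.Tactic.Linarith.sub_neg_of_lt η1), mul_pos_of_neg_of_neg (Mathlib.Tactic.Linarith.sub_neg_of_lt η0) (Mathlib.Tactic.Linarith.sub_neg_of_lt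 h_nl), mul_pos_of_neg_of_neg (Mathlib.Tactic.Linarith.sub_neg_of_lt η1) (Mathlib.Tactic.Linarith.sub_neg_of_lt η1), mul_pos_of_neg_of_neg (Mathlib.Tactic.Linarith.sub_neg_of_lt η1) (Mathlib.Tactic.Linarith.sub_neg_of_lt h_nl), mul_nonneg_of_nonpos_of_nonpos (Mathlib.Tactic.Linarith.sub_nonpos_of_le ρ0) (Mathlib.Tactic.Linarith.sub_nonpos_of_le ρ1)])
  have a2 := mul_le_mul_of_nonneg_left a1 (mul_pos h1 h2).le
  have a3 : τ * y ≤ 3 := by (refine le_of_not_gt fun h_nl => ?_; linarith only [h_nl, ρ1, η0, η1, ρ0, hp, a, hp.τ0, hp.τ1, mul_pos_of_neg_of_neg (Mathlib.Tactic.Linarith.sub_neg_of_lt η0) (Mathlib.Tactic.Linarith.sub_neg_of_lt η0), mul_pos_of_neg_of_neg (Mathlib.Tactic.Linarith.sub_neg_of_lt η0) (Mathlib.Tactic.Linarith.sub_neg_of_lt η1), mul_pos_of_neg_of_neg (Mathlib.Tactic.Linarith.sub_neg_of_lt η0) (Mathlib.Tactic.Linarith.sub_neg_of_lt h_nl), mul_pos_of_neg_of_neg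 (Mathlib.Tactic.Linarith.sub_neg_of_lt η1) (Mathlib.Tactic.Linarith.sub_neg_of_lt η1), mul_pos_of_neg_of_neg (Mathlib.Tactic.Linarith.sub_neg_of_lt η1) (Mathlib.Tactic.Linarith.sub_neg_of_lt h_nl), mul_nonneg_of_nonpos_of_nonpos (Mathlib.Tactic.Linarith.sub_nonpos_of_le ρ0) (Mathlib.Tactic.Linarith.sub_nonpos_of_le hp.τ1), mul_nonneg_of_nonpos_of_nonpos (Mathlib.Tactic.Linarith.sub_nonpos_of_le a) (Mathlib.Tactic.Linarith.sub_nonpos_of_le hp.τ0)])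
  have a4 := mul_le_mul_of_nonneg_left a3 hβ.le
  rw [le_div_iff₀ h2]
  linarith only [η0, η1, c, a2, a4, sq_nonneg (m2 * x - β * τ * y - 1), sq_nonneg (m2 * x - β * τ * y), sq_nonneg (m2 * x - β * τ * y), sq_nonneg (m2 * x - β * τ * y - (1 : ℝ))]

theorem non_upG (h1 : 0 < m1) (h2 : 0 < m2) (hβ : 0 < β) (hs : StdG r k) {i : ι}
    (h : NonUp m1 m2 β r k i) : ∀ᶠ η in 𝓝[>] (0 : ℝ), ∀ (d : Dom) (la lb s : ℝ),
      (ctx d).WG la lb s η (fun i => r i - k i) r → ¬ (ctx d).GS la lb m1 m2 β := by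
  have hG : IsClosed {p : ℝ × ℝ × ℝ × ℝ × ℝ | p.2.2.1 ≤ (1 + p.1) * r i ∧
      m1 * p.2.2.1 ≤ β * p.2.2.2.2 ∧ β * p.2.1 * p.2.2.1 ≤
        p.2.2.2.1 * m1 * ((1 + p.1) * r i) ^ 2} := by
    refine IsClosed.and ?_ (IsClosed.and ?_ ?_) <;> exact isClosed_le (by fun_prop) (by fun_prop)
  have E1 := pair_smallG r k (max (12 * m1 / β) 3) hG
    fun m n X Y τ Z hp ⟨a, b, c⟩ =>
      toy_nonUpG h1 hβ hs h hp (by simpa using a) b (by simpa using c)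
  have E2 := Non_ev (f := fun η => β * ((1 + η) * (r i - k i))) (g := fun η => m1 * ((1 + η) * r i))
    (by fun_prop) (by fun_prop) (by simpa using h.hi)
  have E2' := Non_ev (f := fun η => m1 * m2 * ((1 + η) * r i) ^ 2)
    (g := fun η => β ^ 2 * (1 - 3 * η) ^ 2) (by fun_prop) (by fun_prop) (by simpa using h.hd)
  have E3 : ∀ᶠ η in 𝓝[>] (0 : ℝ), η ∈ Set.Ioo 0 (1 / 6) := Ioo_mem_nhdsGT (by norm_num)
  filter_upwards [E1, E2, E2', E3] with η e1 e2 e3 ⟨η0, η1⟩ d l1 l2 s hW hG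
  obtain ⟨m, n, x, y, τ, z, σ, t, hp, hS, hz, hc, -⟩ := Non_dataG h1 h2 hW hG i
  have r0 : 0 ≤ r i := zero_le_one.trans (hs i).1
  have ρ0 : 0 ≤ (1 + η) * r i := by positivity
  have ρ1 : (1 + η) * r i ≤ 9 / 4 := by linarith only [η1, h, η0, h.hr, mul_pos_of_neg_of_neg (Mathlib.Tactic.Linarith.sub_neg_of_lt η0) (Mathlib.Tactic.Linarith.sub_neg_of_lt η0), mul_pos_of_neg_of_neg (Mathlib.Tactic.Linarith.sub_neg_of_lt η0) (Mathlib.Tactic.Linarith.sub_neg_of_lt η1), mul_nonneg_of_nonpos_of_nonpos (le_of_lt (Mathlib.Tactic.Linarith.sub_neg_of_lt η0)) (Mathlib.Tactic.Linarith.sub_nonpos_of_le h.hr)]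
  have hc1 := hc (m1 * ((1 + η) * r i) / β) (by rw [le_div_iff₀ hβ]; linarith only [e2])
    (by rw [mul_div_cancel₀ _ hβ.ne'])
  have hc2 : (σ * x + t * y) * β ^ 2 ≤ m1 * ((1 + η) * r i) ^ 2 := by
    rw [div_pow, le_div_iff₀ (by positivity)] at hc1
    refine le_of_mul_le_mul_left ?_ h1
    linarith only [hc1, mul_pow m1 ((1 + η) * r i) 2]
  have y1 := hp.low hs η0.le
  obtain ⟨a, b, c⟩ := Non_upA h1 h2 hβ hp.τ0 hp.τ1 hS hz ρ0 hc2 (by linarith only [η0, η1]) y1 e3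
  refine e1 m n x y τ z hp (le_max_of_le_left ?_) (le_max_of_le_right (by linarith only [η0, η1, ρ1, a])) ⟨a, b, c⟩
  have a1 : ((1 + η) * r i) ^ 2 ≤ 6 := by (refine le_of_not_gt fun h_nl => ?_; linarith only [h_nl, ρ1, η0, η1, ρ0, mul_pos_of_neg_of_neg (Mathlib.Tactic.Linarith.sub_neg_of_lt η0) (Mathlib.Tactic.Linarith.sub_neg_of_lt η0), mul_pos_of_neg_of_neg (Mathlib.Tactic.Linarith.sub_neg_of_lt η0) (Mathlib.Tactic.Linarith.sub_neg_of_lt η1), mul_pos_of_neg_of_neg (Mathlib.Tactic.Linarith.sub_neg_of_lt η0) (Mathlib.Tactic.Linarith.sub_neg_of_lt h_nl), mul_pos_of_neg_of_neg (Mathlib.Tactic.Linarith.sub_neg_of_lt η1) (Mathlib.Tactic.Linarith.sub_neg_of_lt η1), mul_pos_of_neg_of_neg (Mathlib.Tactic.Linarith.sub_neg_of_lt η1) (Mathlib.Tactic.Linarith.sub_neg_of_lt h_nl), mul_nonneg_of_nonpos_of_nonpos (Mathlib.Tactic.Linarith.sub_nonpos_of_le ρ0) (Mathlib.Tactic.Linarith.sub_nonpos_of_le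 ρ1)])
  have a2 : τ * ((1 + η) * r i) ^ 2 ≤ 6 := by linarith only [a1, hp, hp.τ0, hp.τ1, mul_nonneg_of_nonpos_of_nonpos (Mathlib.Tactic.Linarith.sub_nonpos_of_le (sq_nonneg (((1 : ℝ) + η) * r i))) (Mathlib.Tactic.Linarith.sub_nonpos_of_le hp.τ1)]
  have a3 := mul_le_mul_of_nonneg_left a2 h1.le
  have a4 := mul_le_mul_of_nonneg_left (show 1 / 2 ≤ y by linarith only [η1, y1]) (mul_nonneg hβ.le hp.X0)
  rw [le_div_iff₀ hβ]
  linarith only [c, a3, a4]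

end CritSys
end
end
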