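import Pool.Agent.Work.MP_80ee1d_an.V.Chain
import Pool.Agent.Work.MP_80ee1d_an.V.Param
import Pool.Agent.Work.MP_80ee1d_an.V.Non
import Pool.Agent.Work.MP_80ee1d_an.V.Adj
import Pool.Agent.Work.MP_80ee1d_an.U.CritC
import Pool.Agent.Work.MP_80ee1d_an.BridgeB

-- merged part: Pool.Agent.Work.MP_80ee1d_an.U.Ex
section
/-!
Existence of ground states in a domain with wells.

PLAN. Write `w = r i - k i`.  `Ex_test`: if `Sys m1 m2 β w (r i) 1 1 1 σ t` and `σ w + t r i < e`, choose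
`lam > 1` with `lam² (σ w + t r i) < e`.  For small `η`, `(1 + η) r i ≤ lam r i` and `w + η ≤ lam w`; `mon` for
the test function `φ` (twice, `ρ = 1 = R φ φ`) with `x = s lam w`, `y = s lam r i` and the solution
`(s lam σ, s lam t)` shows `¬ LB (s² e)`.  Then apply `crit` with `c' = s² e`; `H1`, `H2` are proved by
contradiction from `Wells.pair` (`X = q l1 z / s`, `Y = q l2 w / s`).
`ex_low`: `D = m1 m2 - β² > 0`, `σ = (m2 w - β r i) / D`, `t = (m1 r i - β w) / D`,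
`m2 (σ w + t r i) = r i² + σ² D < y²`; `e = y² / m2`.  `H1`: `m1 Y ≤ β τ X ≤ β X` and `Y ≥ 1 - 3η`
(`Pair.low`), with `β² y² < m1 m2 (1 - 3η)²` for small `η`.  `H2`: if `Y < y`, `pair_small` with
`G = {Y ≤ y, m2 X ≤ β τ Y}` and `toy_exLow`.
`ex_up`: `D = β² - m1 m2 > 0` (multiply `hi` and `hi'`), `σ = (β r i - m2 w) / D`,
`t = (β w - m1 r i) / D`, `m1 (σ w + t r i) = w² - t² D < w²`.  Choose `0 < x < w` with
`w² - t² D < x²`, `e = x² / m1`.  `H2`: `m2 w² < m1 (1 - 3η)²` for small `η`.  `H1`: if `X < x`,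
`pair_small` with `G = {X ≤ x, m1 Y ≤ β τ X}` and `toy_exUp`.
-/

open MeasureTheory Filter Topology
open scoped RealInnerProductSpace

noncomputable section
namespace CritSys

variable {ι : Type} [Fintype ι] [DecidableEq ι] {r k : ι → ℝ} {m1 m2 β : ℝ}

theorem Ex_ev {f g : ℝ → ℝ} (hf : Continuous f) (hg : Continuous g) (h : f 0 < g 0) :
    ∀ᶠ η in 𝓝[>] (0 : ℝ), f η < g η :=
  nhdsWithin_le_nhds (hf.continuousAt.eventually_lt hg.continuousAt h)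

theorem Ex_sys (hd : m1 * m2 - β ^ 2 ≠ 0) (w y : ℝ) : ∃ σ t, (m1 * m2 - β ^ 2) * σ = m2 * w - β * y ∧
    (m1 * m2 - β ^ 2) * t = m1 * y - β * w ∧ w = m1 * 1 * σ + β * 1 * t ∧
      y = β * 1 * σ + m2 * 1 * t := by
  have a := mul_div_cancel₀ (m2 * w - β * y) hd
  have b := mul_div_cancel₀ (m1 * y - β * w) hd
  exact ⟨_, _, a, b, mul_left_cancel₀ hd (by linear_combination -m1 * a - β * b),
    mul_left_cancel₀ hd (by linear_combination -β * a - m2 * b)⟩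

theorem Ex_main (h1 : 0 < m1) (h2 : 0 < m2) (hβ : 0 < β) (hs : Std r k) {i : ι} {σ t e : ℝ}
    (hS : Sys m1 m2 β (r i - k i) (r i) 1 1 1 σ t) (he : σ * (r i - k i) + t * r i < e)
    (H1 : ∀ᶠ η in 𝓝[>] (0 : ℝ), ∀ m n X Y τ Z, Pair r k η m n X Y τ Z → m1 * Y ≤ β * τ * X →
      e * m1 ≤ X ^ 2)
    (H2 : ∀ᶠ η in 𝓝[>] (0 : ℝ), ∀ m n X Y τ Z, Pair r k η m n X Y τ Z → m2 * X ≤ β * τ * Y →
      e * m2 ≤ Y ^ 2) : ∀ᶠ η in 𝓝[>] (0 : ℝ), ∀ (d : Dom) (l1 l2 s : ℝ),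
      (ctx d).Wells l1 l2 s η r k → (ctx d).GS l1 l2 m1 m2 β := by
  have hw : 0 < r i - k i := sub_pos.2 (hs i).2.2
  have hr : 0 < r i := one_pos.trans_le (hs i).1
  filter_upwards [H1, H2, self_mem_nhdsWithin, Ex_ev (g := fun _ => e)
    (f := fun η => (1 + η + η / (r i - k i)) ^ 2 * (σ * (r i - k i) + t * r i)) (by fun_prop)
    continuous_const (by simpa using he)] with η H1 H2 (hη : 0 < η) h3 d l1 l2 s W
  have s0 := W.s0
  have s2 : 0 < s ^ 2 := pow_pos s0 2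
  refine (ctx d).crit (c' := s ^ 2 * e) W.a1 W.a2 h1 h2 hβ.le (fun hc => ?_)
    (fun z w hz hw h => ?_) fun z w hz hw h => ?_
  · obtain ⟨φ, p1, p2, p3⟩ := W.test i
    have h4 : 0 < η / (r i - k i) := div_pos hη hw
    have h5 := div_mul_cancel₀ η hw.ne'
    generalize η / (r i - k i) = u at h3 h4 h5
    have h6 : 0 < s * (1 + η + u) := by positivity
    have := (ctx d).mon W.a1 W.a2 h1 h2 hβ.le hc p1 p1 (x := s * (1 + η + u) * (r i - k i))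
      (y := s * (1 + η + u) * r i) (ρ := 1) (s := s * (1 + η + u) * σ) (t := s * (1 + η + u) * t)
      (p3.trans ((mul_le_mul_of_nonneg_left (by nlinarith [mul_pos hη hw]) s0.le).trans_eq
        (mul_assoc _ _ _).symm))
      (p2.trans ((mul_le_mul_of_nonneg_left (by nlinarith [mul_pos h4 hr]) s0.le).trans_eq
        (mul_assoc _ _ _).symm))
      zero_le_one p1.ge ⟨mul_pos h6 hS.1, mul_pos h6 hS.2.1,
        by linear_combination s * (1 + η + u) * hS.2.2.1,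
        by linear_combination s * (1 + η + u) * hS.2.2.2⟩
    linarith [mul_lt_mul_of_pos_left h3 s2]
  · obtain ⟨m, n, p⟩ := W.pair hη.le hz hw
    have := H1 _ _ _ _ _ _ p (by
      rw [← mul_div_assoc, ← mul_div_assoc]; exact div_le_div_of_nonneg_right h s0.le)
    rwa [div_pow, le_div_iff₀' s2, ← mul_assoc] at this
  · obtain ⟨m, n, p⟩ := W.pair hη.le hz hw
    have := H2 _ _ _ _ _ _ p (by
      rw [← mul_div_assoc, ← mul_div_assoc]; exact div_le_div_of_nonneg_right h s0.le)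
    rwa [div_pow, le_div_iff₀' s2, ← mul_assoc] at this

theorem Ex_bd {a X Y τ y : ℝ} (ha : 0 < a) (hβ : 0 < β) (τ1 : τ ≤ 1) (h0 : 0 ≤ Y) (hy : Y ≤ y)
    (h : a * X ≤ β * τ * Y) : X ≤ y + β * y / a ∧ Y ≤ y + β * y / a := by
  have h1 : X ≤ β * y / a := (le_div_iff₀' ha).2 (h.trans (mul_le_mul
    (mul_le_of_le_one_right hβ.le τ1) hy h0 hβ.le))
  have h2 : 0 ≤ β * y / a := div_nonneg (mul_nonneg hβ.le (h0.trans hy)) ha.le
  exact ⟨by linarith, by linarith⟩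

theorem ex_low (h1 : 0 < m1) (h2 : 0 < m2) (hβ : 0 < β) (hs : Std r k) {i : ι} {y : ℝ}
    (h : ExLow m1 m2 β r k i y) : ∀ᶠ η in 𝓝[>] (0 : ℝ), ∀ (d : Dom) (l1 l2 s : ℝ),
      (ctx d).Wells l1 l2 s η r k → (ctx d).GS l1 l2 m1 m2 β := by
  have hy : 0 < y := one_pos.trans_le h.y1
  have hD : 0 < m1 * m2 - β ^ 2 :=
    sub_pos.2 ((le_mul_of_one_le_right (sq_nonneg β) (one_le_pow₀ h.y1)).trans_lt h.hd)
  obtain ⟨σ, t, a1, a2, a3, a4⟩ := Ex_sys hD.ne' (r i - k i) (r i)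
  refine Ex_main h1 h2 hβ hs (e := y ^ 2 / m2)
    ⟨(mul_pos_iff_of_pos_left hD).1 (a1 ▸ sub_pos.2 h.hi),
      (mul_pos_iff_of_pos_left hD).1 (a2 ▸ sub_pos.2 h.hi'), a3, a4⟩ ?_ ?_ ?_
  · have a5 := h.he
    rw [← a1, mul_pow, sq (m1 * m2 - β ^ 2), mul_assoc, mul_lt_mul_iff_right₀ hD] at a5
    rw [lt_div_iff₀ h2]
    have : (σ * (r i - k i) + t * r i) * m2 = r i ^ 2 + (m1 * m2 - β ^ 2) * σ ^ 2 := by
      linear_combination σ * m2 * a3 - (r i + β * σ) * a4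
    linarith
  · filter_upwards [self_mem_nhdsWithin, Ex_ev (f := fun η => 3 * η) (g := fun _ => 1) (by fun_prop)
      continuous_const (by simp), Ex_ev (f := fun _ => β ^ 2 * y ^ 2)
      (g := fun η => m1 * m2 * (1 - 3 * η) ^ 2) continuous_const (by fun_prop)
      (by simpa using h.hd)] with η (hη : 0 < η) b1 b2 m n X Y τ Z p b3
    have b4 : m1 * (1 - 3 * η) ≤ β * X := (mul_le_mul_of_nonneg_left (p.low hs hη.le) h1.le).trans
      (b3.trans (mul_le_mul_of_nonneg_right (mul_le_of_le_one_right hβ.le p.τ1) p.X0))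
    have b5 := mul_le_mul_of_nonneg_left
      (pow_le_pow_left₀ (mul_nonneg h1.le (sub_nonneg.2 b1.le)) b4 2) h2.le
    rw [div_mul_eq_mul_div, div_le_iff₀ h2]
    exact le_of_mul_le_mul_left (by linarith [mul_lt_mul_of_pos_left b2 h1]) (pow_pos hβ 2)
  · filter_upwards [pair_small r k (y + β * y / m2)
      (G := {p | p.2.2.1 ≤ y} ∩ {p | m2 * p.2.1 ≤ β * p.2.2.2.1 * p.2.2.1})
      ((isClosed_le (by fun_prop) (by fun_prop)).inter (isClosed_le (by fun_prop) (by fun_prop)))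
      fun m n X Y τ Z p b => toy_exLow h2 hβ hs h p b.1 b.2] with η b1 m n X Y τ Z p b2
    rw [div_mul_cancel₀ _ h2.ne']
    refine pow_le_pow_left₀ hy.le (not_lt.1 fun b3 => ?_) 2
    have b4 := Ex_bd h2 hβ p.τ1 (p.Z0.trans p.ZY) b3.le b2
    exact b1 m n X Y τ Z p b4.1 b4.2 ⟨b3.le, b2⟩

theorem ex_up (h1 : 0 < m1) (h2 : 0 < m2) (hβ : 0 < β) (hs : Std r k) {i : ι}
    (h : ExUp m1 m2 β r k i) : ∀ᶠ η in 𝓝[>] (0 : ℝ), ∀ (d : Dom) (l1 l2 s : ℝ),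
      (ctx d).Wells l1 l2 s η r k → (ctx d).GS l1 l2 m1 m2 β := by
  have hw : 0 < r i - k i := sub_pos.2 (hs i).2.2
  have hr : 0 < r i := one_pos.trans_le (hs i).1
  have hD : m1 * m2 - β ^ 2 < 0 := sub_neg.2 (lt_of_mul_lt_mul_right (by
    linarith [mul_lt_mul'' h.hi h.hi' (mul_pos h1 hr).le (mul_pos h2 hw).le]) (mul_pos hw hr).le)
  obtain ⟨σ, t, a1, a2, a3, a4⟩ := Ex_sys hD.ne (r i - k i) (r i)
  have t0 : 0 < t := pos_of_mul_neg_right (a2 ▸ sub_neg.2 h.hi) hD.le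
  obtain ⟨δ, ⟨d1, d2⟩, d3⟩ := (((Ex_ev (f := fun _ => (r i - k i) ^ 2 + (m1 * m2 - β ^ 2) * t ^ 2)
    (g := fun δ => (r i - k i - δ) ^ 2) continuous_const (by fun_prop)
    (by simpa using mul_neg_of_neg_of_pos hD (pow_pos t0 2))).and (Ex_ev (f := fun δ => δ)
      (g := fun _ => r i - k i) continuous_id continuous_const hw)).and self_mem_nhdsWithin).exists
  have d4 : r i - k i - δ < r i - k i := sub_lt_self _ d3
  have d5 := sub_pos.2 d2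
  generalize r i - k i - δ = x at d1 d4 d5
  refine Ex_main h1 h2 hβ hs (e := x ^ 2 / m1)
    ⟨pos_of_mul_neg_right (a1 ▸ sub_neg.2 h.hi') hD.le, t0, a3, a4⟩ ?_ ?_ ?_
  · rw [lt_div_iff₀ h1]
    have : (σ * (r i - k i) + t * r i) * m1 = (r i - k i) ^ 2 + (m1 * m2 - β ^ 2) * t ^ 2 := by
      linear_combination t * m1 * a4 - (r i - k i + β * t) * a3
    linarith
  · filter_upwards [pair_small r k (x + β * x / m1)
      (G := {p | p.2.1 ≤ x} ∩ {p | m1 * p.2.2.1 ≤ β * p.2.2.2.1 * p.2.1})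
      ((isClosed_le (by fun_prop) (by fun_prop)).inter (isClosed_le (by fun_prop) (by fun_prop)))
      fun m n X Y τ Z p b => toy_exUp h1 hβ hs h p (lt_of_le_of_lt b.1 d4) b.2]
      with η b1 m n X Y τ Z p b2
    rw [div_mul_cancel₀ _ h1.ne']
    refine pow_le_pow_left₀ d5.le (not_lt.1 fun b3 => ?_) 2
    have b4 := Ex_bd h1 hβ p.τ1 p.X0 b3.le b2
    exact b1 m n X Y τ Z p b4.2 b4.1 ⟨b3.le, b2⟩
  · filter_upwards [self_mem_nhdsWithin, Ex_ev (f := fun η => 3 * η) (g := fun _ => 1) (by fun_prop)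
      continuous_const (by simp), Ex_ev (f := fun _ => m2 * (r i - k i) ^ 2)
      (g := fun η => m1 * (1 - 3 * η) ^ 2) continuous_const (by fun_prop)
      (by simpa using h.hw)] with η (hη : 0 < η) b1 b2 m n X Y τ Z p _
    have b4 := mul_le_mul_of_nonneg_left
      (pow_le_pow_left₀ (sub_nonneg.2 b1.le) (p.low hs hη.le) 2) h1.le
    have b5 := mul_le_mul_of_nonneg_left (pow_le_pow_left₀ d5.le d4.le 2) h2.le
    rw [div_mul_eq_mul_div, div_le_iff₀ h1]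
    linarith

end CritSys
end
end

-- merged part: Pool.Agent.Work.MP_80ee1d_an.V.Ex
section
/-!
Existence of ground states in a domain with wells.

PLAN. Adapt `U/Ex.lean` (`Ex_main`, `ex_low`, `ex_up`; `Ex_ev`, `Ex_sys`, `Ex_bd` are reused).
Changes: `Wells` becomes `WG`, `Pair` becomes `PairG` (`0 ≤ Y` is the field `Y0`), and both bounds of the
test function are multiplicative, so in the analogue of `Ex_main` the factor is simply `s * (1 + η)`.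
-/

open MeasureTheory Filter Topology
open scoped RealInnerProductSpace

noncomputable section
namespace CritSys

variable {ι : Type} [Fintype ι] [DecidableEq ι] {r k : ι → ℝ} {m1 m2 β : ℝ}

omit [DecidableEq ι] in
theorem Ex_mainG (h1 : 0 < m1) (h2 : 0 < m2) (hβ : 0 < β) {i : ι} {σ t e : ℝ}
    (hS : Sys m1 m2 β (r i - k i) (r i) 1 1 1 σ t) (he : σ * (r i - k i) + t * r i < e)
    (H1 : ∀ᶠ η in 𝓝[>] (0 : ℝ), ∀ m n X Y τ Z, PairG r k η m n X Y τ Z → m1 * Y ≤ β * τ * X →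
      e * m1 ≤ X ^ 2)
    (H2 : ∀ᶠ η in 𝓝[>] (0 : ℝ), ∀ m n X Y τ Z, PairG r k η m n X Y τ Z → m2 * X ≤ β * τ * Y →
      e * m2 ≤ Y ^ 2) : ∀ᶠ η in 𝓝[>] (0 : ℝ), ∀ (d : Dom) (la lb s : ℝ),
      (ctx d).WG la lb s η (fun i => r i - k i) r → (ctx d).GS la lb m1 m2 β := by
  filter_upwards [H1, H2, self_mem_nhdsWithin, Ex_ev (g := fun _ => e)
    (f := fun η => (1 + η) ^ 2 * (σ * (r i - k i) + t * r i)) (by fun_prop)
    continuous_const (by simpa using he)] with η H1 H2 (hη : 0 < η) h3 d la lb s W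
  have s0 := W.s0
  have s2 : 0 < s ^ 2 := pow_pos s0 2
  refine (ctx d).crit (c' := s ^ 2 * e) W.a1 W.a2 h1 h2 hβ.le (fun hc => ?_)
    (fun z w hz hw h => ?_) fun z w hz hw h => ?_
  · obtain ⟨φ, p1, p3, p2, -⟩ := W.test i
    have h6 : 0 < s * (1 + η) := by positivity
    have := (ctx d).mon W.a1 W.a2 h1 h2 hβ.le hc p1 p1 (x := s * (1 + η) * (r i - k i))
      (y := s * (1 + η) * r i) (ρ := 1) (s := s * (1 + η) * σ) (t := s * (1 + η) * t)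
      (p3.trans_eq (mul_assoc _ _ _).symm) (p2.trans_eq (mul_assoc _ _ _).symm)
      zero_le_one p1.ge ⟨mul_pos h6 hS.1, mul_pos h6 hS.2.1,
        by linear_combination s * (1 + η) * hS.2.2.1,
        by linear_combination s * (1 + η) * hS.2.2.2⟩
    linarith [mul_lt_mul_of_pos_left h3 s2]
  · obtain ⟨m, n, p⟩ := W.pair hz hw
    have := H1 _ _ _ _ _ _ p (by
      rw [← mul_div_assoc, ← mul_div_assoc]; exact div_le_div_of_nonneg_right h s0.le)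
    rwa [div_pow, le_div_iff₀' s2, ← mul_assoc] at this
  · obtain ⟨m, n, p⟩ := W.pair hz hw
    have := H2 _ _ _ _ _ _ p (by
      rw [← mul_div_assoc, ← mul_div_assoc]; exact div_le_div_of_nonneg_right h s0.le)
    rwa [div_pow, le_div_iff₀' s2, ← mul_assoc] at this

theorem ex_lowG (h1 : 0 < m1) (h2 : 0 < m2) (hβ : 0 < β) (hs : StdG r k) {i : ι} {y : ℝ}
    (h : ExLow m1 m2 β r k i y) : ∀ᶠ η in 𝓝[>] (0 : ℝ), ∀ (d : Dom) (la lb s : ℝ),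
      (ctx d).WG la lb s η (fun i => r i - k i) r → (ctx d).GS la lb m1 m2 β := by
  have hy : 0 < y := one_pos.trans_le h.y1
  have hD : 0 < m1 * m2 - β ^ 2 :=
    sub_pos.2 ((le_mul_of_one_le_right (sq_nonneg β) (one_le_pow₀ h.y1)).trans_lt h.hd)
  obtain ⟨σ, t, a1, a2, a3, a4⟩ := Ex_sys hD.ne' (r i - k i) (r i)
  refine Ex_mainG h1 h2 hβ (e := y ^ 2 / m2)
    ⟨(mul_pos_iff_of_pos_left hD).1 (a1 ▸ sub_pos.2 h.hi),
      (mul_pos_iff_of_pos_left hD).1 (a2 ▸ sub_pos.2 h.hi'), a3, a4⟩ ?_ ?_ ?_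
  · have a5 := h.he
    rw [← a1, mul_pow, sq (m1 * m2 - β ^ 2), mul_assoc, mul_lt_mul_iff_right₀ hD] at a5
    rw [lt_div_iff₀ h2]
    have : (σ * (r i - k i) + t * r i) * m2 = r i ^ 2 + (m1 * m2 - β ^ 2) * σ ^ 2 := by
      linear_combination σ * m2 * a3 - (r i + β * σ) * a4
    linarith
  · filter_upwards [self_mem_nhdsWithin, Ex_ev (f := fun η => 3 * η) (g := fun _ => 1) (by fun_prop)
      continuous_const (by simp), Ex_ev (f := fun _ => β ^ 2 * y ^ 2)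
      (g := fun η => m1 * m2 * (1 - 3 * η) ^ 2) continuous_const (by fun_prop)
      (by simpa using h.hd)] with η (hη : 0 < η) b1 b2 m n X Y τ Z p b3
    have b4 : m1 * (1 - 3 * η) ≤ β * X := (mul_le_mul_of_nonneg_left (p.low hs hη.le) h1.le).trans
      (b3.trans (mul_le_mul_of_nonneg_right (mul_le_of_le_one_right hβ.le p.τ1) p.X0))
    have b5 := mul_le_mul_of_nonneg_left
      (pow_le_pow_left₀ (mul_nonneg h1.le (sub_nonneg.2 b1.le)) b4 2) h2.le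
    rw [div_mul_eq_mul_div, div_le_iff₀ h2]
    exact le_of_mul_le_mul_left (by linarith [mul_lt_mul_of_pos_left b2 h1]) (pow_pos hβ 2)
  · filter_upwards [pair_smallG r k (y + β * y / m2)
      (G := {p | p.2.2.1 ≤ y} ∩ {p | m2 * p.2.1 ≤ β * p.2.2.2.1 * p.2.2.1})
      ((isClosed_le (by fun_prop) (by fun_prop)).inter (isClosed_le (by fun_prop) (by fun_prop)))
      fun m n X Y τ Z p b => toy_exLowG h2 hβ hs h p b.1 b.2] with η b1 m n X Y τ Z p b2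
    rw [div_mul_cancel₀ _ h2.ne']
    refine pow_le_pow_left₀ hy.le (not_lt.1 fun b3 => ?_) 2
    have b4 := Ex_bd h2 hβ p.τ1 p.Y0 b3.le b2
    exact b1 m n X Y τ Z p b4.1 b4.2 ⟨b3.le, b2⟩

theorem ex_upG (h1 : 0 < m1) (h2 : 0 < m2) (hβ : 0 < β) (hs : StdG r k) {i : ι}
    (h : ExUp m1 m2 β r k i) : ∀ᶠ η in 𝓝[>] (0 : ℝ), ∀ (d : Dom) (la lb s : ℝ),
      (ctx d).WG la lb s η (fun i => r i - k i) r → (ctx d).GS la lb m1 m2 β := by
  have hw : 0 < r i - k i := sub_pos.2 (hs i).2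
  have hr : 0 < r i := one_pos.trans_le (hs i).1
  have hD : m1 * m2 - β ^ 2 < 0 := sub_neg.2 (lt_of_mul_lt_mul_right (by
    linarith [mul_lt_mul'' h.hi h.hi' (mul_pos h1 hr).le (mul_pos h2 hw).le]) (mul_pos hw hr).le)
  obtain ⟨σ, t, a1, a2, a3, a4⟩ := Ex_sys hD.ne (r i - k i) (r i)
  have t0 : 0 < t := pos_of_mul_neg_right (a2 ▸ sub_neg.2 h.hi) hD.le
  obtain ⟨δ, ⟨d1, d2⟩, d3⟩ := (((Ex_ev (f := fun _ => (r i - k i) ^ 2 + (m1 * m2 - β ^ 2) * t ^ 2)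
    (g := fun δ => (r i - k i - δ) ^ 2) continuous_const (by fun_prop)
    (by simpa using mul_neg_of_neg_of_pos hD (pow_pos t0 2))).and (Ex_ev (f := fun δ => δ)
      (g := fun _ => r i - k i) continuous_id continuous_const hw)).and self_mem_nhdsWithin).exists
  have d4 : r i - k i - δ < r i - k i := sub_lt_self _ d3
  have d5 := sub_pos.2 d2
  generalize r i - k i - δ = x at d1 d4 d5
  refine Ex_mainG h1 h2 hβ (e := x ^ 2 / m1)
    ⟨pos_of_mul_neg_right (a1 ▸ sub_neg.2 h.hi') hD.le, t0, a3, a4⟩ ?_ ?_ ?_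
  · rw [lt_div_iff₀ h1]
    have : (σ * (r i - k i) + t * r i) * m1 = (r i - k i) ^ 2 + (m1 * m2 - β ^ 2) * t ^ 2 := by
      linear_combination t * m1 * a4 - (r i - k i + β * t) * a3
    linarith
  · filter_upwards [pair_smallG r k (x + β * x / m1)
      (G := {p | p.2.1 ≤ x} ∩ {p | m1 * p.2.2.1 ≤ β * p.2.2.2.1 * p.2.1})
      ((isClosed_le (by fun_prop) (by fun_prop)).inter (isClosed_le (by fun_prop) (by fun_prop)))
      fun m n X Y τ Z p b => toy_exUpG h1 hβ hs h p (lt_of_le_of_lt b.1 d4) b.2]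
      with η b1 m n X Y τ Z p b2
    rw [div_mul_cancel₀ _ h1.ne']
    refine pow_le_pow_left₀ d5.le (not_lt.1 fun b3 => ?_) 2
    have b4 := Ex_bd h1 hβ p.τ1 p.X0 b3.le b2
    exact b1 m n X Y τ Z p b4.2 b4.1 ⟨b3.le, b2⟩
  · filter_upwards [self_mem_nhdsWithin, Ex_ev (f := fun η => 3 * η) (g := fun _ => 1) (by fun_prop)
      continuous_const (by simp), Ex_ev (f := fun _ => m2 * (r i - k i) ^ 2)
      (g := fun η => m1 * (1 - 3 * η) ^ 2) continuous_const (by fun_prop)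
      (by simpa using h.hw)] with η (hη : 0 < η) b1 b2 m n X Y τ Z p _
    have b4 := mul_le_mul_of_nonneg_left
      (pow_le_pow_left₀ (sub_nonneg.2 b1.le) (p.low hs hη.le) 2) h1.le
    have b5 := mul_le_mul_of_nonneg_left (pow_le_pow_left₀ d5.le d4.le 2) h2.le
    rw [div_mul_eq_mul_div, div_le_iff₀ h1]
    linarith

end CritSys
end
end

-- merged part: Pool.Agent.Work.MP_80ee1d_an.V.Final
section
/-! The sharp ranges of couplings for a prescribed ratio `κ = (Λ + l₁) / (Λ + l₂)`. -/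

open MeasureTheory Filter Topology

namespace CritSys

theorem sharp_real {ι : Type} [Fintype ι] [DecidableEq ι] {a b : ι → ℝ} {κ η : ℝ} (k0 : 0 < κ)
    (k1 : κ < 1) (hb : ∀ i, 1 ≤ b i) (hab : ∀ i, a i < b i) (hk : ∀ i, κ * b i ≤ a i) {c : ι}
    (hc : a c = κ * b c) (hη : 0 < η) :
    ∃ (d : Dom) (l1 l2 s : ℝ), SmoothDomain d.Ω ∧ l1 < l2 ∧
      (ctx d).Λ + l1 = κ * ((ctx d).Λ + l2) ∧ (ctx d).WG l1 l2 s η a b := by
  have : Nonempty ι := ⟨c⟩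
  have hs : Std b fun i => b i - a i := fun i =>
    ⟨hb i, sub_pos.2 (hab i), sub_lt_self _ ((mul_pos k0 (one_pos.trans_le (hb i))).trans_le (hk i))⟩
  have h0 : 0 < min (κ * η / 13) (κ / 6) := lt_min (by positivity) (by positivity)
  obtain ⟨d, l1, l2, s, hd, hl, hW⟩ := wg_exist hs h0
  simp only [sub_sub_cancel] at hW
  have hW' := hW.adjust (η' := η) hl k0 k1 h0 (by linarith [min_le_left (κ * η / 13) (κ / 6)])
    (by linarith [min_le_right (κ * η / 13) (κ / 6)]) (fun i => zero_le_one.trans (hb i)) hk hc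
  have hL : 0 < (ctx d).Λ + l2 := by linarith [hW.a2.1]
  exact ⟨d, _, l2, s, hd, by nlinarith, by ring, hW'⟩

theorem sharp_ev {m1 m2 : ℝ} (h1 : 0 < m1) (h2 : 0 < m2) {A B T : Finset ℝ} {r k : T → ℝ}
    (hA : ∀ a ∈ A, 0 < a) (hB : ∀ b ∈ B, 0 < b) (hs : StdG r k)
    (eA : ∀ a ∈ A, (∃ i y, ExLow m1 m2 a r k i y) ∨ ∃ i, ExUp m1 m2 a r k i)
    (eB : ∀ b ∈ B, (∃ i g, NonLow m1 m2 b r k i g) ∨ ∃ i, NonUp m1 m2 b r k i) :
    ∃ η : ℝ, 0 < η ∧ ∀ (d : Dom) (la lb s : ℝ), (ctx d).WG la lb s η (fun i => r i - k i) r →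
      (∀ a ∈ A, (ctx d).GS la lb m1 m2 a) ∧ ∀ b ∈ B, ¬ (ctx d).GS la lb m1 m2 b := by
  have fA : ∀ᶠ η in 𝓝[>] (0 : ℝ), ∀ a ∈ A, ∀ (d : Dom) (la lb s : ℝ),
      (ctx d).WG la lb s η (fun i => r i - k i) r → (ctx d).GS la lb m1 m2 a := by
    refine (Finset.eventually_all A).2 fun a ha => ?_
    rcases eA a ha with ⟨i, y, h⟩ | ⟨i, h⟩
    · exact ex_lowG h1 h2 (hA a ha) hs h
    · exact ex_upG h1 h2 (hA a ha) hs h
  have fB : ∀ᶠ η in 𝓝[>] (0 : ℝ), ∀ b ∈ B, ∀ (d : Dom) (la lb s : ℝ),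
      (ctx d).WG la lb s η (fun i => r i - k i) r → ¬ (ctx d).GS la lb m1 m2 b := by
    refine (Finset.eventually_all B).2 fun b hb => ?_
    rcases eB b hb with ⟨i, g, h⟩ | ⟨i, h⟩
    · exact non_lowG h1 h2 (hB b hb) hs h
    · exact non_upG h1 h2 (hB b hb) hs h
  obtain ⟨η, ⟨gA, gB⟩, hη⟩ := ((fA.and fB).and self_mem_nhdsWithin).exists
  exact ⟨η, hη, fun d la lb s hW => ⟨fun a ha => gA a ha d la lb s hW,
    fun b hb => gB b hb d la lb s hW⟩⟩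

/-- The facts that hold on every domain. -/
theorem sharp_nec (d : Dom) {l1 l2 m1 m2 κ β : ℝ} (a1 : (ctx d).Adm l1) (a2 : (ctx d).Adm l2)
    (hl : l1 < l2) (h1 : 0 < m1) (h2 : 0 < m2) (hκ : (ctx d).Λ + l1 = κ * ((ctx d).Λ + l2))
    (hβ : 0 ≤ β) :
    (β ≤ m1 → β ≤ κ * m2 → (ctx d).GS l1 l2 m1 m2 β) ∧
      (m2 ≤ β → m1 ≤ κ * β → (ctx d).GS l1 l2 m1 m2 β) ∧
      (m2 ≤ β → β ≤ m1 → ¬ (ctx d).GS l1 l2 m1 m2 β) ∧
      (m1 ≤ κ * β → β ≤ κ * m2 → ¬ (ctx d).GS l1 l2 m1 m2 β) := by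
  have hL : 0 < (ctx d).Λ + l2 := by linarith [a2.1]
  have e1 : β ≤ κ * m2 → β * ((ctx d).Λ + l2) ≤ ((ctx d).Λ + l1) * m2 := fun h => by
    rw [hκ]
    linarith [mul_le_mul_of_nonneg_right h hL.le]
  have e2 : m1 ≤ κ * β → m1 * ((ctx d).Λ + l2) ≤ β * ((ctx d).Λ + l1) := fun h => by
    rw [hκ]
    linarith [mul_le_mul_of_nonneg_right h hL.le]
  exact ⟨fun h h' => (ctx d).nec_low (ctx_NC d) a1 a2 hl h1 h2 hβ h (e1 h'),
    fun h h' => (ctx d).nec_up (ctx_NC d) a1 a2 hl h1 h2 h (e2 h'),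
    fun h h' => (ctx d).gap_mid hl h h',
    fun h h' => (ctx d).nec_mid (ctx_NC d) a1 a2 hl h1 (e2 h) (e1 h')⟩

/-- The case `κ m2 ≤ m1`. -/
theorem sharp_one {m1 m2 κ : ℝ} (h1 : 0 < m1) (h2 : 0 < m2) (k0 : 0 < κ) (k1 : κ < 1)
    (A B : Finset ℝ) (hA : ∀ a ∈ A, a ^ 2 ≠ m1 * m2 ∧ κ * m2 < a ∧ κ * a < m1 ∧ (a < m2 ∨ m1 < a))
    (hB : ∀ b ∈ B, κ * m2 < b ∧ κ * b < m1) (hAB : ∀ a ∈ A, ∀ b ∈ B, a ≠ b ∧ a * b ≠ m1 * m2) :
    ∃ (d : Dom) (l1 l2 : ℝ), SmoothDomain d.Ω ∧ (ctx d).Adm l1 ∧ (ctx d).Adm l2 ∧ l1 < l2 ∧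
      (ctx d).Λ + l1 = κ * ((ctx d).Λ + l2) ∧ (∀ a ∈ A, (ctx d).GS l1 l2 m1 m2 a) ∧
        ∀ b ∈ B, ¬ (ctx d).GS l1 l2 m1 m2 b := by
  have p0 : ∀ β, κ * m2 < β → 0 < β := fun β h => (mul_pos k0 h2).trans h
  have p1 : ∀ β, κ * m2 < β → κ * β < m1 → κ < min (β / m2) (m1 / β) := fun β h h' =>
    lt_min ((lt_div_iff₀ h2).2 h) ((lt_div_iff₀ (p0 β h)).2 h')
  obtain ⟨T, r, k, hT, hs, x0, x1, eA, eB⟩ := paramG (L := κ) (M := 1) h1 h2 A B {κ}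
    (fun t ht => Finset.mem_singleton.1 ht ▸ k0)
    (fun a ha => by
      obtain ⟨b1, b2, b3, b4⟩ := hA a ha
      refine ⟨p0 a b2, b1, fun h => (p1 a b2 b3).ne' (Finset.mem_singleton.1 h), p1 a b2 b3, ?_⟩
      rcases b4 with h | h
      · exact (min_le_left _ _).trans_lt ((div_lt_one h2).2 h)
      · exact (min_le_right _ _).trans_lt ((div_lt_one (p0 a b2)).2 h))
    (fun b hb => ⟨p0 b (hB b hb).1,
      fun h => (p1 b (hB b hb).1 (hB b hb).2).ne' (Finset.mem_singleton.1 h),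
      κ, Finset.mem_singleton_self κ, p1 b (hB b hb).1 (hB b hb).2⟩) hAB
  obtain ⟨η, hη, H⟩ := sharp_ev h1 h2 (fun a ha => p0 a (hA a ha).2.1)
    (fun b hb => p0 b (hB b hb).1) hs eA eB
  have key : ∀ i : T, κ * r i ≤ r i - k i ∧ r i - k i < r i := fun i => by
    have r1 := (hs i).1
    by_cases hi : (i : ℝ) ∈ ({κ} : Finset ℝ)
    · rw [x0 i hi, Finset.mem_singleton.1 hi]
      exact ⟨le_rfl, by nlinarith⟩
    · exact ⟨(x1 i hi).1.le, by linarith [(x1 i hi).2]⟩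
  obtain ⟨d, l1, l2, s, hd, hl, hκ, hW⟩ := sharp_real (a := fun i => r i - k i) (b := r) k0 k1
    (fun i => (hs i).1) (fun i => (key i).2) (fun i => (key i).1)
    (c := ⟨κ, hT (Finset.mem_singleton_self κ)⟩) (x0 _ (Finset.mem_singleton_self κ)) hη
  exact ⟨d, l1, l2, hd, hW.a1, hW.a2, hl, hκ, H d l1 l2 s hW⟩

/-- The case `m1 < κ m2`: the roles of the two components are exchanged. -/
theorem sharp_two {m1 m2 κ : ℝ} (h1 : 0 < m1) (h2 : 0 < m2) (k0 : 0 < κ) (k1 : κ < 1)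
    (A B : Finset ℝ) (hA : ∀ a ∈ A, a ^ 2 ≠ m1 * m2 ∧ m1 < a ∧ a < m2 ∧ (κ * a < m1 ∨ κ * m2 < a))
    (hB : ∀ b ∈ B, m1 < b ∧ b < m2 ∧ (κ * b < m1 ∨ κ * m2 < b))
    (hAB : ∀ a ∈ A, ∀ b ∈ B, a ≠ b ∧ a * b ≠ m1 * m2) :
    ∃ (d : Dom) (l1 l2 : ℝ), SmoothDomain d.Ω ∧ (ctx d).Adm l1 ∧ (ctx d).Adm l2 ∧ l1 < l2 ∧
      (ctx d).Λ + l1 = κ * ((ctx d).Λ + l2) ∧ (∀ a ∈ A, (ctx d).GS l1 l2 m1 m2 a) ∧
        ∀ b ∈ B, ¬ (ctx d).GS l1 l2 m1 m2 b := by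
  classical
  have k2 : 1 < κ⁻¹ := (one_lt_inv₀ k0).2 k1
  have p1 : ∀ β, m1 < β → β < m2 → 1 < min (β / m1) (m2 / β) := fun β h h' =>
    lt_min ((one_lt_div h1).2 h) ((one_lt_div (h1.trans h)).2 h')
  have p2 : ∀ β, m1 < β → (κ * β < m1 ∨ κ * m2 < β) → min (β / m1) (m2 / β) < κ⁻¹ :=
    fun β h h' => by
      rcases h' with h' | h'
      · exact (min_le_left _ _).trans_lt ((div_lt_iff₀ h1).2 ((lt_inv_mul_iff₀ k0).2 h'))
      · exact (min_le_right _ _).trans_lt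
          ((div_lt_iff₀ (h1.trans h)).2 ((lt_inv_mul_iff₀ k0).2 h'))
  obtain ⟨c, ⟨⟨c1, c2⟩, c3⟩, c0⟩ : ∃ c : ℝ, ((c < κ⁻¹ ∧ ∀ a ∈ A, c < min (a / m1) (m2 / a)) ∧
      ∀ b ∈ B, c < min (b / m1) (m2 / b)) ∧ 1 < c := by
    have e : ∀ x : ℝ, 1 < x → ∀ᶠ c in 𝓝[>] (1 : ℝ), c < x := fun x hx =>
      nhdsWithin_le_nhds (gt_mem_nhds hx)
    exact ((((e _ k2).and ((Finset.eventually_all A).2 fun a ha =>
      e _ (p1 a (hA a ha).2.1 (hA a ha).2.2.1))).and ((Finset.eventually_all B).2 fun b hb =>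
        e _ (p1 b (hB b hb).1 (hB b hb).2.1))).and self_mem_nhdsWithin).exists
  have hmem : ∀ t ∈ ({c, κ⁻¹} : Finset ℝ), t = c ∨ t = κ⁻¹ := fun t ht => by simpa using ht
  have hn : ∀ t, c < t → t < κ⁻¹ → t ∉ ({c, κ⁻¹} : Finset ℝ) := fun t h h' ht =>
    (hmem t ht).elim h.ne' h'.ne
  obtain ⟨T, r, k, hT, hs, x0, x1, eA, eB⟩ := paramG (L := 1) (M := κ⁻¹) h2 h1 A B {c, κ⁻¹}
    (fun t ht => by rcases hmem t ht with rfl | rfl <;> linarith)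
    (fun a ha => by
      obtain ⟨b1, b2, b3, b4⟩ := hA a ha
      exact ⟨h1.trans b2, mul_comm m1 m2 ▸ b1, hn _ (c2 a ha) (p2 a b2 b4), p1 a b2 b3,
        p2 a b2 b4⟩)
    (fun b hb => ⟨h1.trans (hB b hb).1, hn _ (c3 b hb) (p2 b (hB b hb).1 (hB b hb).2.2),
      c, Finset.mem_insert_self _ _, c3 b hb⟩)
    (fun a ha b hb => ⟨(hAB a ha b hb).1, mul_comm m1 m2 ▸ (hAB a ha b hb).2⟩)
  obtain ⟨η, hη, H⟩ := sharp_ev h2 h1 (fun a ha => h1.trans (hA a ha).2.1)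
    (fun b hb => h1.trans (hB b hb).1) hs eA eB
  have key : ∀ i : T, r i < r i - k i ∧ r i - k i ≤ κ⁻¹ * r i := fun i => by
    have r1 := (hs i).1
    by_cases hi : (i : ℝ) ∈ ({c, κ⁻¹} : Finset ℝ)
    · rw [x0 i hi]
      rcases hmem _ hi with e | e <;> rw [e] <;> constructor <;> nlinarith
    · exact ⟨by linarith [(x1 i hi).1], (x1 i hi).2.le⟩
  have hκ' : κ⁻¹ ∈ ({c, κ⁻¹} : Finset ℝ) := by simp
  obtain ⟨d, l1, l2, s, hd, hl, hκ, hW⟩ := sharp_real (a := r) (b := fun i => r i - k i) k0 k1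
    (fun i => (hs i).1.trans (key i).1.le) (fun i => (key i).1)
    (fun i => (le_inv_mul_iff₀ k0).1 (key i).2) (c := ⟨κ⁻¹, hT hκ'⟩)
    (by rw [x0 _ hκ', mul_inv_cancel_left₀ k0.ne']) hη
  obtain ⟨gA, gB⟩ := H d l2 l1 s hW.swap
  exact ⟨d, l1, l2, hd, hW.a1, hW.a2, hl, hκ, fun a ha => ((ctx d).GS_swap _ _ _ _ _).2 (gA a ha),
    fun b hb h => gB b hb (((ctx d).GS_swap _ _ _ _ _).1 h)⟩

theorem final_sharp (μ₁ μ₂ κ : ℝ) (h1 : 0 < μ₁) (h2 : 0 < μ₂) (k0 : 0 < κ) (k1 : κ < 1)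
    (A B : Finset ℝ) (hA : ∀ a ∈ A, 0 < a ∧ a ^ 2 ≠ μ₁ * μ₂) (hB : ∀ b ∈ B, 0 < b)
    (hAB : ∀ a ∈ A, ∀ b ∈ B, a * b ≠ μ₁ * μ₂) :
    (∃ (Ω : Set E4) (l₁ l₂ : ℝ), SmoothDomain Ω ∧ -lam1 Ω < l₁ ∧ l₁ < l₂ ∧ l₂ < 0 ∧
      (lam1 Ω + l₁) / (lam1 Ω + l₂) = κ ∧ (∀ a ∈ A, HasGroundState Ω l₁ l₂ μ₁ μ₂ a) ∧
        ∀ b ∈ B, ¬ HasGroundState Ω l₁ l₂ μ₁ μ₂ b) ↔
      Disjoint A B ∧ (∀ a ∈ A, a ∉ Set.Icc μ₂ μ₁ ∧ a ∉ Set.Icc (μ₁ / κ) (κ * μ₂)) ∧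
        ∀ b ∈ B, b ∈ Set.Ioo (min μ₁ (κ * μ₂)) (max (μ₁ / κ) μ₂) := by
  classical
  have dv : ∀ β, μ₁ / κ ≤ β ↔ μ₁ ≤ κ * β := fun β => div_le_iff₀' k0
  constructor
  · rintro ⟨Ω, l1, l2, hd, e1, hl, e2, hκ, gA, gB⟩
    obtain ⟨d, rfl⟩ : ∃ d : Dom, d.Ω = Ω := ⟨⟨Ω, hd.1, hd.2.1, hd.2.2.1⟩, rfl⟩
    rw [lam1_eq] at e1 hκ
    have a1 : (ctx d).Adm l1 := ⟨e1, hl.trans e2⟩
    have a2 : (ctx d).Adm l2 := ⟨e1.trans hl, e2⟩
    rw [div_eq_iff (by linarith [a2.1])] at hκ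
    simp only [hasGS_iff a1 a2] at gA gB
    refine ⟨Finset.disjoint_left.2 fun a ha hb => gB a hb (gA a ha), fun a ha => ?_,
      fun b hb => ?_⟩
    · obtain ⟨-, -, n3, n4⟩ := sharp_nec d a1 a2 hl h1 h2 hκ (hA a ha).1.le
      exact ⟨fun h => n3 h.1 h.2 (gA a ha), fun h => n4 ((dv a).1 h.1) h.2 (gA a ha)⟩
    · obtain ⟨n1, n2, -, -⟩ := sharp_nec d a1 a2 hl h1 h2 hκ (hB b hb).le
      exact ⟨lt_of_not_ge fun h => gB b hb (n1 (le_min_iff.1 h).1 (le_min_iff.1 h).2),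
        lt_of_not_ge fun h => gB b hb (n2 (max_le_iff.1 h).2 ((dv b).1 (max_le_iff.1 h).1))⟩
  · rintro ⟨hD, gA, gB⟩
    have hne : ∀ a ∈ A, ∀ b ∈ B, a ≠ b ∧ a * b ≠ μ₁ * μ₂ := fun a ha b hb =>
      ⟨fun e => Finset.disjoint_left.1 hD ha (e ▸ hb), hAB a ha b hb⟩
    have i1 : ∀ a ∈ A, a < μ₂ ∨ μ₁ < a := fun a ha => by
      by_contra h
      exact (gA a ha).1 ⟨not_lt.1 fun e => h (.inl e), not_lt.1 fun e => h (.inr e)⟩
    have i2 : ∀ a ∈ A, κ * a < μ₁ ∨ κ * μ₂ < a := fun a ha => by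
      by_contra h
      exact (gA a ha).2 ⟨(dv a).2 (not_lt.1 fun e => h (.inl e)), not_lt.1 fun e => h (.inr e)⟩
    suffices h : ∃ (d : Dom) (l1 l2 : ℝ), SmoothDomain d.Ω ∧ (ctx d).Adm l1 ∧ (ctx d).Adm l2 ∧
        l1 < l2 ∧ (ctx d).Λ + l1 = κ * ((ctx d).Λ + l2) ∧
          (∀ a ∈ A, (ctx d).GS l1 l2 μ₁ μ₂ a) ∧ ∀ b ∈ B, ¬ (ctx d).GS l1 l2 μ₁ μ₂ b by
      obtain ⟨d, l1, l2, hd, a1, a2, hl, hκ, f1, f2⟩ := h
      refine ⟨d.Ω, l1, l2, hd, ?_, hl, a2.2, ?_, fun a ha => (hasGS_iff a1 a2 _ _ _).2 (f1 a ha),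
        fun b hb h => f2 b hb ((hasGS_iff a1 a2 _ _ _).1 h)⟩
      · rw [lam1_eq]; exact a1.1
      · rw [lam1_eq, div_eq_iff (by linarith [a2.1]), hκ]
    rcases le_or_gt (κ * μ₂) μ₁ with hc | hc
    · obtain ⟨d, l1, l2, hd, a1, a2, hl, hκ, f1, f2⟩ := sharp_one h1 h2 k0 k1
        (A.filter fun a => κ * μ₂ < a ∧ κ * a < μ₁) B
        (fun a ha => by
          obtain ⟨ha, b1, b2⟩ := Finset.mem_filter.1 ha
          exact ⟨(hA a ha).2, b1, b2, i1 a ha⟩)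
        (fun b hb => by
          obtain ⟨b1, b2⟩ := gB b hb
          rw [min_eq_right hc] at b1
          rw [max_eq_left ((le_div_iff₀' k0).2 hc)] at b2
          exact ⟨b1, (lt_div_iff₀' k0).1 b2⟩)
        (fun a ha => hne a (Finset.mem_filter.1 ha).1)
      refine ⟨d, l1, l2, hd, a1, a2, hl, hκ, fun a ha => ?_, f2⟩
      obtain ⟨n1, n2, -, -⟩ := sharp_nec d a1 a2 hl h1 h2 hκ (hA a ha).1.le
      rcases le_or_gt a (κ * μ₂) with e | e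
      · exact n1 (e.trans hc) e
      rcases le_or_gt μ₁ (κ * a) with e' | e'
      · exact n2 (le_of_mul_le_mul_left (hc.trans e') k0) e'
      exact f1 a (Finset.mem_filter.2 ⟨ha, e, e'⟩)
    · have hB' : ∀ b ∈ B, μ₁ < b ∧ b < μ₂ := fun b hb => by
        obtain ⟨b1, b2⟩ := gB b hb
        rw [min_eq_left hc.le] at b1
        rw [max_eq_right ((dv _).2 hc.le)] at b2
        exact ⟨b1, b2⟩
      obtain ⟨d, l1, l2, hd, a1, a2, hl, hκ, f1, f2⟩ := sharp_two h1 h2 k0 k1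
        (A.filter fun a => μ₁ < a ∧ a < μ₂) (B.filter fun b => κ * b < μ₁ ∨ κ * μ₂ < b)
        (fun a ha => by
          obtain ⟨ha, b1, b2⟩ := Finset.mem_filter.1 ha
          exact ⟨(hA a ha).2, b1, b2, i2 a ha⟩)
        (fun b hb => by
          obtain ⟨hb, b1⟩ := Finset.mem_filter.1 hb
          exact ⟨(hB' b hb).1, (hB' b hb).2, b1⟩)
        (fun a ha b hb => hne a (Finset.mem_filter.1 ha).1 b (Finset.mem_filter.1 hb).1)
      refine ⟨d, l1, l2, hd, a1, a2, hl, hκ, fun a ha => ?_, fun b hb => ?_⟩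
      · obtain ⟨n1, n2, -, -⟩ := sharp_nec d a1 a2 hl h1 h2 hκ (hA a ha).1.le
        rcases le_or_gt a μ₁ with e | e
        · exact n1 e (e.trans hc.le)
        rcases le_or_gt μ₂ a with e' | e'
        · exact n2 e' (hc.le.trans (mul_le_mul_of_nonneg_left e' k0.le))
        exact f1 a (Finset.mem_filter.2 ⟨ha, e, e'⟩)
      · obtain ⟨-, -, -, n4⟩ := sharp_nec d a1 a2 hl h1 h2 hκ (hB b hb).le
        by_cases e : κ * b < μ₁ ∨ κ * μ₂ < b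
        · exact f2 b (Finset.mem_filter.2 ⟨hb, e⟩)
        · exact n4 (not_lt.1 fun e' => e (.inl e')) (not_lt.1 fun e' => e (.inr e'))

end CritSys
end
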